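import Mathlib

/-! Eisenstein integers: basic facts. -/

namespace Pool.Agent.LibEis

open scoped QuadraticAlgebra

/-- The ring of Eisenstein integers `ℤ[ω]`, `ω ^ 2 = -1 - ω`. -/
abbrev E : Type := QuadraticAlgebra ℤ (-1) (-1)

/-- The cube root of unity. -/
def om : E := ⟨0, 1⟩

/-- `1 - ω`. -/
def lam : E := ⟨1, -1⟩

lemma om_sq : om ^ 2 = -1 - om := by
  ext <;> simp [om, pow_two]

lemma om_cube : om ^ 3 = 1 := by
  have : om ^ 3 = om ^ 2 * om := by ring
  rw [this, om_sq]
  ext <;> simp [om]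

lemma om_rel : 1 + om + om ^ 2 = 0 := by rw [om_sq]; ring

lemma mk_eq (a b : ℤ) : (⟨a, b⟩ : E) = (a : E) + (b : E) * om := by
  ext <;> simp [om]

/-- The norm as an integer. -/
def nm (z : E) : ℤ := z.re ^ 2 - z.re * z.im + z.im ^ 2

lemma nm_mul (z z' : E) : nm (z * z') = nm z * nm z' := by
  simp only [nm, QuadraticAlgebra.re_mul, QuadraticAlgebra.im_mul]; ring

lemma nm_one : nm 1 = 1 := by simp [nm]

lemma nm_zero : nm 0 = 0 := by simp [nm]

lemma four_nm (z : E) : 4 * nm z = (2 * z.re - z.im) ^ 2 + 3 * z.im ^ 2 := by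
  simp only [nm]; ring

lemma nm_nonneg (z : E) : 0 ≤ nm z := by
  have := four_nm z
  nlinarith [sq_nonneg (2 * z.re - z.im), sq_nonneg z.im]

lemma nm_eq_zero {z : E} : nm z = 0 ↔ z = 0 := by
  constructor
  · intro h
    have h4 := four_nm z
    rw [h] at h4
    have h1 : z.im = 0 := by
      have : z.im ^ 2 = 0 := by nlinarith [sq_nonneg (2 * z.re - z.im), sq_nonneg z.im]
      exact pow_eq_zero_iff (two_ne_zero) |>.mp this
    have h2 : z.re = 0 := by
      rw [h1] at h4
      have : z.re ^ 2 = 0 := by nlinarith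
      exact pow_eq_zero_iff (two_ne_zero) |>.mp this
    ext <;> simp [h1, h2]
  · rintro rfl; exact nm_zero

lemma nm_pos {z : E} (h : z ≠ 0) : 0 < nm z :=
  lt_of_le_of_ne (nm_nonneg z) (fun h' => h (nm_eq_zero.mp h'.symm))

lemma mul_star_eq (z : E) : z * star z = (nm z : E) := by
  ext
  · simp only [QuadraticAlgebra.re_mul, QuadraticAlgebra.re_star, QuadraticAlgebra.im_star,
      QuadraticAlgebra.re_intCast, nm, Int.cast_id]
    ring
  · simp only [QuadraticAlgebra.im_mul, QuadraticAlgebra.re_star, QuadraticAlgebra.im_star,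
      QuadraticAlgebra.im_intCast, Int.cast_id]
    ring

lemma nm_int (n : ℤ) : nm (n : E) = n ^ 2 := by
  simp only [nm, QuadraticAlgebra.re_intCast, QuadraticAlgebra.im_intCast, Int.cast_id]; ring

lemma nm_star (z : E) : nm (star z) = nm z := by
  simp [nm]; ring

instance : Nontrivial E := inferInstance

instance : NoZeroDivisors E where
  eq_zero_or_eq_zero_of_mul_eq_zero {a b} h := by
    have h1 : nm a * nm b = 0 := by rw [← nm_mul, h, nm_zero]
    rcases mul_eq_zero.mp h1 with h2 | h2
    · left; exact nm_eq_zero.mp h2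
    · right; exact nm_eq_zero.mp h2

instance : IsDomain E := NoZeroDivisors.to_isDomain E

instance : CharZero E := inferInstance

/-- rounded division -/
def ediv (x y : E) : E :=
  ⟨round (((x * star y).re : ℚ) / (nm y : ℚ)), round (((x * star y).im : ℚ) / (nm y : ℚ))⟩

lemma ediv_zero (x : E) : ediv x 0 = 0 := by
  ext <;> simp [ediv, nm]

lemma key_id (n : ℤ) (X q : E) (a b : ℚ) (ha : (X.re : ℚ) = n * a) (hb : (X.im : ℚ) = n * b) :
    (nm (X - (n : E) * q) : ℚ) =
      (n : ℚ) ^ 2 * ((a - q.re) ^ 2 - (a - q.re) * (b - q.im) + (b - q.im) ^ 2) := by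
  simp only [nm, QuadraticAlgebra.re_sub, QuadraticAlgebra.im_sub, QuadraticAlgebra.re_mul,
        QuadraticAlgebra.im_mul, QuadraticAlgebra.re_intCast, QuadraticAlgebra.im_intCast,
        Int.cast_id]
  push_cast
  rw [ha, hb]
  ring

lemma nm_mod_lt (x : E) {y : E} (hy : y ≠ 0) : nm (x - y * ediv x y) < nm y := by
  have hn : 0 < nm y := nm_pos hy
  have hnq : (0 : ℚ) < (nm y : ℚ) := by exact_mod_cast hn
  have hnq0 : (nm y : ℚ) ≠ 0 := hnq.ne'
  obtain ⟨a, ha⟩ : ∃ a : ℚ, a = ((x * star y).re : ℚ) / (nm y : ℚ) := ⟨_, rfl⟩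
  obtain ⟨b, hb⟩ : ∃ b : ℚ, b = ((x * star y).im : ℚ) / (nm y : ℚ) := ⟨_, rfl⟩
  have hq1 : (ediv x y).re = round a := by rw [ha]; rfl
  have hq2 : (ediv x y).im = round b := by rw [hb]; rfl
  have e1 : |a - round a| ≤ 1 / 2 := abs_sub_round a
  have e2 : |b - round b| ≤ 1 / 2 := abs_sub_round b
  have ea : (((x * star y).re : ℤ) : ℚ) = nm y * a := by rw [ha]; field_simp
  have eb : (((x * star y).im : ℤ) : ℚ) = nm y * b := by rw [hb]; field_simp
  have h1 : nm (x - y * ediv x y) * nm y = nm ((x - y * ediv x y) * star y) := by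
    rw [nm_mul, nm_star]
  have h2 : (x - y * ediv x y) * star y = x * star y - (nm y : E) * ediv x y := by
    rw [← mul_star_eq]; ring
  have key := key_id (nm y) (x * star y) (ediv x y) a b ea eb
  rw [← h2, ← h1, hq1, hq2] at key
  push_cast at key
  have hb1 : (a - round a) ^ 2 ≤ 1 / 4 := by
    have := sq_le_sq' (by linarith [(abs_le.mp e1).1]) (abs_le.mp e1).2
    linarith
  have hb2 : (b - round b) ^ 2 ≤ 1 / 4 := by
    have := sq_le_sq' (by linarith [(abs_le.mp e2).1]) (abs_le.mp e2).2
    linarith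
  have hb3 : (a - round a) ^ 2 - (a - round a) * (b - round b) + (b - round b) ^ 2 ≤ 3 / 4 := by
    nlinarith [sq_nonneg ((a - round a) + (b - round b)), sq_nonneg ((a - round a) - (b - round b))]
  have hlt : (nm (x - y * ediv x y) : ℚ) * nm y < nm y * nm y := by
    rw [key]; nlinarith
  have := lt_of_mul_lt_mul_right hlt hnq.le
  exact_mod_cast this

noncomputable instance : EuclideanDomain E :=
  { (inferInstance : CommRing E), (inferInstance : Nontrivial E) with
    quotient := ediv
    remainder := fun x y => x - y * ediv x y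
    quotient_zero := ediv_zero
    quotient_mul_add_remainder_eq := fun x y => by ring
    r := fun x y => (nm x).natAbs < (nm y).natAbs
    r_wellFounded := (measure fun x => (nm x).natAbs).wf
    remainder_lt := fun x {y} hy => by
      have h1 := nm_mod_lt x hy
      have h2 := nm_nonneg (x - y * ediv x y)
      have h3 := nm_nonneg y
      show (nm (x - y * ediv x y)).natAbs < (nm y).natAbs
      omega
    mul_left_not_lt := fun x {y} hy => by
      show ¬ (nm (x * y)).natAbs < (nm x).natAbs
      rw [nm_mul, Int.natAbs_mul]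
      have h1 : 1 ≤ (nm y).natAbs := by have := nm_pos hy; omega
      have := Nat.le_mul_of_pos_right (nm x).natAbs h1
      omega }

example : UniqueFactorizationMonoid E := inferInstance

end Pool.Agent.LibEis
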