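import Pool.Agent.LibEis.Split

/-! If `nrm α` is a cube, the unit gives an element of norm 3. -/

namespace Pool.Agent.LibEis

open scoped QuadraticAlgebra

namespace Cub

section h90

variable {P : E}

lemma sig_th : sig (th : Cub E P) = C om * th := by
  refine Cub.ext ?_ ?_ ?_ <;> simp [th]

lemma C_om_rel : (C om : Cub E P) ^ 2 + C om + 1 = 0 := by
  have h := congrArg (CHom (p := P)) om_rel'
  rw [map_add, map_add, map_pow, map_one, map_zero] at h
  exact h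

lemma C_three : (C 3 : Cub E P) = 3 := map_ofNat (CHom (p := P)) 3

lemma C_cancel {c : E} (hc : c ≠ 0) {x y : Cub E P} (h : C c * x = C c * y) : x = y := by
  refine Cub.ext ?_ ?_ ?_
  · apply mul_left_cancel₀ hc
    rw [← C_mul_a, ← C_mul_a, h]
  · apply mul_left_cancel₀ hc
    rw [← C_mul_b, ← C_mul_b, h]
  · apply mul_left_cancel₀ hc
    rw [← C_mul_c, ← C_mul_c, h]

/-- Hilbert 90 -/
lemma exists_h90 (hP : P ≠ 0) {c : E} {β : Cub E P} (hc : c ≠ 0) (hN : nrm β = c ^ 3) :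
    ∃ μ : Cub E P, μ ≠ 0 ∧ C c * sig μ = β * μ := by
  set f : Cub E P → Cub E P := fun x =>
    C c ^ 2 * x + C c * sig (sig β) * sig (sig x) + sig β * sig (sig β) * sig x with hf
  have h1 : ∀ x, C c * sig (f x) = β * f x := by
    intro x
    have h2 := mul_conj β
    rw [hN, C_pow] at h2
    simp only [hf, map_add, map_mul, map_pow, sig_C, sig_sig_sig]
    linear_combination (-sig x) * h2
  by_contra hcon
  push Not at hcon
  have h0 : ∀ x, f x = 0 := by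
    intro x
    by_contra h
    exact hcon (f x) h (h1 x)
  have h2 := h0 1
  have h3 := h0 th
  have h4 := h0 (th ^ 2)
  simp only [hf, map_one, map_mul, map_pow, sig_th, sig_C] at h2 h3 h4
  have h5 := C_om_rel (P := P)
  have h6 := th_cube (p := P)
  have h7 : (C om : Cub E P) ^ 3 = 1 := by linear_combination (C om - 1) * h5
  have h8 : C (3 * P * c ^ 2) = (0 : Cub E P) := by
    have e : (C (3 * P * c ^ 2) : Cub E P) = 3 * C P * C c ^ 2 := by
      rw [C_mul, C_mul, C_pow, C_three]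
    rw [e, ← h6]
    linear_combination (exp := 1) th ^ 3 * h2 + th ^ 2 * h3 + th * h4
      - (C c * sig (sig β) + sig β * sig (sig β)) * th ^ 3 * h5
      - C c * sig (sig β) * th ^ 3 * C om * h7
  have h9 := (C_inj (p := P)).mp (h8.trans C_zero.symm)
  have h10 : (3 : E) * P * c ^ 2 ≠ 0 := mul_ne_zero (mul_ne_zero three_ne_zero' hP) (pow_ne_zero _ hc)
  exact h10 h9

lemma case_a_aux (hP : P ≠ 0) (hPs : star P = P) (hnz : ∀ z : Cub E P, z ≠ 0 → nrm z ≠ 0)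
    {ε α : Cub E P} {κ : E} (he : tau ε = ε) (hε : nrm ε = 1) (hκ : κ ≠ 0) (hα : nrm α = κ ^ 3) (hs : sig α = ε * α) :
    ∃ (ρ : Cub E P) (e : E), nrm ρ ≠ 0 ∧ tau ρ = ρ ∧ ρ ^ 3 = C (e * star e) * ε := by
  obtain ⟨μ, hμ, h1⟩ := exists_h90 hP hκ hα
  have h2 : μ * sig (sig μ) = ε * (sig μ) ^ 2 := by
    apply C_cancel hκ
    have h3 := congrArg sig h1
    rw [map_mul, map_mul, sig_C, hs] at h3
    linear_combination μ * h3 - ε * sig μ * h1
  have h3 : C (nrm μ) = ε * (sig μ) ^ 3 := by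
    rw [← mul_conj]; linear_combination (sig μ) * h2
  have h4 : C (star (nrm μ)) = ε * (tau (sig μ)) ^ 3 := by
    have h5 := congrArg tau h3
    have h6 : tau (C (nrm μ) : Cub E P) = C (star (nrm μ)) := by
      refine Cub.ext rfl ?_ ?_ <;> simp
    rw [h6, tau_mul hPs, he] at h5
    rw [h5]
    have h7 : tau (sig μ ^ 3) = tau (sig μ) ^ 3 := by
      rw [pow_succ, pow_succ, pow_one, tau_mul hPs, tau_mul hPs]; ring
    rw [h7]
  refine ⟨ε * (sig μ * tau (sig μ)), nrm μ, ?_, ?_, ?_⟩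
  · rw [nrm_mul, nrm_mul, hε, nrm_tau hPs, nrm_sig, one_mul]
    exact mul_ne_zero (hnz μ hμ) (star_ne_zero' (hnz μ hμ))
  · rw [tau_mul hPs, tau_mul hPs, he, tau_tau]; ring
  · rw [C_mul, h3, h4]; ring

end h90

/-- inclusion of `ℤ[θ]` -/
def iota {p : ℕ} : Cub ℤ (p : ℤ) →+* Cub E (p : E) where
  toFun z := ⟨(z.a : E), (z.b : E), (z.c : E)⟩
  map_one' := by refine Cub.ext ?_ ?_ ?_ <;> simp
  map_mul' x y := by refine Cub.ext ?_ ?_ ?_ <;> simp
  map_zero' := by refine Cub.ext ?_ ?_ ?_ <;> simp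
  map_add' x y := by refine Cub.ext ?_ ?_ ?_ <;> simp

section iota

variable {p : ℕ}

@[simp] lemma iota_a (z : Cub ℤ (p : ℤ)) : (iota z).a = (z.a : E) := rfl
@[simp] lemma iota_b (z : Cub ℤ (p : ℤ)) : (iota z).b = (z.b : E) := rfl
@[simp] lemma iota_c (z : Cub ℤ (p : ℤ)) : (iota z).c = (z.c : E) := rfl

lemma iota_inj {x y : Cub ℤ (p : ℤ)} (h : iota x = iota y) : x = y := by
  have ha := congrArg Cub.a h
  have hb := congrArg Cub.b h
  have hc := congrArg Cub.c h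
  rw [iota_a, iota_a] at ha
  rw [iota_b, iota_b] at hb
  rw [iota_c, iota_c] at hc
  refine Cub.ext ?_ ?_ ?_
  · exact_mod_cast ha
  · exact_mod_cast hb
  · exact_mod_cast hc

lemma nrm_iota (z : Cub ℤ (p : ℤ)) : nrm (iota z) = ((nrm z : ℤ) : E) := by
  simp only [nrm, iota_a, iota_b, iota_c]; push_cast; ring

lemma tau_iota (z : Cub ℤ (p : ℤ)) : tau (iota z) = iota z := by
  refine Cub.ext ?_ ?_ ?_
  · simp only [tau_a, iota_a, star_int]
  · simp only [tau_b, iota_b, star_int]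
  · simp only [tau_c, iota_c, star_int]

lemma real_int {x : E} (h : star x = x) : x = (x.re : E) := by
  have h7 : x.im = 0 := by
    have := congrArg QuadraticAlgebra.im h
    simp at this; omega
  ext
  · simp
  · simp [h7]

lemma exists_iota {z : Cub E (p : E)} (h : tau z = z) : ∃ w : Cub ℤ (p : ℤ), iota w = z := by
  refine ⟨⟨z.a.re, z.b.re, z.c.re⟩, ?_⟩
  refine Cub.ext ?_ ?_ ?_
  · exact (real_int (congrArg Cub.a h)).symm
  · exact (real_int (congrArg Cub.b h)).symm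
  · exact (real_int (congrArg Cub.c h)).symm

lemma iota_C (n : ℤ) : iota (C n : Cub ℤ (p : ℤ)) = C (n : E) := by
  refine Cub.ext ?_ ?_ ?_ <;> simp

end iota

section descent

variable {p : ℕ}

lemma sq_zero_mod {l : ℤ} (hl : Prime l) (h3 : ¬ l ∣ 3) (hp : ¬ l ∣ (p : ℤ)) {z : Cub ℤ (p : ℤ)}
    (ha : l ∣ (z * z).a) (hb : l ∣ (z * z).b) (hc : l ∣ (z * z).c) : l ∣ z.a ∧ l ∣ z.b ∧ l ∣ z.c := by
  obtain ⟨A, hA⟩ := ha
  obtain ⟨B, hB⟩ := hb
  obtain ⟨D, hD⟩ := hc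
  simp only [mul_a, mul_b, mul_c] at hA hB hD
  have h1 : l ∣ 3 * 3 * (p : ℤ) * (z.b * z.c) ^ 2 := by
    refine ⟨z.b ^ 2 * B - 2 * z.a * z.b * D + 4 * z.b * z.c * A, ?_⟩
    linear_combination z.b ^ 2 * hB - 2 * z.a * z.b * hD + 4 * z.b * z.c * hA
  have h2 : l ∣ z.b * z.c := by
    rcases hl.dvd_or_dvd h1 with h4 | h4
    · rcases hl.dvd_or_dvd h4 with h5 | h5
      · rcases hl.dvd_or_dvd h5 with h6 | h6 <;> exact absurd h6 h3
      · exact absurd h5 hp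
    · exact hl.dvd_of_dvd_pow h4
  obtain ⟨k, hk⟩ := h2
  have h3 : l ∣ z.a := by
    have : l ∣ z.a ^ 2 := ⟨A - 2 * p * k, by linear_combination hA - 2 * p * hk⟩
    exact hl.dvd_of_dvd_pow this
  obtain ⟨a', ha'⟩ := h3
  have h4 : l ∣ z.b := by
    have : l ∣ z.b ^ 2 := ⟨D - 2 * a' * z.c, by linear_combination hD - 2 * z.c * ha'⟩
    exact hl.dvd_of_dvd_pow this
  have h5 : l ∣ z.c := by
    have : l ∣ (p : ℤ) * z.c ^ 2 := ⟨B - 2 * a' * z.b, by linear_combination hB - 2 * z.b * ha'⟩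
    rcases hl.dvd_or_dvd this with h6 | h6
    · exact absurd h6 hp
    · exact hl.dvd_of_dvd_pow h6
  exact ⟨⟨a', ha'⟩, h4, h5⟩

lemma cube_zero_mod {l : ℤ} (hl : Prime l) (h3 : ¬ l ∣ 3) (hp : ¬ l ∣ (p : ℤ))
    {z w : Cub ℤ (p : ℤ)} (h : z ^ 3 = C l * w) : ∃ z' : Cub ℤ (p : ℤ), z = C l * z' := by
  have h4 : (z * z) * (z * z) = C l * (w * z) := by linear_combination z * h
  have key : ∀ x y : Cub ℤ (p : ℤ), x * x = C l * y → l ∣ x.a ∧ l ∣ x.b ∧ l ∣ x.c := by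
    intro x y hxy
    rw [C_mul_eq] at hxy
    refine sq_zero_mod hl h3 hp ?_ ?_ ?_
    · rw [hxy]; exact dvd_mul_right _ _
    · rw [hxy]; exact dvd_mul_right _ _
    · rw [hxy]; exact dvd_mul_right _ _
  obtain ⟨⟨a, ha⟩, ⟨b, hb⟩, ⟨c, hc⟩⟩ := key _ _ h4
  obtain ⟨⟨a', ha'⟩, ⟨b', hb'⟩, ⟨c', hc'⟩⟩ := key z ⟨a, b, c⟩ (by
    rw [C_mul_eq]; exact Cub.ext ha hb hc)
  exact ⟨⟨a', b', c'⟩, by rw [C_mul_eq]; exact Cub.ext ha' hb' hc'⟩

lemma three_dvd_cube_sub (b : ℤ) : (3 : ℤ) ∣ b ^ 3 - b := by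
  have h := ZMod.intCast_zmod_eq_zero_iff_dvd (b ^ 3 - b) 3
  have h2 : ((b ^ 3 - b : ℤ) : ZMod 3) = 0 := by
    push_cast
    generalize (b : ZMod 3) = t
    revert t; decide
  exact_mod_cast h.mp h2

lemma mod3_eq {u a b c P : ℤ} (hu : ¬ (3 : ℤ) ∣ u) (hP : P = 1 + 3 * u)
    (h : (9 : ℤ) ∣ a ^ 3 + P * b ^ 3 + P ^ 2 * c ^ 3 - 3 * P * a * b * c) :
    ∃ b' c' : ℤ, b = a + 3 * b' ∧ c = a + 3 * c' := by
  subst hP
  obtain ⟨m, hm⟩ := h
  obtain ⟨a', ha'⟩ := three_dvd_cube_sub a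
  obtain ⟨b', hb'⟩ := three_dvd_cube_sub b
  obtain ⟨c', hc'⟩ := three_dvd_cube_sub c
  have h3 : (3 : ℤ) ∣ a + b + c := by
    refine ⟨3 * m - a' - b' - c' - u * b ^ 3 - (2 * u + 3 * u ^ 2) * c ^ 3
      + (1 + 3 * u) * a * b * c, ?_⟩
    linear_combination hm - ha' - hb' - hc'
  obtain ⟨k, hk⟩ := h3
  have ha : a = 3 * k - b - c := by linear_combination hk
  have h9 : (3 : ℤ) ∣ u * (b ^ 3 + 2 * c ^ 3) := by
    refine ⟨m - 3 * k ^ 3 + 3 * k ^ 2 * (b + c) - k * (b + c) ^ 2 - u ^ 2 * c ^ 3 + k * b * c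
      + 3 * u * k * b * c - u * b * c * (b + c), ?_⟩
    rw [ha] at hm
    have : 3 * (u * (b ^ 3 + 2 * c ^ 3)) = 3 * (3 * (m - 3 * k ^ 3 + 3 * k ^ 2 * (b + c)
      - k * (b + c) ^ 2 - u ^ 2 * c ^ 3 + k * b * c
      + 3 * u * k * b * c - u * b * c * (b + c))) := by
      linear_combination hm
    linarith
  have h4 : (3 : ℤ) ∣ b ^ 3 + 2 * c ^ 3 := by
    rcases Int.prime_three.dvd_or_dvd h9 with h5 | h5
    · exact absurd h5 hu
    · exact h5
  have h5 : (3 : ℤ) ∣ b - c := by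
    obtain ⟨w, hw⟩ := h4
    exact ⟨w - b' - 2 * c' - c, by linear_combination hw - hb' - 2 * hc'⟩
  exact ⟨(b - a) / 3, (c - a) / 3, by omega, by omega⟩

lemma three_dvd_a {u a b' c' P : ℤ} (hu : ¬ (3 : ℤ) ∣ u) (hP : P = 1 + 3 * u)
    (h : (27 : ℤ) ∣ a ^ 3 + P * (a + 3 * b') ^ 3 + P ^ 2 * (a + 3 * c') ^ 3
      - 3 * P * a * (a + 3 * b') * (a + 3 * c')) : (3 : ℤ) ∣ a := by
  subst hP
  obtain ⟨m, hm⟩ := h
  have h1 : (3 : ℤ) ∣ u ^ 2 * a ^ 3 := by
    refine ⟨m - u * (1 + 3 * u) * a ^ 2 * c' - (1 + 3 * u) * a * b' ^ 2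
      - (1 + 3 * u) ^ 2 * a * c' ^ 2 + (1 + 3 * u) * a * b' * c' - (1 + 3 * u) * b' ^ 3
      - (1 + 3 * u) ^ 2 * c' ^ 3, ?_⟩
    have : 9 * (u ^ 2 * a ^ 3) = 9 * (3 * (m - u * (1 + 3 * u) * a ^ 2 * c'
      - (1 + 3 * u) * a * b' ^ 2
      - (1 + 3 * u) ^ 2 * a * c' ^ 2 + (1 + 3 * u) * a * b' * c' - (1 + 3 * u) * b' ^ 3
      - (1 + 3 * u) ^ 2 * c' ^ 3)) := by
      linear_combination hm
    linarith
  rcases Int.prime_three.dvd_or_dvd h1 with h2 | h2
  · exact absurd (Int.prime_three.dvd_of_dvd_pow h2) hu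
  · exact Int.prime_three.dvd_of_dvd_pow h2

lemma C_cancelZ {P c : ℤ} (hc : c ≠ 0) {x y : Cub ℤ P} (h : C c * x = C c * y) : x = y := by
  rw [C_mul_eq, C_mul_eq] at h
  refine Cub.ext ?_ ?_ ?_
  · exact mul_left_cancel₀ hc (congrArg Cub.a h)
  · exact mul_left_cancel₀ hc (congrArg Cub.b h)
  · exact mul_left_cancel₀ hc (congrArg Cub.c h)

lemma red_step {P : ℤ} {ε ν ν' : Cub ℤ P} {l M : ℤ} (hε : nrm ε = 1) (hl : l ≠ 0)
    (h : ν ^ 3 = C M * ε) (hν : ν = C l * ν') : ∃ M' : ℤ, M = l ^ 3 * M' ∧ ν' ^ 3 = C M' * ε := by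
  have h1 : C (l ^ 3) * (ν' ^ 3 * adj ε) = C M := by
    have h2 := mul_adj ε
    rw [hε, C_one] at h2
    rw [hν] at h
    rw [C_pow]
    linear_combination adj ε * h + C M * h2
  have h3 : M = l ^ 3 * (ν' ^ 3 * adj ε).a := by
    have := congrArg Cub.a h1
    rw [C_mul_eq] at this
    exact this.symm
  refine ⟨(ν' ^ 3 * adj ε).a, h3, ?_⟩
  apply C_cancelZ (pow_ne_zero 3 hl)
  rw [← mul_assoc, ← C_mul, ← h3, ← h, hν, C_pow]; ring

lemma natAbs_lt_of {M l M' : ℤ} (hM : M ≠ 0) (h : M = l * M') (hl : 2 ≤ l.natAbs) :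
    M'.natAbs < M.natAbs ∧ M' ≠ 0 := by
  have h0 : M' ≠ 0 := by rintro rfl; exact hM (by rw [h, mul_zero])
  refine ⟨?_, h0⟩
  rw [h, Int.natAbs_mul]
  have : 0 < M'.natAbs := Int.natAbs_pos.mpr h0
  nlinarith

theorem descent {p : ℕ} (hp : p.Prime) (hmod : p % 9 = 4 ∨ p % 9 = 7) {ε : Cub ℤ (p : ℤ)}
    (hε : nrm ε = 1) (hc : ∀ z : Cub ℤ (p : ℤ), z ^ 3 ≠ ε) (n : ℕ) :
    ∀ (ν : Cub ℤ (p : ℤ)) (M : ℤ), M.natAbs = n → M ≠ 0 → ν ^ 3 = C M * ε →
      ∃ z : Cub ℤ (p : ℤ), nrm z = 3 := by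
  induction n using Nat.strong_induction_on with
  | _ n ih =>
    intro ν M hn hM0 h
    have hp' : Prime (p : ℤ) := Nat.prime_iff_prime_int.mp hp
    have hnM : nrm ν = M := by
      have h1 := congrArg nrm h
      rw [nrm_pow, nrm_mul, nrm_C, hε, mul_one] at h1
      exact (Odd.strictMono_pow (by decide : Odd 3)).injective h1
    obtain ⟨u, hu⟩ : ∃ u : ℤ, (p : ℤ) = 1 + 3 * u := ⟨((p : ℤ) - 1) / 3, by omega⟩
    have hu3 : ¬ (3 : ℤ) ∣ u := by omega
    by_cases hex : ∃ l : ℕ, l.Prime ∧ l ≠ 3 ∧ l ∣ M.natAbs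
    · obtain ⟨l, hl, hl3, hlM⟩ := hex
      have hlM' : (l : ℤ) ∣ M := Int.natCast_dvd.mpr hlM
      by_cases hlp : l = p
      · subst hlp
        have h1 : (l : ℤ) ∣ ν.a := by
          have : (l : ℤ) ∣ ν.a ^ 3 := by
            obtain ⟨k, hk⟩ := hlM'
            rw [hk, nrm] at hnM
            exact ⟨k - ν.b ^ 3 - l * ν.c ^ 3 + 3 * ν.a * ν.b * ν.c, by linear_combination hnM⟩
          exact hp'.dvd_of_dvd_pow this
        obtain ⟨a', ha'⟩ := h1
        obtain ⟨M', hM'⟩ := hlM'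
        have h2 : ν = th * ⟨ν.b, ν.c, a'⟩ := by
          refine Cub.ext ?_ ?_ ?_
          · simp [th, ha']
          · simp [th]
          · simp [th]
        set ν' : Cub ℤ (l : ℤ) := ⟨ν.b, ν.c, a'⟩ with hν'
        have h3 : C (l : ℤ) * ν' ^ 3 = C (l : ℤ) * (C M' * ε) := by
          rw [← mul_assoc, ← C_mul, ← hM', ← h, h2, mul_pow, th_cube]
        have h4 := C_cancelZ (by exact_mod_cast hl.ne_zero) h3
        obtain ⟨h5, h6⟩ := natAbs_lt_of hM0 hM' (by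
          rw [Int.natAbs_natCast]; exact hl.two_le)
        exact ih M'.natAbs (hn ▸ h5) ν' M' rfl h6 h4
      · have hl' : Prime (l : ℤ) := Nat.prime_iff_prime_int.mp hl
        have h3 : ¬ (l : ℤ) ∣ 3 := by
          intro h'
          have h2 : l ∣ 3 := by exact_mod_cast h'
          exact hl3 ((Nat.prime_dvd_prime_iff_eq hl (by norm_num)).mp h2)
        have h4 : ¬ (l : ℤ) ∣ (p : ℤ) := by
          intro h'
          have h2 : l ∣ p := by exact_mod_cast h'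
          exact hlp ((Nat.prime_dvd_prime_iff_eq hl hp).mp h2)
        obtain ⟨k, hk⟩ := hlM'
        have h5 : ν ^ 3 = C (l : ℤ) * (C k * ε) := by rw [h, hk, C_mul]; ring
        obtain ⟨ν', hν'⟩ := cube_zero_mod hl' h3 h4 h5
        obtain ⟨M', hM', h6⟩ := red_step hε (by exact_mod_cast hl.ne_zero) h hν'
        obtain ⟨h7, h8⟩ := natAbs_lt_of hM0 hM' (by
          rw [Int.natAbs_pow, Int.natAbs_natCast]
          calc 2 ≤ 2 ^ 3 := by norm_num
            _ ≤ l ^ 3 := Nat.pow_le_pow_left hl.two_le 3)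
        exact ih M'.natAbs (hn ▸ h7) ν' M' rfl h8 h6
    · push Not at hex
      have h1 : ∀ {d : ℕ}, Nat.Prime d → d ∣ M.natAbs → d = 3 := by
        intro d hd hd2
        by_contra h3
        exact hex d hd h3 hd2
      have h2 := Nat.eq_prime_pow_of_unique_prime_dvd (Int.natAbs_ne_zero.mpr hM0) h1
      generalize (M.natAbs).primeFactorsList.length = a at h2
      have hsgn : M = M.natAbs ∨ M = -(M.natAbs : ℤ) := Int.natAbs_eq M
      rw [h2] at hsgn
      push_cast at hsgn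
      have hneg : nrm (-ν) = -nrm ν := by simp only [nrm, neg_a, neg_b, neg_c]; ring
      rcases Nat.lt_or_ge a 2 with ha | ha
      · interval_cases a
        · exfalso
          rcases hsgn with h3 | h3
          · rw [h3] at h
            exact hc ν (by rw [h, pow_zero, C_one, one_mul])
          · rw [h3] at h
            apply hc (-ν)
            have h4 : (-ν) ^ 3 = -ν ^ 3 := by ring
            rw [h4, h, pow_zero, C_neg, C_one]; ring
        · rcases hsgn with h3 | h3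
          · exact ⟨ν, by rw [hnM, h3]; norm_num⟩
          · exact ⟨-ν, by rw [hneg, hnM, h3]; norm_num⟩
      · obtain ⟨a', rfl⟩ : ∃ a', a = a' + 2 := ⟨a - 2, by omega⟩
        have h9 : (9 : ℤ) ∣ nrm ν := by
          rw [hnM]
          rcases hsgn with h3 | h3
          · exact ⟨3 ^ a', by rw [h3]; ring⟩
          · exact ⟨-3 ^ a', by rw [h3]; ring⟩
        obtain ⟨b', c', hb', hc'⟩ := mod3_eq hu3 hu h9
        rcases Nat.eq_zero_or_pos a' with ha' | ha'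
        · -- norm ±9
          subst ha'
          have e1 : ν ^ 2 = C 3 * ⟨(ν.a ^ 2 + 2 * p * ν.b * ν.c) / 3, (2 * ν.a * ν.b + p * ν.c ^ 2) / 3,
              (ν.b ^ 2 + 2 * ν.a * ν.c) / 3⟩ := by
            have e2 : ν ^ 2 = ⟨ν.a ^ 2 + 2 * p * ν.b * ν.c, 2 * ν.a * ν.b + p * ν.c ^ 2,
              ν.b ^ 2 + 2 * ν.a * ν.c⟩ := by
              rw [pow_two]
              refine Cub.ext ?_ ?_ ?_
              · simp only [mul_a]; ring
              · simp only [mul_b]; ring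
              · simp only [mul_c]; ring
            rw [e2, C_mul_eq]
            have d1 : (3 : ℤ) ∣ ν.a ^ 2 + 2 * p * ν.b * ν.c := by
              rw [hb', hc']
              exact ⟨ν.a ^ 2 + 2 * ν.a * (b' + c') + 6 * b' * c' + 2 * u * (ν.a + 3 * b') * (ν.a + 3 * c'),
                by linear_combination 2 * (ν.a + 3 * b') * (ν.a + 3 * c') * hu⟩
            have d2 : (3 : ℤ) ∣ 2 * ν.a * ν.b + p * ν.c ^ 2 := by
              rw [hb', hc']
              exact ⟨ν.a ^ 2 + 2 * ν.a * b' + 2 * ν.a * c' + 3 * c' ^ 2 + u * (ν.a + 3 * c') ^ 2,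
                by linear_combination (ν.a + 3 * c') ^ 2 * hu⟩
            have d3 : (3 : ℤ) ∣ ν.b ^ 2 + 2 * ν.a * ν.c := by
              rw [hb', hc']
              exact ⟨ν.a ^ 2 + 2 * ν.a * b' + 3 * b' ^ 2 + 2 * ν.a * c', by ring⟩
            refine Cub.ext ?_ ?_ ?_
            · exact (Int.mul_ediv_cancel' d1).symm
            · exact (Int.mul_ediv_cancel' d2).symm
            · exact (Int.mul_ediv_cancel' d3).symm
          obtain ⟨w, hw⟩ : ∃ w : Cub ℤ (p : ℤ), ν ^ 2 = C 3 * w := ⟨_, e1⟩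
          refine ⟨w, ?_⟩
          have e3 := congrArg nrm hw
          rw [nrm_pow, hnM, nrm_mul, nrm_C] at e3
          have e4 : M ^ 2 = 81 := by
            rcases hsgn with h3 | h3
            · rw [h3]; norm_num
            · rw [h3]; norm_num
          rw [e4] at e3
          linarith
        · have h27 : (27 : ℤ) ∣ nrm ν := by
            obtain ⟨a'', rfl⟩ : ∃ a'', a' = a'' + 1 := ⟨a' - 1, by omega⟩
            rw [hnM]
            rcases hsgn with h3 | h3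
            · exact ⟨3 ^ a'', by rw [h3]; ring⟩
            · exact ⟨-3 ^ a'', by rw [h3]; ring⟩
          have h3a : (3 : ℤ) ∣ ν.a := by
            rw [nrm, hb', hc'] at h27
            exact three_dvd_a hu3 hu h27
          obtain ⟨a₁, ha₁⟩ := h3a
          have hν : ν = C 3 * ⟨a₁, a₁ + b', a₁ + c'⟩ := by
            rw [C_mul_eq]
            refine Cub.ext ha₁ ?_ ?_
            · simp only; linarith
            · simp only; linarith
          obtain ⟨M', hM', h6⟩ := red_step hε (by norm_num) h hν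
          obtain ⟨h7, h8⟩ := natAbs_lt_of hM0 hM' (by norm_num)
          exact ih M'.natAbs (hn ▸ h7) _ M' rfl h8 h6

end descent

theorem case_a {p : ℕ} {q : E} (h : Dat p q) {ε : Cub ℤ (p : ℤ)} (hε : nrm ε = 1)
    (hc : ∀ z : Cub ℤ (p : ℤ), z ^ 3 ≠ ε) {α : Cub E (p : E)} (hs : sig α = iota ε * α)
    {κ : E} (hκ : κ ≠ 0) (hα : nrm α = κ ^ 3) : ∃ z : Cub ℤ (p : ℤ), nrm z = 3 := by
  have hε' : nrm (iota ε) = 1 := by rw [nrm_iota, hε]; norm_num
  obtain ⟨ρ, e, h1, h2, h3⟩ := case_a_aux h.p_ne_zero (star_natCast p)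
    (fun z hz => h.nrm_ne hz) (tau_iota ε) hε' hκ hα hs
  obtain ⟨w, rfl⟩ := exists_iota h2
  rw [mul_star_eq, ← iota_C, ← map_mul, ← map_pow] at h3
  have h4 := iota_inj h3
  have h5 : nm e ≠ 0 := by
    intro h0
    rw [h0] at h4
    have h6 := congrArg nrm h4
    rw [nrm_pow, C_zero, zero_mul, nrm_zero] at h6
    have h7 : nrm w = 0 := by
      rcases Nat.eq_zero_or_pos 3 with h8 | h8
      · omega
      · exact pow_eq_zero_iff (by norm_num) |>.mp h6
    apply h1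
    rw [nrm_iota, h7]; norm_num
  exact descent h.pp h.hmod hε hc (nm e).natAbs w (nm e) rfl h5 h4

end Cub

end Pool.Agent.LibEis
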