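import Pool.Agent.LibEis.CaseA

/-! Existence of a norm one unit of `ℤ[θ]` which is not a cube. -/

namespace Pool.Agent.LibEis

namespace Cub

section

variable {p : ℕ} {t : ℝ}

/-- real evaluation -/
def ev (t : ℝ) (z : Cub ℤ (p : ℤ)) : ℝ := z.a + z.b * t + z.c * t ^ 2

/-- the quadratic cofactor -/
def qd (t : ℝ) (z : Cub ℤ (p : ℤ)) : ℝ :=
  ((z.a : ℝ) - z.b * t) ^ 2 + (z.b * t - z.c * t ^ 2) ^ 2 + (z.c * t ^ 2 - z.a) ^ 2

lemma ev_mul (ht : t ^ 3 = p) (x y : Cub ℤ (p : ℤ)) : ev t (x * y) = ev t x * ev t y := by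
  simp only [ev, mul_a, mul_b, mul_c]
  push_cast
  linear_combination (-(x.b * y.c + x.c * y.b : ℝ) - x.c * y.c * t) * ht

lemma two_nrm (ht : t ^ 3 = p) (z : Cub ℤ (p : ℤ)) : 2 * ((nrm z : ℤ) : ℝ) = ev t z * qd t z := by
  simp only [ev, qd, nrm]
  push_cast
  rw [← ht]; ring

lemma qd_nonneg (z : Cub ℤ (p : ℤ)) : 0 ≤ qd t z := by unfold qd; positivity

lemma nrm_ne_zeroZ (hp : p.Prime) {z : Cub ℤ (p : ℤ)} (hz : z ≠ 0) : nrm z ≠ 0 := by
  have hp' : Prime (p : ℤ) := Nat.prime_iff_prime_int.mp hp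
  intro h
  exact hz ((nrm_eq_zero hp' (p' := 1) (by ring) hp'.not_dvd_one).mp h)

lemma ev_ne_zero (hp : p.Prime) (ht : t ^ 3 = p) {z : Cub ℤ (p : ℤ)} (hz : z ≠ 0) : ev t z ≠ 0 := by
  intro h
  have h1 := two_nrm ht z
  rw [h, zero_mul] at h1
  have h2 : ((nrm z : ℤ) : ℝ) = 0 := by linarith
  exact nrm_ne_zeroZ hp hz (by exact_mod_cast h2)

/-- Dirichlet approximation -/
lemma exists_small (t : ℝ) (p : ℕ) (N : ℕ) (hN : 1 ≤ N) : ∃ z : Cub ℤ (p : ℤ), z ≠ 0 ∧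
    |(z.b : ℝ)| ≤ N ∧ |(z.c : ℝ)| ≤ N ∧ |ev t z| < 1 / (N : ℝ) ^ 2 := by
  classical
  have hN0 : (0 : ℝ) < (N : ℝ) ^ 2 := by have : (1 : ℝ) ≤ N := by exact_mod_cast hN
                                         positivity
  set f : ℕ × ℕ → ℕ := fun x => ⌊(N : ℝ) ^ 2 * Int.fract (x.1 * t + x.2 * t ^ 2)⌋₊ with hf
  have hcard : (Finset.range (N ^ 2)).card <
      (Finset.range (N + 1) ×ˢ Finset.range (N + 1)).card := by
    rw [Finset.card_product, Finset.card_range, Finset.card_range]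
    nlinarith
  have hmaps : ∀ x ∈ Finset.range (N + 1) ×ˢ Finset.range (N + 1), f x ∈ Finset.range (N ^ 2) := by
    intro x _
    rw [Finset.mem_range, hf]
    have h1 := Int.fract_lt_one ((x.1 : ℝ) * t + x.2 * t ^ 2)
    have h2 := Int.fract_nonneg ((x.1 : ℝ) * t + x.2 * t ^ 2)
    rw [Nat.floor_lt (by positivity)]
    push_cast
    nlinarith
  obtain ⟨x, hx, y, hy, hne, hxy⟩ := Finset.exists_ne_map_eq_of_card_lt_of_maps_to hcard hmaps
  rw [Finset.mem_product, Finset.mem_range, Finset.mem_range] at hx hy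
  set X := (x.1 : ℝ) * t + x.2 * t ^ 2 with hX
  set Y := (y.1 : ℝ) * t + y.2 * t ^ 2 with hY
  refine ⟨⟨⌊Y⌋ - ⌊X⌋, (x.1 : ℤ) - y.1, (x.2 : ℤ) - y.2⟩, ?_, ?_, ?_, ?_⟩
  · intro h0
    apply hne
    have h1 := congrArg Cub.b h0
    have h2 := congrArg Cub.c h0
    simp only [zero_b, zero_c] at h1 h2
    ext
    · omega
    · omega
  · push_cast
    rw [abs_le]
    have h1 : (x.1 : ℝ) ≤ N := by exact_mod_cast Nat.lt_succ_iff.mp hx.1
    have h2 : (y.1 : ℝ) ≤ N := by exact_mod_cast Nat.lt_succ_iff.mp hy.1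
    have h3 : (0 : ℝ) ≤ x.1 := Nat.cast_nonneg _
    have h4 : (0 : ℝ) ≤ y.1 := Nat.cast_nonneg _
    constructor <;> linarith
  · push_cast
    rw [abs_le]
    have h1 : (x.2 : ℝ) ≤ N := by exact_mod_cast Nat.lt_succ_iff.mp hx.2
    have h2 : (y.2 : ℝ) ≤ N := by exact_mod_cast Nat.lt_succ_iff.mp hy.2
    have h3 : (0 : ℝ) ≤ x.2 := Nat.cast_nonneg _
    have h4 : (0 : ℝ) ≤ y.2 := Nat.cast_nonneg _
    constructor <;> linarith
  · have h1 : ev t (⟨⌊Y⌋ - ⌊X⌋, (x.1 : ℤ) - y.1, (x.2 : ℤ) - y.2⟩ : Cub ℤ (p : ℤ)) =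
        Int.fract X - Int.fract Y := by
      simp only [ev, Int.fract]
      push_cast
      rw [hX, hY]; ring
    rw [h1, lt_div_iff₀ hN0, ← abs_of_pos hN0, ← abs_mul]
    have h2 : f x = f y := hxy
    simp only [hf] at h2
    have h3 := Nat.floor_le (mul_nonneg hN0.le (Int.fract_nonneg X))
    have h4 := Nat.floor_le (mul_nonneg hN0.le (Int.fract_nonneg Y))
    have h5 := Nat.lt_floor_add_one ((N : ℝ) ^ 2 * Int.fract X)
    have h6 := Nat.lt_floor_add_one ((N : ℝ) ^ 2 * Int.fract Y)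
    rw [← hX, ← hY] at h2
    rw [h2] at h3 h5
    rw [abs_lt]
    constructor <;> nlinarith

lemma nrm_small (ht : t ^ 3 = p) (ht0 : 0 < t) {N : ℕ} (hN : 1 ≤ N) {z : Cub ℤ (p : ℤ)}
    (hb : |(z.b : ℝ)| ≤ N) (hc : |(z.c : ℝ)| ≤ N) (he : |ev t z| < 1 / (N : ℝ) ^ 2) :
    |((nrm z : ℤ) : ℝ)| ≤ 6 * (1 + t + t ^ 2) ^ 2 := by
  have hN1 : (1 : ℝ) ≤ N := by exact_mod_cast hN
  have hN0 : (0 : ℝ) < (N : ℝ) ^ 2 := by positivity
  set M : ℝ := N * (1 + t + t ^ 2) with hM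
  have hM0 : 0 < M := by positivity
  have hY : |(z.b : ℝ) * t| ≤ M := by
    rw [abs_mul, abs_of_pos ht0]
    have := abs_nonneg (z.b : ℝ)
    rw [hM]; nlinarith [sq_nonneg t]
  have hZ : |(z.c : ℝ) * t ^ 2| ≤ M := by
    rw [abs_mul, abs_of_pos (by positivity : (0:ℝ) < t ^ 2)]
    have := abs_nonneg (z.c : ℝ)
    have h2 : (0:ℝ) < t ^ 2 := by positivity
    rw [hM]; nlinarith
  have he1 : |ev t z| ≤ 1 := by
    have : 1 / (N : ℝ) ^ 2 ≤ 1 := by
      rw [div_le_one hN0]; nlinarith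
    linarith
  have hX : |(z.a : ℝ)| ≤ M := by
    have h1 : (z.a : ℝ) = ev t z - z.b * t - z.c * t ^ 2 := by unfold ev; ring
    have h2 : |(z.b : ℝ) * t| ≤ N * t := by
      rw [abs_mul, abs_of_pos ht0]; nlinarith
    have h3 : |(z.c : ℝ) * t ^ 2| ≤ N * t ^ 2 := by
      rw [abs_mul, abs_of_pos (by positivity : (0:ℝ) < t ^ 2)]
      have : (0:ℝ) < t ^ 2 := by positivity
      nlinarith
    rw [h1, hM]
    have h4 := abs_sub (ev t z - z.b * t) (z.c * t ^ 2)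
    have h5 := abs_sub (ev t z) (z.b * t)
    nlinarith
  have hq : qd t z ≤ 12 * M ^ 2 := by
    have h1 := abs_le.mp hX
    have h2 := abs_le.mp hY
    have h3 := abs_le.mp hZ
    have e1 : ((z.a : ℝ) - z.b * t) ^ 2 ≤ (2 * M) ^ 2 := by
      apply sq_le_sq'
      · linarith
      · linarith
    have e2 : ((z.b : ℝ) * t - z.c * t ^ 2) ^ 2 ≤ (2 * M) ^ 2 := by
      apply sq_le_sq'
      · linarith
      · linarith
    have e3 : ((z.c : ℝ) * t ^ 2 - z.a) ^ 2 ≤ (2 * M) ^ 2 := by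
      apply sq_le_sq'
      · linarith
      · linarith
    unfold qd
    nlinarith
  have h2n := two_nrm ht z
  have h3 : 2 * |((nrm z : ℤ) : ℝ)| = |ev t z| * qd t z := by
    rw [← abs_of_nonneg (qd_nonneg z), ← abs_mul, ← h2n, abs_mul]; norm_num
  have h4 : |ev t z| * qd t z ≤ 1 / (N : ℝ) ^ 2 * (12 * M ^ 2) := by
    apply mul_le_mul he.le hq (qd_nonneg z) (by positivity)
  have h5 : 1 / (N : ℝ) ^ 2 * (12 * M ^ 2) = 12 * (1 + t + t ^ 2) ^ 2 := by
    rw [hM]; field_simp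
  linarith

lemma nrm_adj {P : ℤ} (z : Cub ℤ P) : nrm (adj z) = nrm z ^ 2 := by
  simp only [nrm, adj]; ring

lemma exists_unit_aux (hp : p.Prime) (ht : t ^ 3 = p) (ht0 : 0 < t) :
    ∃ η : Cub ℤ (p : ℤ), nrm η = 1 ∧ η ≠ 1 := by
  classical
  set B : ℤ := ⌈6 * (1 + t + t ^ 2) ^ 2⌉ with hB
  set V : Set (Cub ℤ (p : ℤ)) := {z | z ≠ 0 ∧ |nrm z| ≤ B} with hV
  have hinf : V.Infinite := by
    intro hfin
    -- positive lower bound
    have hlow : ∃ δ : ℝ, 0 < δ ∧ ∀ z ∈ V, δ ≤ |ev t z| := by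
      rcases V.eq_empty_or_nonempty with h0 | h0
      · exact ⟨1, one_pos, by rw [h0]; simp⟩
      · obtain ⟨z0, hz0, hmin⟩ := Set.exists_min_image V (fun z => |ev t z|) hfin h0
        exact ⟨|ev t z0|, abs_pos.mpr (ev_ne_zero hp ht hz0.1), hmin⟩
    obtain ⟨δ, hδ, hlow⟩ := hlow
    obtain ⟨n, hn⟩ := exists_nat_gt (1 / δ)
    have hN : 1 ≤ n + 1 := by omega
    obtain ⟨z, hz0, hzb, hzc, hze⟩ := exists_small t p (n + 1) hN
    have h1 := nrm_small ht ht0 hN hzb hzc hze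
    have h2 : z ∈ V := by
      refine ⟨hz0, ?_⟩
      have h3 : ((|nrm z| : ℤ) : ℝ) ≤ (B : ℝ) := by
        rw [Int.cast_abs]
        exact h1.trans (Int.le_ceil _)
      exact_mod_cast h3
    have h3 := hlow z h2
    have h4 : 1 / ((n + 1 : ℕ) : ℝ) ^ 2 < δ := by
      have h5 : (0 : ℝ) < ((n + 1 : ℕ) : ℝ) := by positivity
      rw [div_lt_iff₀ (by positivity)]
      have h6 : (1 : ℝ) < δ * n := by
        rw [div_lt_iff₀ hδ] at hn
        linarith
      have h7 : (n : ℝ) ≤ ((n + 1 : ℕ) : ℝ) ^ 2 := by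
        push_cast
        nlinarith [Nat.cast_nonneg (α := ℝ) n]
      nlinarith
    linarith
  set g : Cub ℤ (p : ℤ) → ℤ × ℤ × ℤ × ℤ :=
    fun z => (nrm z, z.a % nrm z, z.b % nrm z, z.c % nrm z) with hg
  have hmaps : Set.MapsTo g V (Set.Icc (-B) B ×ˢ (Set.Icc (-B) B ×ˢ (Set.Icc (-B) B ×ˢ Set.Icc (-B) B))) := by
    intro z hz
    have h0 := nrm_ne_zeroZ hp hz.1
    have h1 := abs_le.mp hz.2
    have hm : ∀ x : ℤ, -B ≤ x % nrm z ∧ x % nrm z ≤ B := by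
      intro x
      have h2 := Int.emod_nonneg x h0
      have h3 := Int.emod_lt_abs x h0
      have h4 := hz.2
      constructor <;> omega
    exact ⟨h1, hm _, hm _, hm _⟩
  obtain ⟨x, hx, y, hy, hne, hxy⟩ := hinf.exists_ne_map_eq_of_mapsTo hmaps
    ((Set.finite_Icc _ _).prod ((Set.finite_Icc _ _).prod ((Set.finite_Icc _ _).prod
      (Set.finite_Icc _ _))))
  simp only [hg, Prod.mk.injEq] at hxy
  obtain ⟨h1, h2, h3, h4⟩ := hxy
  have hn0 := nrm_ne_zeroZ hp hy.1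
  rw [h1] at h2 h3 h4
  have d1 : nrm y ∣ x.a - y.a := Int.ModEq.dvd (Int.ModEq.symm h2)
  have d2 : nrm y ∣ x.b - y.b := Int.ModEq.dvd (Int.ModEq.symm h3)
  have d3 : nrm y ∣ x.c - y.c := Int.ModEq.dvd (Int.ModEq.symm h4)
  obtain ⟨a, ha⟩ := d1
  obtain ⟨b, hb⟩ := d2
  obtain ⟨c, hc⟩ := d3
  have hw : x = y + C (nrm y) * ⟨a, b, c⟩ := by
    rw [C_mul_eq]
    refine Cub.ext ?_ ?_ ?_
    · simp only [add_a]; linarith
    · simp only [add_b]; linarith
    · simp only [add_c]; linarith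
  set w : Cub ℤ (p : ℤ) := ⟨a, b, c⟩ with hwdef
  have hη : C (nrm y) * (1 + w * adj y) = x * adj y := by
    have := mul_adj y
    rw [hw]; linear_combination -this
  refine ⟨1 + w * adj y, ?_, ?_⟩
  · have h5 := congrArg nrm hη
    rw [nrm_mul, nrm_mul, nrm_C, nrm_adj, h1] at h5
    have h6 : nrm y ^ 3 * nrm (1 + w * adj y) = nrm y ^ 3 * 1 := by linear_combination h5
    exact mul_left_cancel₀ (pow_ne_zero 3 hn0) h6
  · intro h5
    rw [h5, mul_one] at hη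
    apply hne
    have h6 : C (nrm y) * x = C (nrm y) * y := by
      have := mul_adj y
      linear_combination (-y) * hη - x * this
    exact C_cancelZ hn0 h6

lemma ev_one : ev t (1 : Cub ℤ (p : ℤ)) = 1 := by simp [ev]

lemma ev_pos (ht : t ^ 3 = p) {z : Cub ℤ (p : ℤ)} (h : nrm z = 1) : 0 < ev t z := by
  have h1 := two_nrm ht z
  rw [h] at h1
  have h2 := qd_nonneg (t := t) z
  by_contra h3
  push Not at h3
  have : ev t z * qd t z ≤ 0 := mul_nonpos_of_nonpos_of_nonneg h3 h2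
  push_cast at h1
  linarith

lemma exists_big (hp : p.Prime) (ht : t ^ 3 = p) (ht0 : 0 < t) :
    ∃ η : Cub ℤ (p : ℤ), nrm η = 1 ∧ 1 < ev t η := by
  obtain ⟨η, h1, h2⟩ := exists_unit_aux hp ht ht0
  have h3 : ev t η ≠ 1 := by
    intro h3
    have h4 : ev t (η - 1) = 0 := by
      have : ev t (η - 1) = ev t η - 1 := by simp only [ev, sub_a, sub_b, sub_c, one_a, one_b, one_c]; push_cast; ring
      rw [this, h3, sub_self]
    exact ev_ne_zero hp ht (sub_ne_zero.mpr h2) h4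
  rcases lt_or_gt_of_ne h3 with h4 | h4
  · refine ⟨adj η, by rw [nrm_adj, h1]; norm_num, ?_⟩
    have h5 : ev t (η * adj η) = 1 := by rw [mul_adj, h1, C_one, ev_one]
    rw [ev_mul ht] at h5
    have h6 := ev_pos ht h1
    by_contra h7
    push Not at h7
    nlinarith
  · exact ⟨η, h1, h4⟩

lemma coeff_nonneg (hp : p.Prime) (ht : t ^ 3 = p) (ht1 : 1 < t) {z : Cub ℤ (p : ℤ)}
    (h : nrm z = 1) (h1 : 1 < ev t z) : 1 ≤ z.a ∧ 0 ≤ z.b ∧ 0 ≤ z.c := by
  have h2 := two_nrm ht z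
  rw [h] at h2
  push_cast at h2
  have hq := qd_nonneg (t := t) z
  have hq2 : qd t z < 2 := by
    by_contra h3
    push Not at h3
    nlinarith
  unfold qd at hq2
  set X : ℝ := (z.a : ℝ) with hX
  set Y : ℝ := (z.b : ℝ) * t with hY
  set Z : ℝ := (z.c : ℝ) * t ^ 2 with hZ
  have e1 : (X - Y) ^ 2 < (3 / 2) ^ 2 := by nlinarith [sq_nonneg (X - Y), sq_nonneg (Y - Z), sq_nonneg (Z - X)]
  have e2 : (Z - X) ^ 2 < (3 / 2) ^ 2 := by nlinarith [sq_nonneg (X - Y), sq_nonneg (Y - Z), sq_nonneg (Z - X)]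
  have f1 := abs_lt_of_sq_lt_sq' e1 (by norm_num)
  have f2 := abs_lt_of_sq_lt_sq' e2 (by norm_num)
  have ht2 : 1 < t ^ 2 := by nlinarith
  have ha0 : z.a ≠ 0 := by
    intro h0
    have hp' : Prime (p : ℤ) := Nat.prime_iff_prime_int.mp hp
    apply hp'.not_dvd_one
    rw [nrm, h0] at h
    exact ⟨z.b ^ 3 + p * z.c ^ 3, by linear_combination -h⟩
  have hbpos : 1 ≤ z.b → 1 < Y := by
    intro h3
    have : (1 : ℝ) ≤ z.b := by exact_mod_cast h3
    rw [hY]; nlinarith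
  have hbneg : z.b ≤ -1 → Y < -1 := by
    intro h3
    have : (z.b : ℝ) ≤ -1 := by exact_mod_cast h3
    rw [hY]; nlinarith
  have hcpos : 1 ≤ z.c → 1 < Z := by
    intro h3
    have : (1 : ℝ) ≤ z.c := by exact_mod_cast h3
    rw [hZ]; nlinarith
  have hcneg : z.c ≤ -1 → Z < -1 := by
    intro h3
    have : (z.c : ℝ) ≤ -1 := by exact_mod_cast h3
    rw [hZ]; nlinarith
  have ha : 1 ≤ z.a := by
    by_contra h3
    have h4 : z.a ≤ -1 := by omega
    have h5 : X ≤ -1 := by rw [hX]; exact_mod_cast h4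
    have h6 : z.b ≤ 0 := by
      by_contra h7
      have := hbpos (by omega)
      linarith [f1.1, f1.2]
    have h7 : z.c ≤ 0 := by
      by_contra h8
      have := hcpos (by omega)
      linarith [f2.1, f2.2]
    have h8 : Y ≤ 0 := by
      have : (z.b : ℝ) ≤ 0 := by exact_mod_cast h6
      rw [hY]; nlinarith
    have h9 : Z ≤ 0 := by
      have : (z.c : ℝ) ≤ 0 := by exact_mod_cast h7
      rw [hZ]; nlinarith
    have h10 : ev t z = X + Y + Z := rfl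
    linarith
  have hXa : 1 ≤ X := by rw [hX]; exact_mod_cast ha
  refine ⟨ha, ?_, ?_⟩
  · by_contra h3
    have := hbneg (by omega)
    linarith [f1.1, f1.2]
  · by_contra h3
    have := hcneg (by omega)
    linarith [f2.1, f2.2]

end

theorem exists_unit {p : ℕ} (hp : p.Prime) :
    ∃ ε : Cub ℤ (p : ℤ), nrm ε = 1 ∧ ∀ z : Cub ℤ (p : ℤ), z ^ 3 ≠ ε := by
  classical
  have hp1 : (1 : ℝ) < p := by exact_mod_cast hp.one_lt
  obtain ⟨t, ht0, ht⟩ : ∃ t : ℝ, 0 < t ∧ t ^ 3 = p := by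
    refine ⟨(p : ℝ) ^ ((1 : ℝ) / 3), by positivity, ?_⟩
    rw [← Real.rpow_natCast, ← Real.rpow_mul (by positivity)]
    norm_num
  have ht1 : 1 < t := by
    by_contra h
    push Not at h
    have : t ^ 3 ≤ 1 := pow_le_one₀ ht0.le h
    linarith
  have hex : ∃ n : ℕ, ∃ η : Cub ℤ (p : ℤ), nrm η = 1 ∧ 1 < ev t η ∧ η.a.toNat = n := by
    obtain ⟨η, h1, h2⟩ := exists_big hp ht ht0
    exact ⟨_, η, h1, h2, rfl⟩
  obtain ⟨η, h1, h2, h3⟩ := Nat.find_spec hex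
  refine ⟨η, h1, ?_⟩
  intro z hz
  have h4 : nrm z = 1 := by
    have h5 := congrArg nrm hz
    rw [nrm_pow, h1] at h5
    exact (Odd.strictMono_pow (by decide : Odd 3)).injective (by simpa using h5)
  have h5 : 1 < ev t z := by
    have h6 : ev t η = ev t z ^ 3 := by
      rw [← hz]
      have : z ^ 3 = z * (z * z) := by ring
      rw [this, ev_mul ht, ev_mul ht]; ring
    by_contra h7
    push Not at h7
    have h8 := ev_pos ht h4
    have : ev t z ^ 3 ≤ 1 := pow_le_one₀ h8.le h7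
    linarith
  obtain ⟨ha, hb, hc⟩ := coeff_nonneg hp ht ht1 h4 h5
  have h6 : η.a = z.a ^ 3 + p * z.b ^ 3 + p ^ 2 * z.c ^ 3 + 6 * p * z.a * z.b * z.c := by
    rw [← hz]
    have : z ^ 3 = z * (z * z) := by ring
    rw [this]
    simp only [mul_a, mul_b, mul_c]; ring
  have h7 : Nat.find hex ≤ z.a.toNat := Nat.find_min' hex ⟨z, h4, h5, rfl⟩
  rw [← h3] at h7
  have hp0 : (0 : ℤ) < p := by exact_mod_cast hp.pos
  have hb3 : 0 ≤ p * z.b ^ 3 := by positivity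
  have hc3 : 0 ≤ (p : ℤ) ^ 2 * z.c ^ 3 := by positivity
  have habc : 0 ≤ 6 * p * z.a * z.b * z.c := by positivity
  have h8 : z.a ≤ z.a ^ 3 := by
    nlinarith [mul_nonneg (mul_nonneg (by linarith : 0 ≤ z.a) (by linarith : 0 ≤ z.a - 1))
      (by linarith : 0 ≤ z.a + 1)]
  have h9 : η.a ≤ z.a := by
    have : 0 ≤ η.a := by rw [h6]; nlinarith
    omega
  have hb0 : z.b = 0 := by
    have : p * z.b ^ 3 = 0 := by linarith
    rcases mul_eq_zero.mp this with h10 | h10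
    · omega
    · exact pow_eq_zero_iff (by norm_num) |>.mp h10
  have hc0 : z.c = 0 := by
    have : (p : ℤ) ^ 2 * z.c ^ 3 = 0 := by linarith
    rcases mul_eq_zero.mp this with h10 | h10
    · have := pow_pos hp0 2; omega
    · exact pow_eq_zero_iff (by norm_num) |>.mp h10
  have ha1 : z.a = 1 := by
    have h10 : z.a * ((z.a - 1) * (z.a + 1)) = 0 := by
      have : z.a ^ 3 = z.a := by linarith
      linear_combination this
    rcases mul_eq_zero.mp h10 with h11 | h11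
    · omega
    · rcases mul_eq_zero.mp h11 with h12 | h12 <;> omega
  have : ev t z = 1 := by simp [ev, ha1, hb0, hc0]
  linarith

end Cub

end Pool.Agent.LibEis
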