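import Pool.Agent.LibEis.Choice
import Pool.Agent.LibEis.PellUnit

/-! The exceptional case is impossible when 3 is a cube modulo `p`. -/

namespace Pool.Agent.LibEis

open scoped QuadraticAlgebra

open Cub

section

variable {p : ℕ} {q : E}

/-- the linear element attached to `α` -/
lemma Dat.exists_A (h : Dat p q) {ε : Cub ℤ (p : ℤ)} {α : Cub E (p : E)}
    (hs : sig α = iota ε * α) (hB : CB q α) :
    ∃ (A : Cub E (p : E)) (m : E), m ≠ 0 ∧ A.c = 0 ∧ A.b ≠ 0 ∧ ¬ q ∣ A.a ∧ star q ∣ A.a ∧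
      (∃ r s : E, r * A.a + s * A.b = 1) ∧ C m * (th * A) = (iota ε - 1) * α := by
  have hv0 : α.b ≠ 0 := ne_zero_of_not_dvd hB.qb
  set z : Cub E (p : E) := ⟨α.b, -om ^ 2 * α.c, 0⟩ with hz
  have hz0 : z ≠ 0 := fun h0 => hv0 (congrArg Cub.a h0)
  obtain ⟨d, A, hd, hzA, r, s, t, hrst⟩ := exists_prm hz0
  have ea : α.b = d * A.a := by
    have := congrArg Cub.a hzA; rwa [C_mul_a] at this
  have eb : -om ^ 2 * α.c = d * A.b := by
    have := congrArg Cub.b hzA; rwa [C_mul_b] at this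
  have ec : d * A.c = 0 := by
    have := congrArg Cub.c hzA; rw [C_mul_c] at this; exact this.symm
  have hAc : A.c = 0 := (mul_eq_zero.mp ec).resolve_left hd
  have hom0 : om ≠ 0 := isUnit_om.ne_zero
  have hc0 : α.c ≠ 0 := ne_zero_of_not_dvd hB.sc
  have hAb : A.b ≠ 0 := by
    intro h0
    rw [h0, mul_zero] at eb
    rcases mul_eq_zero.mp eb with h1 | h1
    · exact pow_ne_zero 2 hom0 (neg_eq_zero.mp h1)
    · exact hc0 h1
  refine ⟨A, (om - 1) * d, mul_ne_zero om_sub_one_ne hd, hAc, hAb, ?_, ?_, ⟨r, s, ?_⟩, ?_⟩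
  · intro h1
    apply hB.qb; rw [ea]; exact h1.mul_left d
  · have h1 := hB.sb
    rw [ea] at h1
    rcases h.hq.star.prime.dvd_or_dvd h1 with h2 | h2
    · exfalso
      have h3 : star q ∣ -om ^ 2 * α.c := by rw [eb]; exact h2.mul_right _
      rcases h.hq.star.prime.dvd_or_dvd h3 with h4 | h4
      · rw [dvd_neg] at h4
        exact h.hq.star.prime.not_isUnit (isUnit_of_dvd_unit h4 (isUnit_om.pow 2))
      · exact hB.sc h4
    · exact h2
  · rw [hAc, mul_zero, add_zero] at hrst; exact hrst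
  · have h1 : (iota ε - 1) * α = sig α - α := by rw [hs]; ring
    rw [h1, C_mul_eq]
    have h3 := om_cube
    refine Cub.ext ?_ ?_ ?_
    · simp only [sub_a, sig_a, mul_a, th, hAc]; ring
    · simp only [sub_b, sig_b, mul_b, th, hAc]
      linear_combination (-(om - 1)) * ea
    · simp only [sub_c, sig_c, mul_c, th, hAc]
      linear_combination (-(om - 1)) * eb - α.c * h3

lemma not_dvd_eps {p : ℕ} (hp : Prime (p : ℤ)) {ε : Cub ℤ (p : ℤ)} (hε : nrm ε = 1) :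
    ¬ (p : ℤ) ∣ ε.a := by
  rintro ⟨k, hk⟩
  apply hp.not_dvd_one
  rw [nrm, hk] at hε
  exact ⟨p ^ 2 * k ^ 3 + ε.b ^ 3 + p * ε.c ^ 3 - 3 * p * k * ε.b * ε.c, by linear_combination -hε⟩

theorem Dat.case_b (h : Dat p q) (h3 : c q 3 = 0) {ε : Cub ℤ (p : ℤ)} (hε : nrm ε = 1)
    (hε1 : ε ≠ 1) {α : Cub E (p : E)} (hα : Prm α) (hs : sig α = iota ε * α) (hB : CB q α) :
    False := by
  have hp' : Prime (p : ℤ) := Nat.prime_iff_prime_int.mp h.pp
  have h5 : 5 ≤ p := by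
    have h1 := h.hmod
    have h2 := h.pp.two_le
    by_contra h4
    have : p = 4 := by omega
    have h6 := h.pp
    rw [this] at h6
    exact absurd h6 (by norm_num)
  obtain ⟨u, hu⟩ : ∃ u : ℤ, (p : ℤ) = 1 + 3 * u := ⟨((p : ℤ) - 1) / 3, by have := h.hmod; omega⟩
  have hu3 : ¬ (3 : ℤ) ∣ u := by have := h.hmod; omega
  obtain ⟨κ, hκ, _, hn⟩ := hB.n
  obtain ⟨A, m, hm, hAc, hAb, hAq, hAs, ⟨ra, sa, hrs⟩, hA⟩ := h.exists_A hs hB
  have hε' : nrm (iota ε) = 1 := by rw [nrm_iota, hε]; norm_num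
  -- 3-adic part
  obtain ⟨i, x, y, z, hi⟩ := ta1 hu hu3 hε
  have hx : (3 : ℤ) ∣ x := by
    have h1 := congrArg nrm hi
    rw [nrm_mul, hε, nrm_pow, nrm_ta hu] at h1
    refine ta2 (c := u ^ i) (x := x) (y := y) (z := z) (P := p) (not3_pow hu3 i) ?_
    have e : (u ^ 3) ^ i = (u ^ i) ^ 3 := by rw [← pow_mul, ← pow_mul, mul_comm]
    rw [one_mul, e] at h1
    simp only [nrm] at h1
    exact h1.symm
  have hzy := h.ta3 h3 hu hu3 hε hα hs hκ hn hi
  have s0 := st0 hp' hu ε i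
  rw [hi] at s0
  obtain ⟨β0, n0, s1, hn0, ha0, hb0, hc0⟩ := st1 hp' h5 hu s0 (n := u ^ i) (y := y)
    (not3_pow hu3 i) (by simp only; omega) (by simp only; omega) (by simp only; omega)
  have hab : ¬ (lam ∣ A.a ∧ lam ∣ A.b) := by
    rintro ⟨h1, h2⟩
    apply prime_lam.not_dvd_one
    rw [← hrs]
    exact dvd_add (h1.mul_left _) (h2.mul_left _)
  obtain ⟨β, n, B1, B2, ⟨r, hr, hra⟩, hn3, ha, hb, hc, hB2, hlam⟩ :=
    st2 hp' h5 hu s1 hn0 ha0 hb0 hc0 hab
  -- the linear element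
  have hB20 : B2 ≠ 0 := by rintro rfl; exact hB2 (dvd_zero _)
  have hgcd : 0 < Int.gcd B1 B2 := Int.gcd_pos_of_ne_zero_right _ hB20
  obtain ⟨g, B1', B2', hg, hcop, e1, e2⟩ := Int.exists_gcd_one' hgcd
  have hcop' : IsCoprime B1' B2' := Int.isCoprime_iff_gcd_eq_one.mpr hcop
  set X0 : Cub ℤ (p : ℤ) := ⟨B1', -B2', 0⟩ with hX0
  set Y0 : Cub ℤ (p : ℤ) := β * X0 with hY0
  have hY0c : Y0.c = 0 := by
    rw [hY0, mul_c, hb, hc, hX0, e1, e2]; ring
  have hY0a : (9 : ℤ) ∣ Y0.a - n * B1' := by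
    obtain ⟨k, hk⟩ := ha
    refine ⟨k * B1' - p * B2 * B2', ?_⟩
    rw [hY0, mul_a, hb, hc, hX0]
    linear_combination B1' * hk
  have hY0b : (9 : ℤ) ∣ Y0.b - n * (-B2') := by
    obtain ⟨k, hk⟩ := ha
    refine ⟨-k * B2' + B1 * B1', ?_⟩
    rw [hY0, mul_b, hb, hc, hX0]
    linear_combination (-B2') * hk
  set X2 : Cub E (p : E) := iota X0 with hX2
  set Y : Cub E (p : E) := iota Y0 with hY
  set X1 : Cub E (p : E) := iota ε * iota r ^ 3 * X2 with hX1
  have hXY : X1 = C (3 ^ i) * Y := by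
    rw [hX1, hX2, hY, hY0, ← map_pow, ← map_mul, ← map_mul, hr, map_mul, map_mul, map_mul, iota_C]
    push_cast; ring
  have hX2c : X2.c = 0 := by rw [hX2, iota_c, hX0]; simp
  have hYc : Y.c = 0 := by rw [hY, iota_c, hY0c]; simp
  have hX1c : X1.c = 0 := by rw [hXY, C_mul_c, hYc, mul_zero]
  have eX2a : X2.a = (B1' : E) := by rw [hX2, iota_a]
  have eX2b : X2.b = -(B2' : E) := by rw [hX2, iota_b, hX0]; simp
  have hYa9 : (9 : E) ∣ Y.a - n * X2.a := by
    obtain ⟨k, hk⟩ := hY0a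
    rw [hY, iota_a, eX2a]
    exact ⟨k, by exact_mod_cast congrArg (Int.cast (R := E)) hk⟩
  have hYb9 : (9 : E) ∣ Y.b - n * X2.b := by
    obtain ⟨k, hk⟩ := hY0b
    rw [hY, iota_b, eX2b]
    exact ⟨k, by exact_mod_cast congrArg (Int.cast (R := E)) hk⟩
  have hB2' : ¬ (3 : ℤ) ∣ B2' := fun h' => hB2 (by rw [e2]; exact h'.mul_right _)
  have lb : ¬ lam ∣ X2.b := by rw [eX2b, dvd_neg, lam_dvd_int]; exact hB2'
  have ld : ¬ lam ∣ dl X2 A := by
    intro h'
    apply hlam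
    have e : A.b * (B1 : E) + A.a * (B2 : E) = (g : E) * dl X2 A := by
      rw [dl, eX2a, eX2b, e1, e2]; push_cast; ring
    rw [e]; exact h'.mul_left _
  have ne0 : ∀ x : E, ¬ lam ∣ x → x ≠ 0 := fun x hx h0 => hx (h0 ▸ dvd_zero _)
  have h9 : lam ∣ (9 : E) := by
    have : (9 : E) = 3 * 3 := by norm_num
    rw [this]; exact lam_dvd_three.mul_right _
  have hln : ¬ lam ∣ (n : E) := fun h' => hn3 (lam_dvd_int.mp h')
  have hYbl : ¬ lam ∣ Y.b := by
    intro h'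
    have h1 : lam ∣ (n : E) * X2.b := by
      have := dvd_sub h' (h9.trans hYb9); simpa using this
    exact (prime_lam.dvd_or_dvd h1).elim hln lb
  have hYdl : ¬ lam ∣ dl Y A := by
    intro h'
    have hd9 : (9 : E) ∣ dl Y A - n * dl X2 A := by
      obtain ⟨k, hk⟩ := hYa9
      obtain ⟨l, hl⟩ := hYb9
      exact ⟨A.b * k - A.a * l, by rw [dl, dl]; linear_combination A.b * hk - A.a * hl⟩
    have h1 : lam ∣ (n : E) * dl X2 A := by
      have := dvd_sub h' (h9.trans hd9); simpa using this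
    exact (prime_lam.dvd_or_dvd h1).elim hln ld
  have h30 : (3 : E) ^ i ≠ 0 := pow_ne_zero _ three_ne_zero'
  have hb1 : X1.b ≠ 0 := by rw [hXY, C_mul_b]; exact mul_ne_zero h30 (ne0 _ hYbl)
  have hd1 : dl X1 A ≠ 0 := by
    have : dl X1 A = 3 ^ i * dl Y A := by rw [dl, dl, hXY, C_mul_a, C_mul_b]; ring
    rw [this]; exact mul_ne_zero h30 (ne0 _ hYdl)
  have hX20 : X2 ≠ 0 := fun h0 => (ne0 _ lb) (by rw [h0]; rfl)
  have hA0 : A ≠ 0 := fun h0 => hAb (by rw [h0]; rfl)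
  have n2 := h.nrm_ne hX20
  have nA := h.nrm_ne hA0
  have hr0 : iota r ≠ (0 : Cub E (p : E)) := by
    intro h0
    apply hra
    have h1 := congrArg Cub.a h0
    rw [iota_a, zero_a] at h1
    have h2 : r.a = 0 := by exact_mod_cast h1
    rw [h2]; exact dvd_zero _
  have n1 : nrm X1 ≠ 0 := by
    rw [hX1, nrm_mul, nrm_mul, nrm_pow, hε', one_mul]
    exact mul_ne_zero (pow_ne_zero 3 (h.nrm_ne hr0)) n2
  -- coprimality
  have p2 : ∀ w, PP w → ¬ (w ∣ X2.a ∧ w ∣ X2.b) := by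
    rintro w hw ⟨h1, h2⟩
    obtain ⟨a', b', hab'⟩ := hcop'
    apply hw.prime.not_dvd_one
    have e : (1 : E) = (a' : E) * X2.a - (b' : E) * X2.b := by
      rw [eX2a, eX2b]
      have := congrArg (Int.cast (R := E)) hab'
      push_cast at this
      linear_combination -this
    rw [e]
    exact dvd_sub (h1.mul_left _) (h2.mul_left _)
  have pA : ∀ w, PP w → ¬ (w ∣ A.a ∧ w ∣ A.b) := by
    rintro w hw ⟨h1, h2⟩
    apply hw.prime.not_dvd_one
    rw [← hrs]
    exact dvd_add (h1.mul_left _) (h2.mul_left _)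
  -- rho
  have er : (iota ε * iota r ^ 3 : Cub E (p : E)) = iota (ε * r ^ 3) := by rw [map_mul, map_pow]
  have hρ : ¬ (p : ℤ) ∣ (ε * r ^ 3).a := by
    apply not_dvd_mul_a hp' (not_dvd_eps hp' hε)
    have e : r ^ 3 = r * (r * r) := by ring
    rw [e]
    exact not_dvd_mul_a hp' hra (not_dvd_mul_a hp' hra hra)
  have hρq : ¬ q ∣ (iota ε * iota r ^ 3 : Cub E (p : E)).a := by
    rw [er, iota_a]; exact fun h' => hρ (h.int_dvd h')
  have hρs : ¬ star q ∣ (iota ε * iota r ^ 3 : Cub E (p : E)).a := by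
    rw [er, iota_a]; exact fun h' => hρ (h.symm.int_dvd h')
  have hglob := h.global_sum hX1 hX1c hX2c hAc n1 n2 nA hb1 (ne0 _ lb) hAb hd1 (ne0 _ ld) hε' hA
    (h.dvd_p_of_dvd_nrm hα hs) p2 pA hAq hAs hρq hρs
  -- symbols with integers
  have hn0' : n ≠ 0 := by rintro rfl; exact hn3 (dvd_zero _)
  have hS3 : S (nrm A) ((3 : ℤ) : E) = 0 := by
    rw [h.S_nrm_A hm hε1 nA hA hκ hn (by norm_num)]
    exact h.S_star_three h3
  have hSn : S (nrm A) (n : E) = 0 := by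
    rw [h.S_nrm_A hm hε1 nA hA hκ hn hn0']
    exact S_star_int h.hq hn3
  have hTS := TS_congr hX1 hε' hXY hYa9 hYb9 n1 n2 nA hn3 lb ld hS3 hSn
  rw [hTS] at hglob
  have hc0 : c (star q) (iota ε * iota r ^ 3 : Cub E (p : E)).a = 0 := by
    linear_combination -hglob
  -- but this is not zero
  have hsq := h.hq.star
  have hεs : star q ∣ (ε.a : E) - om ^ 2 := by
    have h1 := congrArg Cub.c hs
    rw [sig_c, mul_c, iota_a, iota_b, iota_c] at h1
    have h2 : star q ∣ ((ε.a : E) - om ^ 2) * α.c := by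
      have e : ((ε.a : E) - om ^ 2) * α.c = -((ε.b : E) * α.b + (ε.c : E) * α.a) := by
        linear_combination -h1
      rw [e, dvd_neg]
      exact dvd_add (hB.sb.mul_left _) (hB.sa.mul_left _)
    exact (hsq.prime.dvd_or_dvd h2).resolve_right hB.sc
  have hom2 : ¬ star q ∣ om ^ 2 := fun h' =>
    hsq.prime.not_isUnit (isUnit_of_dvd_unit h' (isUnit_om.pow 2))
  have hra' : ¬ star q ∣ (r.a : E) := fun h' => hra (h.symm.int_dvd h')
  have h6 : ¬ star q ∣ om ^ 2 * (r.a : E) ^ 3 := fun h' => by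
    rcases hsq.prime.dvd_or_dvd h' with h1 | h1
    · exact hom2 h1
    · exact hra' (hsq.prime.dvd_of_dvd_pow h1)
  have h7 : star q ∣ om ^ 2 * (r.a : E) ^ 3 - (iota ε * iota r ^ 3 : Cub E (p : E)).a := by
    obtain ⟨k, hk⟩ := hεs
    obtain ⟨e, he⟩ := h.symm.q_dvd_p
    have e3 : (iota r ^ 3 : Cub E (p : E)) = iota r * (iota r * iota r) := by ring
    rw [e3]
    simp only [mul_a, mul_b, mul_c, iota_a, iota_b, iota_c]
    refine ⟨-k * (r.a : E) ^ 3 - e * ((ε.a : E) * ((r.a : E) * ((r.b : E) * r.c + r.c * r.b)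
        + (r.b * (r.a * r.c + r.b * r.b + r.c * r.a)
        + r.c * (r.a * r.b + r.b * r.a + p * (r.c * r.c))))
        + (ε.b : E) * (r.a * (r.a * r.c + r.b * r.b + r.c * r.a) + r.b * (r.a * r.b + r.b * r.a + p * (r.c * r.c))
          + r.c * (r.a * r.a + p * (r.b * r.c + r.c * r.b)))
        + (ε.c : E) * (r.a * (r.a * r.b + r.b * r.a + p * (r.c * r.c))
          + r.b * (r.a * r.a + p * (r.b * r.c + r.c * r.b))
          + p * (r.c * (r.a * r.c + r.b * r.b + r.c * r.a)))), ?_⟩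
    linear_combination (-(r.a : E) ^ 3) * hk
      - ((ε.a : E) * ((r.a : E) * ((r.b : E) * r.c + r.c * r.b)
        + (r.b * (r.a * r.c + r.b * r.b + r.c * r.a)
        + r.c * (r.a * r.b + r.b * r.a + p * (r.c * r.c))))
        + (ε.b : E) * (r.a * (r.a * r.c + r.b * r.b + r.c * r.a) + r.b * (r.a * r.b + r.b * r.a + p * (r.c * r.c))
          + r.c * (r.a * r.a + p * (r.b * r.c + r.c * r.b)))
        + (ε.c : E) * (r.a * (r.a * r.b + r.b * r.a + p * (r.c * r.c))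
          + r.b * (r.a * r.a + p * (r.b * r.c + r.c * r.b))
          + p * (r.c * (r.a * r.c + r.b * r.b + r.c * r.a)))) * he
  have h8 := (c_of_congr hsq h6 h7).2
  rw [hc0, c_mul hsq (pow_ne_zero 2 isUnit_om.ne_zero) (pow_ne_zero 3 (ne_zero_of_not_dvd hra')),
    c_cube hsq (ne_zero_of_not_dvd hra'), add_zero, (vc_pow hsq isUnit_om.ne_zero 2).2] at h8
  have h9' := h.symm.c_om_ne
  revert h8 h9'
  generalize c (star q) om = t
  revert t; decide

end

/-- the main theorem, in terms of `ℤ[θ]` -/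
theorem exists_norm_three {p : ℕ} (hp : p.Prime) (hmod : p % 9 = 4 ∨ p % 9 = 7) {w : ℤ}
    (hw : (p : ℤ) ∣ w ^ 3 - 3) : ∃ z : Cub ℤ (p : ℤ), nrm z = 3 := by
  obtain ⟨q, h⟩ := exists_dat hp hmod
  have h3 : c q 3 = 0 := by
    have h1 : q ∣ (3 : E) - (w : E) ^ 3 := by
      have h2 := h.dvd_int hw
      have e : (3 : E) - (w : E) ^ 3 = -(((w ^ 3 - 3 : ℤ)) : E) := by push_cast; ring
      rw [e, dvd_neg]; exact h2
    obtain ⟨h2, h4⟩ := c_of_congr h.hq h.hq.not_dvd_three h1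
    have hw0 : (w : E) ≠ 0 := by rintro h0; rw [h0] at h2; exact h2 (by simp)
    rw [h4, c_cube h.hq hw0]
  obtain ⟨ε, hε, hcub⟩ := exists_unit hp
  have hε1 : ε ≠ 1 := by rintro rfl; exact hcub 1 (one_pow 3)
  have hε' : nrm (iota ε) = (1 : E) ^ 3 := by rw [nrm_iota, hε]; norm_num
  have hspec := hil_spec hε'
  rw [C_one, one_mul] at hspec
  have hh0 : hil (1 : E) (iota ε) ≠ 0 := by
    intro h0
    have h1 := congrArg Cub.c h0
    simp only [hil, iota_a, iota_b, iota_c, zero_c] at h1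
    have h2 := congrArg QuadraticAlgebra.im h1
    have h4 := congrArg QuadraticAlgebra.re h1
    simp [om, pow_two] at h2 h4
    have hc : ε.c = 0 := by simpa using h2
    have hb : ε.b = 0 := by
      rw [hc] at h4
      simpa using h4
    apply hε1
    have hN := hε
    rw [nrm, hb, hc] at hN
    have ha : ε.a ^ 3 = 1 ^ 3 := by linear_combination hN
    have ha' := (Odd.strictMono_pow (by decide : Odd 3)).injective ha
    exact Cub.ext ha' hb hc
  obtain ⟨g, α, hg, hgα, hα⟩ := exists_prm hh0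
  have hs : sig α = iota ε * α := by
    rw [hgα, map_mul, sig_C] at hspec
    apply C_cancel hg
    rw [hspec]; ring
  rcases h.cases (tau_iota ε) (by rw [nrm_iota, hε]; norm_num) hα hs with ⟨κ, hκ, hn⟩ | hB | hB
  · exact case_a h hε hcub hs hκ hn
  · exact (h.case_b h3 hε hε1 hα hs hB).elim
  · have h3' : c (star q) 3 = 0 := by rw [c_star_three h.hq, h3, neg_zero]
    exact (h.symm.case_b h3' hε hε1 hα hs hB).elim

end Pool.Agent.LibEis
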