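import Pool.Agent.LibEis.Units

/-! Residue fields of `ℤ[ω]` and the cubic residue character (in logarithmic form). -/

namespace Pool.Agent.LibEis

open scoped QuadraticAlgebra

lemma norm_eq (z : E) : Algebra.norm ℤ z = nm z := by
  rw [Algebra.norm_apply]
  have := QuadraticAlgebra.det_toLinearMap_eq_norm z
  have h2 : z.norm = nm z := by
    rw [QuadraticAlgebra.norm_def, nm]; ring
  rw [← h2, ← this]
  congr 1

/-- The absolute norm. -/
def N (q : E) : ℕ := (nm q).natAbs

/-- The residue ring. -/
abbrev Fq (q : E) : Type := E ⧸ Ideal.span ({q} : Set E)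

/-- reduction map -/
abbrev red (q : E) : E →+* Fq q := Ideal.Quotient.mk (Ideal.span ({q} : Set E))

lemma red_eq_zero {q x : E} : red q x = 0 ↔ q ∣ x := by
  rw [Ideal.Quotient.eq_zero_iff_mem, Ideal.mem_span_singleton]

lemma red_eq_iff {q x y : E} : red q x = red q y ↔ q ∣ x - y := by
  rw [← sub_eq_zero, ← map_sub, red_eq_zero]

lemma card_Fq (q : E) : Nat.card (Fq q) = N q := by
  have := Ideal.absNorm_span_singleton q
  rw [norm_eq, Ideal.absNorm_apply, Submodule.cardQuot_apply] at this
  exact this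

lemma N_mul (a b : E) : N (a * b) = N a * N b := by
  rw [N, nm_mul, Int.natAbs_mul]; rfl

lemma N_pos {q : E} (h : q ≠ 0) : 0 < N q := by
  have := nm_pos h; unfold N; omega

/-- primary primes -/
structure PP (q : E) : Prop where
  prime : Prime q
  prim : Prim q

lemma PP.not_lam {q : E} (h : PP q) : ¬ lam ∣ q := h.prim.not_lam

lemma PP.not_dvd_lam {q : E} (h : PP q) : ¬ q ∣ lam := by
  intro h'
  exact h.not_lam ((h.prime.associated_of_dvd prime_lam h').symm.dvd)

lemma PP.not_dvd_three {q : E} (h : PP q) : ¬ q ∣ 3 := by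
  rw [three_eq]
  intro h'
  rcases h.prime.dvd_or_dvd h' with h1 | h1
  · rw [dvd_neg] at h1
    exact h.prime.not_isUnit (isUnit_of_dvd_unit h1 (isUnit_om.pow 2))
  · exact h.not_dvd_lam (h.prime.dvd_of_dvd_pow h1)

lemma isMaximal_of_prime {q : E} (h : Prime q) : (Ideal.span ({q} : Set E)).IsMaximal := by
  exact PrincipalIdealRing.isMaximal_of_irreducible h.irreducible

lemma finite_Fq {q : E} (h : q ≠ 0) : Finite (Fq q) := by
  apply Nat.finite_of_card_ne_zero
  rw [card_Fq]
  exact (N_pos h).ne'

section field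

variable {q : E}

/-- field structure -/
noncomputable abbrev fieldFq (h : PP q) : Field (Fq q) :=
  @Ideal.Quotient.field _ _ _ (isMaximal_of_prime h.prime)

lemma red_om_ne_one (h : PP q) : red q om ≠ 1 := by
  intro h1
  have : red q om = red q 1 := by rw [h1, map_one]
  rw [red_eq_iff] at this
  apply h.not_dvd_lam
  rw [lam_eq]
  have h2 : (1 : E) - om = -(om - 1) := by ring
  rw [h2]; exact (dvd_neg).mpr this

lemma red_om_cube : (red q om) ^ 3 = 1 := by
  rw [← map_pow, om_cube, map_one]

lemma red_isUnit (h : PP q) {x : E} (hx : ¬ q ∣ x) : IsUnit (red q x) := by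
  let := fieldFq h
  exact isUnit_iff_ne_zero.mpr (fun h' => hx (red_eq_zero.mp h'))

lemma three_dvd_card (h : PP q) : 3 ∣ N q - 1 := by
  let := fieldFq h
  have := finite_Fq h.prime.ne_zero
  let := Fintype.ofFinite (Fq q)
  have hc : Fintype.card (Fq q) = N q := by rw [← Nat.card_eq_fintype_card, card_Fq]
  have hne : red q om ≠ 0 := by
    intro h0
    exact h.prime.not_isUnit (isUnit_of_dvd_unit (red_eq_zero.mp h0) isUnit_om)
  have h1 : orderOf (red q om) = 3 := by
    have : Fact (Nat.Prime 3) := ⟨by norm_num⟩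
    exact orderOf_eq_prime red_om_cube (red_om_ne_one h)
  rw [← h1, orderOf_dvd_iff_pow_eq_one, ← hc]
  exact FiniteField.pow_card_sub_one_eq_one _ hne

/-- exponent `(N q - 1)/3` -/
def ex (q : E) : ℕ := (N q - 1) / 3

lemma ex_mul (h : PP q) : ex q * 3 = N q - 1 := Nat.div_mul_cancel (three_dvd_card h)

lemma N_eq (h : PP q) : N q = 3 * ex q + 1 := by
  have := ex_mul h; have := N_pos h.prime.ne_zero; omega

lemma pow_ex_cube (h : PP q) {a : Fq q} (ha : a ≠ 0) : (a ^ ex q) ^ 3 = 1 := by
  let := fieldFq h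
  have := finite_Fq h.prime.ne_zero
  let := Fintype.ofFinite (Fq q)
  have hc : Fintype.card (Fq q) = N q := by rw [← Nat.card_eq_fintype_card, card_Fq]
  rw [← pow_mul, ex_mul h, ← hc]
  exact FiniteField.pow_card_sub_one_eq_one _ ha

lemma cube_root_cases (h : PP q) {b : Fq q} (hb : b ^ 3 = 1) :
    b = 1 ∨ b = red q om ∨ b = red q om ^ 2 := by
  let := fieldFq h
  have h1 : (b - 1) * ((b - red q om) * (b - red q om ^ 2)) = 0 := by
    have hrel : 1 + red q om + red q om ^ 2 = 0 := by
      have := congrArg (red q) om_rel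
      simpa using this
    have hc : red q om ^ 3 = 1 := red_om_cube
    linear_combination hb - (b - 1) * b * hrel + (b - 1) * hc
  rcases mul_eq_zero.mp h1 with h2 | h2
  · left; exact sub_eq_zero.mp h2
  · rcases mul_eq_zero.mp h2 with h3 | h3
    · right; left; exact sub_eq_zero.mp h3
    · right; right; exact sub_eq_zero.mp h3

end field

end Pool.Agent.LibEis
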