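import Pool.Agent.LibEis.ThreeAdic

/-! Choice of the auxiliary cube. -/

namespace Pool.Agent.LibEis

open scoped QuadraticAlgebra

open Cub

section

variable {p : ℕ} {u : ℤ}

lemma not_dvd_mul_a (hp : Prime (p : ℤ)) {r r' : Cub ℤ (p : ℤ)} (h : ¬ (p : ℤ) ∣ r.a)
    (h' : ¬ (p : ℤ) ∣ r'.a) : ¬ (p : ℤ) ∣ (r * r').a := by
  rw [mul_a, dvd_add_left (dvd_mul_right _ _)]
  intro h1
  exact (hp.dvd_or_dvd h1).elim h h'

/-- state of the construction -/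
def St (ε : Cub ℤ (p : ℤ)) (i : ℕ) (β : Cub ℤ (p : ℤ)) : Prop :=
  ∃ r : Cub ℤ (p : ℤ), ε * r ^ 3 = C (3 ^ i) * β ∧ ¬ (p : ℤ) ∣ r.a

lemma St.mul (hp : Prime (p : ℤ)) {ε β : Cub ℤ (p : ℤ)} {i : ℕ} (h : St ε i β)
    {r' : Cub ℤ (p : ℤ)} (h' : ¬ (p : ℤ) ∣ r'.a) : St ε i (β * r' ^ 3) := by
  obtain ⟨r, h1, h2⟩ := h
  refine ⟨r * r', ?_, not_dvd_mul_a hp h2 h'⟩
  rw [mul_pow, ← mul_assoc, h1]; ring

lemma st0 (hp : Prime (p : ℤ)) (hu : (p : ℤ) = 1 + 3 * u) (ε : Cub ℤ (p : ℤ)) (i : ℕ) :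
    St ε i (ε * ta p u ^ i) := by
  set t : Cub ℤ (p : ℤ) := ⟨-1, 1, 0⟩ with ht
  have h1 : t ^ 3 = C 3 * ta p u := by
    have e : t ^ 3 = t * (t * t) := by ring
    rw [e, C_mul_eq]
    refine Cub.ext ?_ ?_ ?_
    · simp only [ht, ta, mul_a, mul_b, mul_c]; linear_combination hu
    · simp only [ht, ta, mul_a, mul_b, mul_c]; ring
    · simp only [ht, ta, mul_a, mul_b, mul_c]; ring
  refine ⟨t ^ i, ?_, ?_⟩
  · have : (t ^ i) ^ 3 = C (3 ^ i) * ta p u ^ i := by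
      rw [← pow_mul, mul_comm i 3, pow_mul, h1, mul_pow, C_pow]
    rw [this]; ring
  · induction i with
    | zero =>
      rw [pow_zero, one_a]
      exact hp.not_dvd_one
    | succ i ih =>
      rw [pow_succ]
      apply not_dvd_mul_a hp ih
      simp only [ht]
      rw [dvd_neg]; exact hp.not_dvd_one

/-- first normalisation -/
lemma st1 (hp : Prime (p : ℤ)) (h5 : 5 ≤ p) (hu : (p : ℤ) = 1 + 3 * u) {ε : Cub ℤ (p : ℤ)} {i : ℕ}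
    {β : Cub ℤ (p : ℤ)} (h : St ε i β) {n y : ℤ} (hn : ¬ (3 : ℤ) ∣ n) (ha : (9 : ℤ) ∣ β.a - n)
    (hb : (9 : ℤ) ∣ β.b - 3 * y) (hc : (9 : ℤ) ∣ β.c - 3 * y) :
    ∃ (β' : Cub ℤ (p : ℤ)) (n' : ℤ), St ε i β' ∧ ¬ (3 : ℤ) ∣ n' ∧ (9 : ℤ) ∣ β'.a - n' ∧
      (9 : ℤ) ∣ β'.b ∧ (9 : ℤ) ∣ β'.c := by
  set r2 : Cub ℤ (p : ℤ) := ⟨2, -1, 0⟩ with hr2
  have hr2a : ¬ (p : ℤ) ∣ r2.a := by
    simp only [hr2]
    intro h'
    have := Int.le_of_dvd (by norm_num) h'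
    omega
  have hr23 : r2 ^ 3 = ⟨8 - p, -12, 6⟩ := by
    have e : r2 ^ 3 = r2 * (r2 * r2) := by ring
    rw [e]
    refine Cub.ext ?_ ?_ ?_
    · simp only [hr2, mul_a, mul_b, mul_c]; ring
    · simp only [hr2, mul_a, mul_b, mul_c]; ring
    · simp only [hr2, mul_a, mul_b, mul_c]; ring
  -- one step
  have step : ∀ (β : Cub ℤ (p : ℤ)) (n y : ℤ), St ε i β → (9 : ℤ) ∣ β.a - n →
      (9 : ℤ) ∣ β.b - 3 * y → (9 : ℤ) ∣ β.c - 3 * y →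
      St ε i (β * r2 ^ 3) ∧ (9 : ℤ) ∣ (β * r2 ^ 3).a - n * (8 - p) ∧
      (9 : ℤ) ∣ (β * r2 ^ 3).b - 3 * (y - n) ∧ (9 : ℤ) ∣ (β * r2 ^ 3).c - 3 * (y - n) := by
    rintro β n y hS ⟨a1, ha1⟩ ⟨b1, hb1⟩ ⟨c1, hc1⟩
    refine ⟨hS.mul hp hr2a, ?_, ?_, ?_⟩
    · rw [hr23]
      refine ⟨a1 * (8 - p) + p * (6 * b1 - 12 * c1) - 2 * p * y, ?_⟩
      simp only [mul_a]
      linear_combination (8 - (p : ℤ)) * ha1 + 6 * (p : ℤ) * hb1 - 12 * (p : ℤ) * hc1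
    · rw [hr23]
      refine ⟨-12 * a1 + (8 - p) * b1 + 6 * p * c1 - n + 2 * y - u * y + 2 * p * y, ?_⟩
      simp only [mul_b]
      linear_combination (-12) * ha1 + (8 - (p : ℤ)) * hb1 + 6 * (p : ℤ) * hc1 - 3 * y * hu
    · rw [hr23]
      refine ⟨6 * a1 - 12 * b1 + (8 - p) * c1 + n - 2 * y - u * y, ?_⟩
      simp only [mul_c]
      linear_combination 6 * ha1 - 12 * hb1 + (8 - (p : ℤ)) * hc1 - 3 * y * hu
  have fin : ∀ (β : Cub ℤ (p : ℤ)) (n y : ℤ), St ε i β → ¬ (3 : ℤ) ∣ n → (9 : ℤ) ∣ β.a - n →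
      (9 : ℤ) ∣ β.b - 3 * y → (9 : ℤ) ∣ β.c - 3 * y → (3 : ℤ) ∣ y →
      ∃ (β' : Cub ℤ (p : ℤ)) (n' : ℤ), St ε i β' ∧ ¬ (3 : ℤ) ∣ n' ∧ (9 : ℤ) ∣ β'.a - n' ∧
        (9 : ℤ) ∣ β'.b ∧ (9 : ℤ) ∣ β'.c := by
    intro β n y hS hn ha hb hc hy
    exact ⟨β, n, hS, hn, ha, by omega, by omega⟩
  have hn1 : ∀ n : ℤ, ¬ (3 : ℤ) ∣ n → ¬ (3 : ℤ) ∣ n * (8 - p) ∧ (3 : ℤ) ∣ n * (8 - p) - n := by
    intro n hn
    have h1 : n * (8 - (p : ℤ)) = n + 3 * (n * (2 - u)) := by rw [hu]; ring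
    rw [h1]
    constructor
    · omega
    · exact ⟨n * (2 - u), by ring⟩
  have tri : (3 : ℤ) ∣ y ∨ (3 : ℤ) ∣ y - n ∨ (3 : ℤ) ∣ y - 2 * n := by
    rcases (by omega : n % 3 = 1 ∨ n % 3 = 2) with h1 | h1 <;>
    rcases (by omega : y % 3 = 0 ∨ y % 3 = 1 ∨ y % 3 = 2) with h2 | h2 | h2 <;>
    first
    | (left; omega)
    | (right; left; omega)
    | (right; right; omega)
  rcases tri with hy | hy | hy
  · exact fin β n y h hn ha hb hc hy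
  · obtain ⟨s1, s2, s3, s4⟩ := step β n y h ha hb hc
    exact fin _ _ _ s1 (hn1 n hn).1 s2 s3 s4 hy
  · obtain ⟨s1, s2, s3, s4⟩ := step β n y h ha hb hc
    obtain ⟨t1, t2, t3, t4⟩ := step _ _ _ s1 s2 s3 s4
    obtain ⟨g1, g2⟩ := hn1 n hn
    obtain ⟨g3, g4⟩ := hn1 _ g1
    exact fin _ _ _ t1 g3 t2 t3 t4 (by omega)

lemma lam_dvd_int {n : ℤ} : lam ∣ (n : E) ↔ (3 : ℤ) ∣ n := by rw [lam_dvd_iff]; simp

/-- final choice -/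
lemma st2 (hp : Prime (p : ℤ)) (h5 : 5 ≤ p) (hu : (p : ℤ) = 1 + 3 * u) {ε : Cub ℤ (p : ℤ)} {i : ℕ}
    {β : Cub ℤ (p : ℤ)} (h : St ε i β) {n : ℤ} (hn : ¬ (3 : ℤ) ∣ n) (ha : (9 : ℤ) ∣ β.a - n)
    (hb : (9 : ℤ) ∣ β.b) (hc : (9 : ℤ) ∣ β.c) {a b : E} (hab : ¬ (lam ∣ a ∧ lam ∣ b)) :
    ∃ (β' : Cub ℤ (p : ℤ)) (n' B1 B2 : ℤ), St ε i β' ∧ ¬ (3 : ℤ) ∣ n' ∧ (9 : ℤ) ∣ β'.a - n' ∧
      β'.b = 9 * B1 ∧ β'.c = 9 * B2 ∧ ¬ (3 : ℤ) ∣ B2 ∧ ¬ lam ∣ b * B1 + a * B2 := by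
  obtain ⟨b0, hb0⟩ := ha
  obtain ⟨B1, hB1⟩ := hb
  obtain ⟨B2, hB2⟩ := hc
  -- last step
  have last : ∀ (β : Cub ℤ (p : ℤ)) (n b0 B1 B2 : ℤ), St ε i β → ¬ (3 : ℤ) ∣ n → β.a - n = 9 * b0 →
      β.b = 9 * B1 → β.c = 9 * B2 → ¬ (3 : ℤ) ∣ B2 →
      ∃ (β' : Cub ℤ (p : ℤ)) (n' B1 B2 : ℤ), St ε i β' ∧ ¬ (3 : ℤ) ∣ n' ∧ (9 : ℤ) ∣ β'.a - n' ∧
      β'.b = 9 * B1 ∧ β'.c = 9 * B2 ∧ ¬ (3 : ℤ) ∣ B2 ∧ ¬ lam ∣ b * B1 + a * B2 := by
    intro β n b0 B1 B2 hS hn h0 h1 h2 h3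
    by_cases hl : lam ∣ b * B1 + a * B2
    · have hlb : ¬ lam ∣ b := by
        intro hlb
        have h6 : lam ∣ a * B2 := by
          have := dvd_sub hl (hlb.mul_right (B1 : E))
          simpa using this
        rcases prime_lam.dvd_or_dvd h6 with h7 | h7
        · exact hab ⟨h7, hlb⟩
        · exact h3 (lam_dvd_int.mp h7)
      set r4 : Cub ℤ (p : ℤ) := ⟨1, 3, 0⟩ with hr4
      have hr4a : ¬ (p : ℤ) ∣ r4.a := by simp only [hr4]; exact hp.not_dvd_one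
      have hr43 : r4 ^ 3 = ⟨1 + 27 * p, 9, 27⟩ := by
        have e : r4 ^ 3 = r4 * (r4 * r4) := by ring
        rw [e]
        refine Cub.ext ?_ ?_ ?_
        · simp only [hr4, mul_a, mul_b, mul_c]; ring
        · simp only [hr4, mul_a, mul_b, mul_c]; ring
        · simp only [hr4, mul_a, mul_b, mul_c]; ring
      refine ⟨β * r4 ^ 3, n, n + 9 * b0 + B1 + 27 * p * B1 + 27 * p * B2,
        3 * n + 27 * b0 + 9 * B1 + B2 + 27 * p * B2, hS.mul hp hr4a, hn, ?_, ?_, ?_, ?_, ?_⟩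
      · rw [hr43]
        refine ⟨b0 + 27 * p * b0 + 3 * p * n + 27 * p * B1 + 9 * p * B2, ?_⟩
        simp only [mul_a]
        linear_combination (1 + 27 * (p : ℤ)) * h0 + 27 * (p : ℤ) * h1 + 9 * (p : ℤ) * h2
      · rw [hr43]
        simp only [mul_b]
        linear_combination 9 * h0 + (1 + 27 * (p : ℤ)) * h1 + 27 * (p : ℤ) * h2
      · rw [hr43]
        simp only [mul_c]
        linear_combination 27 * h0 + 9 * h1 + (1 + 27 * (p : ℤ)) * h2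
      · have : 3 * n + 27 * b0 + 9 * B1 + B2 + 27 * p * B2 =
          B2 + 3 * (n + 9 * b0 + 3 * B1 + 9 * p * B2) := by ring
        rw [this]; omega
      · intro h8
        have h9 : lam ∣ b * (n : E) := by
          have h10 : lam ∣ (3 : E) * (b * (3 * b0 + 9 * p * B1 + 9 * p * B2) +
              a * (n + 9 * b0 + 3 * B1 + 9 * p * B2)) := lam_dvd_three.mul_right _
          have h11 := dvd_sub (dvd_sub h8 hl) h10
          have e : b * ((n + 9 * b0 + B1 + 27 * p * B1 + 27 * p * B2 : ℤ) : E) +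
              a * ((3 * n + 27 * b0 + 9 * B1 + B2 + 27 * p * B2 : ℤ) : E) - (b * B1 + a * B2) -
              3 * (b * (3 * b0 + 9 * p * B1 + 9 * p * B2) +
              a * (n + 9 * b0 + 3 * B1 + 9 * p * B2)) = b * (n : E) := by
            push_cast; ring
          rwa [e] at h11
        rcases prime_lam.dvd_or_dvd h9 with h7 | h7
        · exact hlb h7
        · exact hn (lam_dvd_int.mp h7)
    · exact ⟨β, n, B1, B2, hS, hn, ⟨b0, h0⟩, h1, h2, h3, hl⟩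
  by_cases h3 : (3 : ℤ) ∣ B2
  · set r3 : Cub ℤ (p : ℤ) := ⟨3, 1, 0⟩ with hr3
    have hr3a : ¬ (p : ℤ) ∣ r3.a := by
      simp only [hr3]
      intro h'
      have := Int.le_of_dvd (by norm_num) h'
      omega
    have hr33 : r3 ^ 3 = ⟨27 + p, 27, 9⟩ := by
      have e : r3 ^ 3 = r3 * (r3 * r3) := by ring
      rw [e]
      refine Cub.ext ?_ ?_ ?_
      · simp only [hr3, mul_a, mul_b, mul_c]; ring
      · simp only [hr3, mul_a, mul_b, mul_c]; ring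
      · simp only [hr3, mul_a, mul_b, mul_c]; ring
    refine last (β * r3 ^ 3) (n * p) (3 * n + 27 * b0 + p * b0 + 9 * p * B1 + 27 * p * B2)
      (3 * n + 27 * b0 + 27 * B1 + p * B1 + 9 * p * B2) (n + 9 * b0 + 27 * B1 + 27 * B2 + p * B2)
      (h.mul hp hr3a) ?_ ?_ ?_ ?_ ?_
    · rw [hu]
      have : n * (1 + 3 * u) = n + 3 * (n * u) := by ring
      rw [this]; omega
    · rw [hr33]
      simp only [mul_a]
      linear_combination (27 + (p : ℤ)) * hb0 + 9 * (p : ℤ) * hB1 + 27 * (p : ℤ) * hB2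
    · rw [hr33]
      simp only [mul_b]
      linear_combination 27 * hb0 + (27 + (p : ℤ)) * hB1 + 9 * (p : ℤ) * hB2
    · rw [hr33]
      simp only [mul_c]
      linear_combination 9 * hb0 + 27 * hB1 + (27 + (p : ℤ)) * hB2
    · obtain ⟨k, hk⟩ := h3
      rw [hk]
      have : n + 9 * b0 + 27 * B1 + 27 * (3 * k) + p * (3 * k) =
        n + 3 * (3 * b0 + 9 * B1 + 27 * k + p * k) := by ring
      rw [this]; omega
  · exact last β n b0 B1 B2 h hn hb0 hB1 hB2 h3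

end

end Pool.Agent.LibEis
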