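import Pool.Agent.LibEis.Symbol

/-! Behaviour of the symbols under complex conjugation. -/

namespace Pool.Agent.LibEis

open scoped QuadraticAlgebra

lemma star_om : star om = om ^ 2 := by
  rw [om2_eq]; ext <;> simp [om]

lemma star_dvd_star {a b : E} (h : a ∣ b) : star a ∣ star b := by
  obtain ⟨k, hk⟩ := h
  exact ⟨star k, by rw [hk, star_mul, mul_comm]⟩

lemma star_dvd_iff {a b : E} : star a ∣ star b ↔ a ∣ b :=
  ⟨fun h => by simpa using star_dvd_star h, star_dvd_star⟩

lemma prime_star {q : E} (h : Prime q) : Prime (star q) := by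
  refine ⟨?_, ?_, ?_⟩
  · intro h0; apply h.ne_zero; simpa using congrArg star h0
  · intro hu
    apply h.not_isUnit
    rw [isUnit_iff_nm] at hu ⊢
    rwa [nm_star] at hu
  · intro a b hab
    have h1 : q ∣ star a * star b := by
      rw [← star_dvd_iff]
      have : star (star a * star b) = a * b := by rw [star_mul, star_star, star_star, mul_comm]
      rw [this]; exact hab
    rcases h.dvd_or_dvd h1 with h2 | h2
    · left; rw [← star_dvd_iff]; simpa using h2
    · right; rw [← star_dvd_iff]; simpa using h2

lemma prim_star {q : E} (h : Prim q) : Prim (star q) := by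
  obtain ⟨k, hk⟩ := h
  refine ⟨star k, ?_⟩
  have := congrArg star hk
  rw [star_sub, star_mul, star_one] at this
  rw [this]
  have h3 : star (3 : E) = 3 := by
    ext <;> simp [QuadraticAlgebra.re_ofNat]
  rw [h3, mul_comm]

lemma PP.star {q : E} (h : PP q) : PP (star q) := ⟨prime_star h.prime, prim_star h.prim⟩

lemma N_star (q : E) : N (star q) = N q := by unfold N; rw [nm_star]

lemma ex_star (q : E) : ex (star q) = ex q := by unfold ex; rw [N_star]

lemma star_ne_zero' {x : E} (hx : x ≠ 0) : star x ≠ 0 := by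
  intro h0; apply hx; simpa using congrArg star h0

lemma cF_star {q : E} (h : PP q) {x : E} (hx : ¬ q ∣ x) :
    cF (star q) (red (star q) (star x)) = - cF q (red q x) := by
  have h1 : ¬ star q ∣ star x := fun h' => hx (star_dvd_iff.mp h')
  have h2 : red q x ^ ex q = red q om ^ (cF q (red q x)).val :=
    cF_spec h (fun h0 => hx (red_eq_zero.mp h0))
  rw [← map_pow, ← map_pow, red_eq_iff] at h2
  have h3 := star_dvd_star h2
  rw [star_sub, star_pow, star_pow, star_om, ← red_eq_iff, map_pow, map_pow, map_pow,
    ← pow_mul] at h3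
  have h4 := cF_unique h.star (a := red (star q) (star x))
    (fun h0 => h1 (red_eq_zero.mp h0)) (by rw [ex_star]; exact h3)
  rw [h4]
  push_cast
  rw [ZMod.natCast_zmod_val]
  generalize cF q (red q x) = t
  revert t; decide

lemma vc_star {q : E} (h : PP q) {x : E} (hx : x ≠ 0) :
    v (star q) (star x) = v q x ∧ c (star q) (star x) = - c q x := by
  obtain ⟨h1, h2⟩ := upart_spec h hx
  have h3 : star x = star q ^ (v q x) * star (upart q x) := by
    conv_lhs => rw [h1]
    rw [star_mul, star_pow, mul_comm]
  have h4 : ¬ star q ∣ star (upart q x) := fun h' => h2 (star_dvd_iff.mp h')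
  obtain ⟨h5, h6⟩ := vc_eq h.star h3 h4
  refine ⟨h5, ?_⟩
  rw [h6, cF_star h h2]
  rfl

lemma s_star {q : E} (h : PP q) {a b : E} (ha : a ≠ 0) (hb : b ≠ 0) :
    s (star q) (star a) (star b) = - s q a b := by
  unfold s
  rw [(vc_star h ha).1, (vc_star h ha).2, (vc_star h hb).1, (vc_star h hb).2]
  ring

end Pool.Agent.LibEis
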