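import Pool.Agent.LibEis.Three

/-! The ring `R[θ]`, `θ ^ 3 = p`, with explicit coordinates. -/

namespace Pool.Agent.LibEis

/-- elements `a + b θ + c θ ^ 2` with `θ ^ 3 = p` -/
@[ext] structure Cub (R : Type) (p : R) where
  a : R
  b : R
  c : R

namespace Cub

section ring
variable {R : Type} [CommRing R] {p : R}

instance : Zero (Cub R p) := ⟨⟨0, 0, 0⟩⟩
instance : One (Cub R p) := ⟨⟨1, 0, 0⟩⟩
instance : Add (Cub R p) := ⟨fun x y => ⟨x.a + y.a, x.b + y.b, x.c + y.c⟩⟩
instance : Neg (Cub R p) := ⟨fun x => ⟨-x.a, -x.b, -x.c⟩⟩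
instance : Sub (Cub R p) := ⟨fun x y => ⟨x.a - y.a, x.b - y.b, x.c - y.c⟩⟩
instance : Mul (Cub R p) := ⟨fun x y => ⟨x.a * y.a + p * (x.b * y.c + x.c * y.b),
  x.a * y.b + x.b * y.a + p * (x.c * y.c), x.a * y.c + x.b * y.b + x.c * y.a⟩⟩

@[simp] lemma zero_a : (0 : Cub R p).a = 0 := rfl
@[simp] lemma zero_b : (0 : Cub R p).b = 0 := rfl
@[simp] lemma zero_c : (0 : Cub R p).c = 0 := rfl
@[simp] lemma one_a : (1 : Cub R p).a = 1 := rfl
@[simp] lemma one_b : (1 : Cub R p).b = 0 := rfl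
@[simp] lemma one_c : (1 : Cub R p).c = 0 := rfl
@[simp] lemma add_a (x y : Cub R p) : (x + y).a = x.a + y.a := rfl
@[simp] lemma add_b (x y : Cub R p) : (x + y).b = x.b + y.b := rfl
@[simp] lemma add_c (x y : Cub R p) : (x + y).c = x.c + y.c := rfl
@[simp] lemma neg_a (x : Cub R p) : (-x).a = -x.a := rfl
@[simp] lemma neg_b (x : Cub R p) : (-x).b = -x.b := rfl
@[simp] lemma neg_c (x : Cub R p) : (-x).c = -x.c := rfl
@[simp] lemma sub_a (x y : Cub R p) : (x - y).a = x.a - y.a := rfl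
@[simp] lemma sub_b (x y : Cub R p) : (x - y).b = x.b - y.b := rfl
@[simp] lemma sub_c (x y : Cub R p) : (x - y).c = x.c - y.c := rfl
@[simp] lemma mul_a (x y : Cub R p) : (x * y).a = x.a * y.a + p * (x.b * y.c + x.c * y.b) := rfl
@[simp] lemma mul_b (x y : Cub R p) : (x * y).b = x.a * y.b + x.b * y.a + p * (x.c * y.c) := rfl
@[simp] lemma mul_c (x y : Cub R p) : (x * y).c = x.a * y.c + x.b * y.b + x.c * y.a := rfl

instance : CommRing (Cub R p) where
  add_assoc x y z := by ext <;> simp <;> ring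
  zero_add x := by ext <;> simp
  add_zero x := by ext <;> simp
  nsmul := nsmulRec
  zsmul := zsmulRec
  neg_add_cancel x := by ext <;> simp
  add_comm x y := by ext <;> simp <;> ring
  left_distrib x y z := by ext <;> simp <;> ring
  right_distrib x y z := by ext <;> simp <;> ring
  zero_mul x := by ext <;> simp
  mul_zero x := by ext <;> simp
  mul_assoc x y z := by ext <;> simp <;> ring
  one_mul x := by ext <;> simp
  mul_one x := by ext <;> simp
  mul_comm x y := by ext <;> simp <;> ring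
  sub_eq_add_neg x y := by ext <;> simp <;> ring

/-- constants -/
def C (r : R) : Cub R p := ⟨r, 0, 0⟩

@[simp] lemma C_a (r : R) : (C r : Cub R p).a = r := rfl
@[simp] lemma C_b (r : R) : (C r : Cub R p).b = 0 := rfl
@[simp] lemma C_c (r : R) : (C r : Cub R p).c = 0 := rfl

/-- constants as a ring hom -/
def CHom : R →+* Cub R p where
  toFun := C
  map_one' := rfl
  map_mul' x y := by ext <;> simp
  map_zero' := rfl
  map_add' x y := by ext <;> simp

lemma C_mul (r s : R) : (C (r * s) : Cub R p) = C r * C s := map_mul CHom r s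
lemma C_pow (r : R) (n : ℕ) : (C (r ^ n) : Cub R p) = C r ^ n := map_pow CHom r n
lemma C_one : (C 1 : Cub R p) = 1 := rfl
lemma C_zero : (C 0 : Cub R p) = 0 := rfl
lemma C_neg (r : R) : (C (-r) : Cub R p) = -C r := map_neg CHom r
lemma C_inj {r s : R} : (C r : Cub R p) = C s ↔ r = s :=
  ⟨fun h => by simpa using congrArg Cub.a h, fun h => by rw [h]⟩

/-- the element `θ` -/
def th : Cub R p := ⟨0, 1, 0⟩

lemma th_cube : (th : Cub R p) ^ 3 = C p := by
  have : (th : Cub R p) ^ 3 = th * th * th := by ring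
  rw [this]; ext <;> simp [th]

/-- norm to the base ring -/
def nrm (z : Cub R p) : R := z.a ^ 3 + p * z.b ^ 3 + p ^ 2 * z.c ^ 3 - 3 * p * z.a * z.b * z.c

lemma nrm_mul (x y : Cub R p) : nrm (x * y) = nrm x * nrm y := by
  simp only [nrm, mul_a, mul_b, mul_c]; ring

lemma nrm_one : nrm (1 : Cub R p) = 1 := by simp [nrm]

lemma nrm_C (r : R) : nrm (C r : Cub R p) = r ^ 3 := by simp [nrm]

lemma nrm_pow (x : Cub R p) (n : ℕ) : nrm (x ^ n) = nrm x ^ n := by
  induction n with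
  | zero => simp [nrm_one]
  | succ n ih => rw [pow_succ, nrm_mul, ih, pow_succ]

/-- the adjoint (product of the two other conjugates) -/
def adj (z : Cub R p) : Cub R p :=
  ⟨z.a ^ 2 - p * z.b * z.c, p * z.c ^ 2 - z.a * z.b, z.b ^ 2 - z.a * z.c⟩

lemma mul_adj (z : Cub R p) : z * adj z = C (nrm z) := by
  ext <;> simp [adj, nrm] <;> ring

lemma nrm_zero : nrm (0 : Cub R p) = 0 := by simp [nrm]

lemma C_mul_eq (r : R) (z : Cub R p) : C r * z = ⟨r * z.a, r * z.b, r * z.c⟩ := by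
  ext <;> simp

end ring

section domain
variable {R : Type} [CommRing R] [IsDomain R] [WfDvdMonoid R] {p q p' : R}

lemma nrm_descent (hq : Prime q) (hp : p = q * p') (hp' : ¬ q ∣ p') {z : Cub R p}
    (h : nrm z = 0) : ∃ z' : Cub R p, nrm z' = 0 ∧ z = C q * z' := by
  subst hp
  have hq0 := hq.ne_zero
  have h1 : q ∣ z.a := by
    have : q ∣ z.a ^ 3 := by
      refine ⟨-(p' * z.b ^ 3 + q * p' * p' * z.c ^ 3 - 3 * p' * z.a * z.b * z.c), ?_⟩
      rw [nrm] at h
      linear_combination h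
    exact hq.dvd_of_dvd_pow this
  obtain ⟨a', ha⟩ := h1
  have h2 : q ∣ z.b := by
    have e : q ^ 2 * a' ^ 3 + p' * z.b ^ 3 + q * p' ^ 2 * z.c ^ 3 - 3 * q * p' * a' * z.b * z.c = 0 := by
      apply mul_left_cancel₀ hq0
      rw [nrm, ha] at h
      linear_combination h
    have : q ∣ p' * z.b ^ 3 :=
      ⟨-(q * a' ^ 3 + p' ^ 2 * z.c ^ 3 - 3 * p' * a' * z.b * z.c), by linear_combination e⟩
    rcases hq.dvd_or_dvd this with h3 | h3
    · exact absurd h3 hp'
    · exact hq.dvd_of_dvd_pow h3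
  obtain ⟨b', hb⟩ := h2
  have h3 : q ∣ z.c := by
    have e : q * a' ^ 3 + q ^ 2 * p' * b' ^ 3 + p' ^ 2 * z.c ^ 3 - 3 * q * p' * a' * b' * z.c = 0 := by
      apply mul_left_cancel₀ (pow_ne_zero 2 hq0)
      rw [nrm, ha, hb] at h
      linear_combination h
    have : q ∣ p' ^ 2 * z.c ^ 3 :=
      ⟨-(a' ^ 3 + q * p' * b' ^ 3 - 3 * p' * a' * b' * z.c), by linear_combination e⟩
    rcases hq.dvd_or_dvd this with h3 | h3
    · exact absurd (hq.dvd_of_dvd_pow h3) hp'
    · exact hq.dvd_of_dvd_pow h3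
  obtain ⟨c', hc⟩ := h3
  refine ⟨⟨a', b', c'⟩, ?_, ?_⟩
  · apply mul_left_cancel₀ (pow_ne_zero 3 hq0)
    rw [nrm, ha, hb, hc] at h
    simp only [nrm]
    linear_combination h
  · ext <;> simp [ha, hb, hc]

lemma nrm_eq_zero (hq : Prime q) (hp : p = q * p') (hp' : ¬ q ∣ p') {z : Cub R p} :
    nrm z = 0 ↔ z = 0 := by
  constructor
  · intro h
    have key : ∀ n : ℕ, ∀ z : Cub R p, nrm z = 0 → q ^ n ∣ z.a ∧ q ^ n ∣ z.b ∧ q ^ n ∣ z.c := by
      intro n
      induction n with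
      | zero => intro z _; simp
      | succ n ih =>
        intro z hz
        obtain ⟨z', hz', rfl⟩ := nrm_descent hq hp hp' hz
        obtain ⟨h1, h2, h3⟩ := ih z' hz'
        rw [C_mul_eq, pow_succ']
        exact ⟨mul_dvd_mul_left q h1, mul_dvd_mul_left q h2, mul_dvd_mul_left q h3⟩
    have zero_of : ∀ x : R, (∀ n : ℕ, q ^ n ∣ x) → x = 0 := by
      intro x hx
      by_contra h0
      have hf : FiniteMultiplicity q x := FiniteMultiplicity.of_prime_left hq h0
      obtain ⟨n, hn⟩ := hf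
      exact hn (hx (n + 1))
    ext
    · exact zero_of _ fun n => (key n z h).1
    · exact zero_of _ fun n => (key n z h).2.1
    · exact zero_of _ fun n => (key n z h).2.2
  · rintro rfl; exact nrm_zero

lemma eq_zero_or (hq : Prime q) (hp : p = q * p') (hp' : ¬ q ∣ p') {x y : Cub R p}
    (h : x * y = 0) : x = 0 ∨ y = 0 := by
  have : nrm x * nrm y = 0 := by rw [← nrm_mul, h, nrm_zero]
  rcases mul_eq_zero.mp this with h | h
  · left; exact (nrm_eq_zero hq hp hp').mp h
  · right; exact (nrm_eq_zero hq hp hp').mp h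

end domain

end Cub

end Pool.Agent.LibEis
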