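import Pool.Agent.LibEis.Hilbert

/-! Primes `p ≡ 4, 7 mod 9` and a primary prime `q` above them. -/

namespace Pool.Agent.LibEis

open scoped QuadraticAlgebra

/-- the basic data -/
structure Dat (p : ℕ) (q : E) : Prop where
  pp : p.Prime
  hq : PP q
  hN : (p : E) = q * star q
  hmod : p % 9 = 4 ∨ p % 9 = 7

lemma nm_nat (n : ℕ) : nm (n : E) = (n : ℤ) ^ 2 := by
  have := nm_int (n : ℤ)
  simpa using this

namespace Dat

variable {p : ℕ} {q : E}

lemma nm_q (h : Dat p q) : nm q = p := by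
  have h1 : nm (p : E) = nm q * nm (star q) := by rw [← nm_mul, ← h.hN]
  rw [nm_nat, nm_star] at h1
  have h2 := nm_nonneg q
  have h3 : ((p : ℤ) - nm q) * (p + nm q) = 0 := by linear_combination h1
  have h4 : 0 < (p : ℤ) := by exact_mod_cast h.pp.pos
  rcases mul_eq_zero.mp h3 with h5 | h5
  · linarith
  · linarith

lemma N_q (h : Dat p q) : N q = p := by unfold N; rw [h.nm_q]; rfl

lemma symm (h : Dat p q) : Dat p (star q) :=
  ⟨h.pp, h.hq.star, by rw [star_star, mul_comm]; exact h.hN, h.hmod⟩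

lemma ex_ne (h : Dat p q) : (ex q : ZMod 3) ≠ 0 := by
  intro h0
  have h1 : 3 ∣ ex q := (ZMod.natCast_eq_zero_iff _ _).mp h0
  have h2 := N_eq h.hq
  rw [h.N_q] at h2
  have := h.hmod
  omega

lemma ne (h : Dat p q) : q ≠ star q := by
  intro h0
  have h1 : q.im = 0 := by
    have := congrArg QuadraticAlgebra.im h0
    simp at this; omega
  have h2 := h.nm_q
  rw [nm, h1] at h2
  have h3 : q.re * q.re = p := by linarith
  have h4 : (q.re.natAbs) * (q.re.natAbs) = p := by
    rw [← Int.natAbs_mul, h3]; rfl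
  have := h.pp
  rw [← h4] at this
  have h5 := Nat.prime_mul_iff.mp this
  rcases h5 with ⟨h6, h7⟩ | ⟨h6, h7⟩
  · rw [h7] at h6; exact Nat.not_prime_one h6
  · rw [h7] at h6; exact Nat.not_prime_one h6

lemma not_dvd_star (h : Dat p q) : ¬ q ∣ star q := fun h' => h.ne (h.hq.star.eq_of_dvd h.hq h')

lemma star_not_dvd (h : Dat p q) : ¬ star q ∣ q := fun h' => h.ne (h.hq.eq_of_dvd h.hq.star h').symm

lemma q_dvd_p (h : Dat p q) : q ∣ (p : E) := ⟨star q, h.hN⟩

lemma int_dvd (h : Dat p q) {n : ℤ} (hn : q ∣ (n : E)) : (p : ℤ) ∣ n := by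
  obtain ⟨k, hk⟩ := hn
  have h1 : nm (n : E) = nm q * nm k := by rw [hk, nm_mul]
  rw [nm_int, h.nm_q] at h1
  have h2 : (p : ℤ) ∣ n ^ 2 := ⟨nm k, h1⟩
  exact Int.Prime.dvd_pow' h.pp h2

lemma dvd_int (h : Dat p q) {n : ℤ} (hn : (p : ℤ) ∣ n) : q ∣ (n : E) := by
  obtain ⟨k, rfl⟩ := hn
  push_cast
  exact (h.q_dvd_p).mul_right _

/-- divisible by `q` and `star q` implies divisible by `p` -/
lemma p_dvd (h : Dat p q) {x : E} (h1 : q ∣ x) (h2 : star q ∣ x) : (p : E) ∣ x := by
  obtain ⟨y, rfl⟩ := h1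
  rcases h.hq.star.prime.dvd_or_dvd h2 with h3 | h3
  · exact absurd h3 h.star_not_dvd
  · obtain ⟨z, rfl⟩ := h3
    exact ⟨z, by rw [h.hN]; ring⟩

lemma c_star_self (h : Dat p q) : c q (star q) = 0 := by
  have h1 := S_PP_zero h.hq h.hq.star
  rw [S_PP h.hq h.hq.star h.ne] at h1
  have h2 := (vc_star h.hq h.hq.star.prime.ne_zero).2
  rw [star_star] at h2
  rw [h2] at h1
  have h3 : ∀ t : ZMod 3, -t - t = 0 → t = 0 := by decide
  exact h3 _ h1

lemma c_om (h : Dat p q) : c q om = ex q := by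
  have h1 : ¬ q ∣ om := fun h' => h.hq.prime.not_isUnit (isUnit_of_dvd_unit h' isUnit_om)
  rw [c_unit h.hq h1, cF_om h.hq]

lemma c_om_ne (h : Dat p q) : c q om ≠ 0 := by rw [h.c_om]; exact h.ex_ne

lemma p_ne_zero (h : Dat p q) : (p : E) ≠ 0 := by exact_mod_cast h.pp.ne_zero

end Dat

/-- existence of `q` -/
lemma exists_dat {p : ℕ} (hp : p.Prime) (hmod : p % 9 = 4 ∨ p % 9 = 7) : ∃ q : E, Dat p q := by
  have : Fact p.Prime := ⟨hp⟩
  -- primitive cube root of unity mod p
  have h3 : 3 ∣ Fintype.card (ZMod p)ˣ := by rw [ZMod.card_units p]; omega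
  obtain ⟨g, hg⟩ := exists_prime_orderOf_dvd_card 3 h3
  set x : ℤ := ((g : ZMod p).val : ℤ) with hx
  have hxg : ((x : ℤ) : ZMod p) = (g : ZMod p) := by rw [hx]; simp
  have h1 : (g : ZMod p) ^ 3 = 1 := by
    have := pow_orderOf_eq_one g
    rw [hg] at this
    rw [← Units.val_pow_eq_pow_val, this, Units.val_one]
  have h2 : (g : ZMod p) ≠ 1 := by
    intro h0
    have : g = 1 := Units.ext h0
    rw [this, orderOf_one] at hg
    norm_num at hg
  have h4 : (g : ZMod p) ^ 2 + g + 1 = 0 := by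
    have : ((g : ZMod p) - 1) * ((g : ZMod p) ^ 2 + g + 1) = 0 := by linear_combination h1
    exact (mul_eq_zero.mp this).resolve_left (sub_ne_zero.mpr h2)
  have h5 : (p : ℤ) ∣ x ^ 2 + x + 1 := by
    rw [← ZMod.intCast_zmod_eq_zero_iff_dvd _ p]
    push_cast
    rw [hxg]; exact h4
  -- p is not prime in E
  have hpne : (p : E) ≠ 0 := by exact_mod_cast hp.ne_zero
  have hnp : ¬ Prime (p : E) := by
    intro hP
    have h6 : (p : E) ∣ ((x : E) - om) * ((x : E) - om ^ 2) := by
      obtain ⟨k, hk⟩ := h5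
      refine ⟨(k : E), ?_⟩
      have e : ((x : E) ^ 2 + x + 1) = (p : E) * k := by exact_mod_cast congrArg (Int.cast (R := E)) hk
      have := om_rel'; have h3 := om_cube
      linear_combination e - x * this + h3
    have hnot : ∀ z : E, z.im = 1 ∨ z.im = -1 → ¬ (p : E) ∣ z := by
      intro z hz hd
      have h7 := (int_dvd_iff (p : ℤ) z).mp (by exact_mod_cast hd)
      have h8 := hp.two_le
      have h9 : (p : ℤ) ∣ 1 := by
        rcases hz with h | h
        · rw [← h]; exact h7.2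
        · have h10 := h7.2
          rw [h] at h10
          simpa using h10
      have h11 := Int.le_of_dvd one_pos h9
      omega
    rcases hP.dvd_or_dvd h6 with h7 | h7
    · exact hnot _ (by right; simp [om]) h7
    · exact hnot _ (by left; rw [om2_eq]; simp) h7
  have hnu : ¬ IsUnit (p : E) := by
    rw [isUnit_iff_nm, nm_nat]
    have := hp.two_le
    intro h0
    have : (p : ℤ) ≥ 2 := by exact_mod_cast this
    nlinarith
  have hirr : ¬ Irreducible (p : E) := fun h => hnp h.prime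
  rw [irreducible_iff] at hirr
  push Not at hirr
  obtain ⟨a, b, hab, ha, hb⟩ := hirr hnu
  have hnab : nm a * nm b = (p : ℤ) ^ 2 := by rw [← nm_mul, ← hab, nm_nat]
  have hna : nm a = p := by
    have h1 := nm_nonneg a
    have h2 := nm_nonneg b
    have h3 : (nm a).toNat * (nm b).toNat = p ^ 2 := by
      have : (((nm a).toNat * (nm b).toNat : ℕ) : ℤ) = ((p ^ 2 : ℕ) : ℤ) := by
        push_cast; rw [Int.toNat_of_nonneg h1, Int.toNat_of_nonneg h2]; exact hnab
      exact_mod_cast this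
    have h4 : (nm a).toNat ∣ p ^ 2 := ⟨_, h3.symm⟩
    rw [Nat.dvd_prime_pow hp] at h4
    obtain ⟨k, hk, hk2⟩ := h4
    interval_cases k
    · exfalso; apply ha; rw [isUnit_iff_nm]
      have : (nm a).toNat = 1 := by simpa using hk2
      omega
    · have : (nm a).toNat = p := by simpa using hk2
      omega
    · exfalso; apply hb; rw [isUnit_iff_nm]
      rw [hk2] at h3
      have : (nm b).toNat = 1 := by
        have hpos : 0 < p ^ 2 := pow_pos hp.pos 2
        exact Nat.eq_of_mul_eq_mul_left hpos (by rw [h3, mul_one])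
      omega
  have hlam : ¬ lam ∣ a := by
    intro h
    obtain ⟨k, hk⟩ := h
    have : nm a = 3 * nm k := by rw [hk, nm_mul, nm_lam]
    rw [hna] at this
    omega
  obtain ⟨s, j, hs, hj, hprim⟩ := exists_unit_mod_three hlam
  have hsn : nm s = 1 := by
    rcases hs with rfl | rfl
    · exact nm_one
    · simp [nm]
  have hnomj : nm (om ^ j) = 1 := by
    interval_cases j
    · simp [nm_one]
    · rw [pow_one, nm_om]
    · rw [pow_two, nm_mul, nm_om]; rfl
  have hnq : nm (s * om ^ j * a) = p := by rw [nm_mul, nm_mul, hsn, hnomj, hna]; ring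
  refine ⟨s * om ^ j * a, hp, ⟨prime_of_nm hp hnq, hprim⟩, ?_, hmod⟩
  rw [mul_star_eq, hnq]; norm_cast

end Pool.Agent.LibEis
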