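import Pool.Agent.LibEis.Local2
import Pool.Agent.LibEis.CaseA

/-! The global sum of the local contributions. -/

namespace Pool.Agent.LibEis

open scoped QuadraticAlgebra

open Cub

section

variable {P : E}

/-- the global sum -/
noncomputable def TS (X A : Cub E P) : ZMod 3 :=
  S (nrm X) (dl X A) - S (nrm X) X.b + S (nrm A) A.b - S (nrm A) (dl X A)

lemma finsum_T {X A : Cub E P} (nX : nrm X ≠ 0) (nA : nrm A ≠ 0) (hXb : X.b ≠ 0) (hAb : A.b ≠ 0)
    (hd : dl X A ≠ 0) :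
    (Function.support fun w : PPs => T w.1 X A).Finite ∧ ∑ᶠ w : PPs, T w.1 X A = TS X A := by
  have f1 := support_s nX hd
  have f2 := support_s nX hXb
  have f3 := support_s nA hAb
  have f4 := support_s nA hd
  have f12 : (Function.support fun w : PPs => s w.1 (nrm X) (dl X A) - s w.1 (nrm X) X.b).Finite :=
    (f1.union f2).subset (Function.support_sub _ _)
  have f123 : (Function.support fun w : PPs => s w.1 (nrm X) (dl X A) - s w.1 (nrm X) X.b
      + s w.1 (nrm A) A.b).Finite := (f12.union f3).subset (Function.support_add _ _)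
  refine ⟨(f123.union f4).subset (Function.support_sub _ _), ?_⟩
  unfold T TS S
  rw [finsum_sub_distrib f123 f4, finsum_add_distrib f12 f3, finsum_sub_distrib f1 f2]

end

section

variable {p : ℕ} {q : E}

theorem Dat.global_sum (h : Dat p q) {X1 X2 A ε r α : Cub E (p : E)} {m : E}
    (hX : X1 = ε * r ^ 3 * X2) (hX1 : X1.c = 0) (hX2 : X2.c = 0) (hA : A.c = 0)
    (n1 : nrm X1 ≠ 0) (n2 : nrm X2 ≠ 0) (nA : nrm A ≠ 0) (hb1 : X1.b ≠ 0) (hb2 : X2.b ≠ 0)
    (hAb : A.b ≠ 0) (hd1 : dl X1 A ≠ 0) (hd2 : dl X2 A ≠ 0) (hε : nrm ε = 1)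
    (hα : C m * (th * A) = (ε - 1) * α) (hαw : ∀ w, PP w → w ∣ nrm α → w ∣ (p : E))
    (p2 : ∀ w, PP w → ¬ (w ∣ X2.a ∧ w ∣ X2.b)) (pA : ∀ w, PP w → ¬ (w ∣ A.a ∧ w ∣ A.b))
    (hAq : ¬ q ∣ A.a) (hAs : star q ∣ A.a) (hρq : ¬ q ∣ (ε * r ^ 3).a)
    (hρs : ¬ star q ∣ (ε * r ^ 3).a) :
    TS X1 A = TS X2 A + c (star q) (ε * r ^ 3).a := by
  obtain ⟨f1, g1⟩ := finsum_T n1 nA hb1 hAb hd1
  obtain ⟨f2, g2⟩ := finsum_T n2 nA hb2 hAb hd2
  have key : ∑ᶠ w : PPs, (T w.1 X1 A - T w.1 X2 A) =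
      T (star q) X1 A - T (star q) X2 A := by
    refine finsum_eq_single _ (⟨star q, h.hq.star⟩ : PPs) ?_
    intro w hw
    rw [sub_eq_zero]
    have hws : w.1 ≠ star q := fun h' => hw (Subtype.ext h')
    by_cases hwp : w.1 ∣ (p : E)
    · have hwq : w.1 = q := by
        rw [h.hN] at hwp
        rcases w.2.prime.dvd_or_dvd hwp with h1 | h1
        · exact h.hq.eq_of_dvd w.2 h1
        · exact absurd (h.hq.star.eq_of_dvd w.2 h1) hws
      rw [hwq]
      exact (h.D_ram hX hX2 hρq (p2 q h.hq) (pA q h.hq)).1 hAq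
    · by_cases hc : ∃ x, w.1 ∣ x ^ 3 - (p : E)
      · obtain ⟨t0, ht0⟩ := hc
        exact D_split w.2 hwp ht0 hX hX1 hX2 hA n1 n2 nA hb1 hb2 hAb hd1 hd2 hε hα
          (fun h' => hwp (hαw w.1 w.2 h'))
      · push Not at hc
        exact D_inert w.2 hc hX hX1 hX2 hA n1 hb1 hb2 hAb hd1 hd2 hε (p2 w.1 w.2) (pA w.1 w.2)
  rw [finsum_sub_distrib f1 f2, g1, g2] at key
  have h5 := (h.symm.D_ram hX hX2 hρs (p2 _ h.hq.star) (pA _ h.hq.star)).2 hAs
  rw [h5] at key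
  linear_combination key

lemma S_cube_left {x y : E} (hx : x ≠ 0) (hy : y ≠ 0) : S (x ^ 3) y = 0 := by
  rw [S_pow_left hx hy]
  have : ((3 : ℕ) : ZMod 3) = 0 := rfl
  rw [this, zero_mul]

lemma nrm_th : nrm (th : Cub E (p : E)) = p := by simp [nrm, th]

/-- the symbol of `nrm A` with integers -/
lemma Dat.S_nrm_A (h : Dat p q) {A α : Cub E (p : E)} {ε : Cub ℤ (p : ℤ)} {m : E}
    (hm : m ≠ 0) (hε : ε ≠ 1) (nA : nrm A ≠ 0)
    (hα : C m * (th * A) = (iota ε - 1) * α) {κ : E} (hκ : κ ≠ 0)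
    (hn : nrm α = κ ^ 3 * (q * star q ^ 2)) {y : ℤ} (hy : y ≠ 0) :
    S (nrm A) (y : E) = S (star q) (y : E) := by
  have hy' : (y : E) ≠ 0 := by exact_mod_cast hy
  have hp0 := h.p_ne_zero
  have hq0 := h.hq.prime.ne_zero
  have hs0 := h.hq.star.prime.ne_zero
  have e0 : (iota ε - 1 : Cub E (p : E)) = iota (ε - 1) := by rw [map_sub, map_one]
  have hn1 : nrm (ε - 1) ≠ 0 := by
    intro h0
    have h1 : nrm (iota (ε - 1)) = 0 := by rw [nrm_iota, h0]; norm_num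
    have h2 := h.nrm_ne (α := iota (ε - 1)) (by
      intro h3
      apply hε
      have h4 : iota (ε - 1) = iota (0 : Cub ℤ (p : ℤ)) := by rw [h3, map_zero]
      exact sub_eq_zero.mp (iota_inj h4))
    exact h2 h1
  have h1 := congrArg nrm hα
  rw [nrm_mul, nrm_mul, nrm_mul, nrm_C, nrm_th, e0, nrm_iota, hn] at h1
  have hn1' : ((nrm (ε - 1) : ℤ) : E) ≠ 0 := by exact_mod_cast hn1
  have h2 : S (m ^ 3 * ((p : E) * nrm A)) y = S (nrm A) y := by
    rw [S_mul_left (pow_ne_zero 3 hm) (mul_ne_zero hp0 nA) hy', S_cube_left hm hy',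
      S_mul_left hp0 nA hy']
    have : S (p : E) (y : E) = 0 := by
      have := S_int (a := (p : ℤ)) (b := y) (by exact_mod_cast h.pp.ne_zero) hy
      simpa using this
    rw [this]; ring
  have h3 : S (((nrm (ε - 1) : ℤ) : E) * (κ ^ 3 * (q * star q ^ 2))) y = S (star q) y := by
    have e1 : q * star q ^ 2 = (p : E) * star q := by rw [h.hN]; ring
    rw [e1, S_mul_left hn1' (mul_ne_zero (pow_ne_zero 3 hκ) (mul_ne_zero hp0 hs0)) hy',
      S_int hn1 hy, S_mul_left (pow_ne_zero 3 hκ) (mul_ne_zero hp0 hs0) hy', S_cube_left hκ hy',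
      S_mul_left hp0 hs0 hy']
    have : S (p : E) (y : E) = 0 := by
      have := S_int (a := (p : ℤ)) (b := y) (by exact_mod_cast h.pp.ne_zero) hy
      simpa using this
    rw [this]; ring
  rw [← h2, h1, h3]

lemma Dat.S_star_three (h : Dat p q) (h3 : c q 3 = 0) : S (star q) ((3 : ℤ) : E) = 0 := by
  have e : ((3 : ℤ) : E) = 3 := by norm_num
  rw [e, S_swap 3 (star q), S_three h.hq.star, c_star_three h.hq, h3]; simp

lemma S_star_int (hq : PP q) {n : ℤ} (hn : ¬ (3 : ℤ) ∣ n) : S (star q) (n : E) = 0 := by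
  have hn0 : n ≠ 0 := by rintro rfl; exact hn (dvd_zero _)
  have hn0' : (n : E) ≠ 0 := by exact_mod_cast hn0
  rcases (by omega : n % 3 = 1 ∨ n % 3 = 2) with h1 | h1
  · apply S_prim hq.star.prim
    rw [prim_iff]
    constructor
    · simp; omega
    · simp
  · rw [← S_neg_right hn0']
    apply S_prim hq.star.prim
    rw [prim_iff]
    constructor
    · simp; omega
    · simp

/-- evaluation of the difference by congruences modulo 9 -/
lemma TS_congr {X1 X2 A Y ε r : Cub E (p : E)} {i : ℕ} {n : ℤ} (hX : X1 = ε * r ^ 3 * X2)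
    (hε : nrm ε = 1) (hY : X1 = C (3 ^ i) * Y) (ha : (9 : E) ∣ Y.a - n * X2.a)
    (hb : (9 : E) ∣ Y.b - n * X2.b) (n1 : nrm X1 ≠ 0) (n2 : nrm X2 ≠ 0) (nA : nrm A ≠ 0)
    (hn : ¬ (3 : ℤ) ∣ n) (lb : ¬ lam ∣ X2.b) (ld : ¬ lam ∣ dl X2 A)
    (hA3 : S (nrm A) ((3 : ℤ) : E) = 0) (hAn : S (nrm A) (n : E) = 0) :
    TS X1 A = TS X2 A := by
  have hn0 : (n : E) ≠ 0 := by
    have : n ≠ 0 := by rintro rfl; exact hn (dvd_zero _)
    exact_mod_cast this
  have hln : ¬ lam ∣ (n : E) := by rw [lam_dvd_iff]; simpa using hn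
  have h9 : lam ∣ (9 : E) := by
    have : (9 : E) = 3 * 3 := by norm_num
    rw [this]; exact lam_dvd_three.mul_right _
  have h30 : (3 : E) ^ i ≠ 0 := pow_ne_zero _ three_ne_zero'
  have hlb : ¬ lam ∣ (n : E) * X2.b := fun h' => (prime_lam.dvd_or_dvd h').elim hln lb
  have hld : ¬ lam ∣ (n : E) * dl X2 A := fun h' => (prime_lam.dvd_or_dvd h').elim hln ld
  have hd9 : (9 : E) ∣ dl Y A - n * dl X2 A := by
    obtain ⟨k, hk⟩ := ha
    obtain ⟨l, hl⟩ := hb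
    exact ⟨A.b * k - A.a * l, by rw [dl, dl]; linear_combination A.b * hk - A.a * hl⟩
  have hYb : ¬ lam ∣ Y.b := fun h' => hlb (by
    have := dvd_sub h' (h9.trans hb); simpa using this)
  have hYd : ¬ lam ∣ dl Y A := fun h' => hld (by
    have := dvd_sub h' (h9.trans hd9); simpa using this)
  have eb : X1.b = 3 ^ i * Y.b := by rw [hY, C_mul_b]
  have ed : dl X1 A = 3 ^ i * dl Y A := by rw [dl, dl, hY, C_mul_a, C_mul_b]; ring
  have ne0 : ∀ x : E, ¬ lam ∣ x → x ≠ 0 := fun x hx h0 => hx (h0 ▸ dvd_zero _)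
  have f : ∀ x y z : E, x ≠ 0 → ¬ lam ∣ y → ¬ lam ∣ z → (9 : E) ∣ y - n * z →
      S x (3 ^ i * y) = S x (3 ^ i) + S x n + S x z := by
    intro x y z hx hy hz hyz
    have hnz : ¬ lam ∣ (n : E) * z := fun h' => (prime_lam.dvd_or_dvd h').elim hln hz
    rw [S_mul_right h30 (ne0 y hy) hx, S_congr hx hy hnz hyz, S_mul_right hn0 (ne0 z hz) hx]
    ring
  have g : ∀ y, y ≠ 0 → S (nrm X1) y = S (nrm X2) y := by
    intro y hy
    have hr : nrm r ≠ 0 := by
      intro h0; apply n1; rw [hX, nrm_mul, nrm_mul, nrm_pow, h0]; ring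
    rw [hX, nrm_mul, nrm_mul, nrm_pow, hε, one_mul, S_mul_left (pow_ne_zero 3 hr) n2 hy,
      S_cube_left hr hy, zero_add]
  have h3i : S (nrm A) (3 ^ i) = 0 := by
    rw [S_pow_right three_ne_zero' nA]
    have e : ((3 : ℤ) : E) = 3 := by norm_num
    rw [e] at hA3
    rw [hA3, mul_zero]
  unfold TS
  rw [g _ (by rw [ed]; exact mul_ne_zero h30 (ne0 _ hYd)), g _ (by rw [eb]; exact mul_ne_zero h30 (ne0 _ hYb)),
    ed, eb, f _ _ _ n2 hYd ld hd9, f _ _ _ n2 hYb lb hb, f _ _ _ nA hYd ld hd9, h3i, hAn]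
  ring

end

end Pool.Agent.LibEis
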