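import Pool.Agent.LibEis.Recip

/-! The product formula for the tame symbols of `ℤ[ω]`. -/

namespace Pool.Agent.LibEis

open scoped QuadraticAlgebra

/-- the type of primary primes -/
abbrev PPs : Type := {w : E // PP w}

lemma finite_nm_le (B : ℤ) : {z : E | nm z ≤ B}.Finite := by
  have h : {z : E | nm z ≤ B} ⊆
      (fun ab : ℤ × ℤ => (⟨ab.1, ab.2⟩ : E)) '' (Set.Icc (-(2 * |B|+1)) (2 * |B|+1) ×ˢ Set.Icc (-(2 * |B|+1)) (2 * |B|+1)) := by
    intro z hz
    have hz' : nm z ≤ B := hz
    refine ⟨(z.re, z.im), ?_, rfl⟩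
    have h4 := four_nm z
    have h4' : 4 * nm z = (2 * z.im - z.re) ^ 2 + 3 * z.re ^ 2 := by simp only [nm]; ring
    have hB : B ≤ |B| := le_abs_self B
    have hB0 : 0 ≤ |B| := abs_nonneg B
    have h5 : z.im ^ 2 ≤ (2 * |B| + 1) ^ 2 := by nlinarith [sq_nonneg (2 * z.re - z.im)]
    have h6 : z.re ^ 2 ≤ (2 * |B| + 1) ^ 2 := by nlinarith [sq_nonneg (2 * z.im - z.re)]
    have h7 := abs_le_of_sq_le_sq' h5 (by positivity)
    have h8 := abs_le_of_sq_le_sq' h6 (by positivity)
    exact ⟨⟨h8.1, h8.2⟩, ⟨h7.1, h7.2⟩⟩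
  exact Set.Finite.subset (((Set.finite_Icc _ _).prod (Set.finite_Icc _ _)).image _) h

lemma nm_le_of_dvd {a b : E} (hb : b ≠ 0) (h : a ∣ b) : nm a ≤ nm b := by
  obtain ⟨k, rfl⟩ := h
  have hk : k ≠ 0 := fun h0 => hb (by rw [h0, mul_zero])
  have h1 := nm_pos hk
  have h2 := nm_nonneg a
  rw [nm_mul]; nlinarith

lemma finite_dvd {x : E} (hx : x ≠ 0) : {w : PPs | w.1 ∣ x}.Finite := by
  have h := finite_nm_le (nm x)
  have h2 : (Subtype.val ⁻¹' {z : E | nm z ≤ nm x} : Set PPs).Finite :=
    h.preimage Subtype.val_injective.injOn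
  exact h2.subset fun w hw => nm_le_of_dvd hx hw

lemma support_s {a b : E} (ha : a ≠ 0) (hb : b ≠ 0) :
    (Function.support fun w : PPs => s w.1 a b).Finite := by
  refine ((finite_dvd ha).union (finite_dvd hb)).subset ?_
  intro w hw
  by_contra h
  simp only [Set.mem_union, Set.mem_ofPred_eq, not_or] at h
  exact hw (s_unit_unit w.2 h.1 h.2)

/-- the sum of all tame symbols outside 3 -/
noncomputable def S (a b : E) : ZMod 3 := ∑ᶠ w : PPs, s w.1 a b

lemma S_mul_left {a b x : E} (ha : a ≠ 0) (hb : b ≠ 0) (hx : x ≠ 0) :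
    S (a * b) x = S a x + S b x := by
  unfold S
  rw [← finsum_add_distrib (support_s ha hx) (support_s hb hx)]
  exact finsum_congr fun w => s_mul_left w.2 x ha hb

lemma S_swap (a b : E) : S b a = - S a b := by
  unfold S
  rw [← finsum_neg_distrib]
  exact finsum_congr fun w => s_swap a b

lemma S_mul_right {a b x : E} (ha : a ≠ 0) (hb : b ≠ 0) (hx : x ≠ 0) :
    S x (a * b) = S x a + S x b := by
  rw [S_swap (a * b) x, S_mul_left ha hb hx, S_swap a x, S_swap b x]; ring

lemma S_self (a : E) : S a a = 0 := by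
  unfold S
  rw [finsum_congr fun w => s_self a]; exact finsum_zero

lemma S_neg_left {a x : E} (ha : a ≠ 0) : S (-a) x = S a x := by
  unfold S
  exact finsum_congr fun w => s_neg_left w.2 x ha

lemma S_neg_right {a x : E} (ha : a ≠ 0) : S x (-a) = S x a := by
  unfold S
  exact finsum_congr fun w => s_neg_right w.2 x ha

lemma S_steinberg {x y z : E} (hx : x ≠ 0) (hy : y ≠ 0) (hz : z ≠ 0) (h : x - y = z) :
    S x y = S x z + S z y := by
  unfold S
  rw [← finsum_add_distrib (support_s hx hz) (support_s hz hy)]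
  exact finsum_congr fun w => steinberg w.2 hx hy hz h

/-- conjugation on the primary primes -/
noncomputable def starPPs : PPs ≃ PPs where
  toFun w := ⟨star w.1, w.2.star⟩
  invFun w := ⟨star w.1, w.2.star⟩
  left_inv w := by ext1; simp
  right_inv w := by ext1; simp

lemma S_star {a b : E} (ha : a ≠ 0) (hb : b ≠ 0) : S (star a) (star b) = - S a b := by
  unfold S
  rw [← finsum_comp_equiv starPPs, ← finsum_neg_distrib]
  exact finsum_congr fun w => s_star w.2 ha hb

lemma star_int (n : ℤ) : star (n : E) = n := by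
  ext <;> simp

lemma S_int {a b : ℤ} (ha : a ≠ 0) (hb : b ≠ 0) : S (a : E) (b : E) = 0 := by
  have h := S_star (a := (a : E)) (b := (b : E)) (by exact_mod_cast ha) (by exact_mod_cast hb)
  rw [star_int, star_int] at h
  revert h
  generalize S (a : E) (b : E) = t
  revert t; decide

lemma S_one_left (x : E) : S 1 x = 0 := by
  unfold S
  rw [finsum_congr fun w : PPs => show s w.1 1 x = 0 by
    unfold s; rw [v_one w.2, c_one w.2]; simp]
  exact finsum_zero

lemma S_one_right (x : E) : S x 1 = 0 := by rw [S_swap 1 x, S_one_left, neg_zero]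

lemma S_pow_left {a x : E} (ha : a ≠ 0) (hx : x ≠ 0) (n : ℕ) : S (a ^ n) x = n * S a x := by
  induction n with
  | zero => simp [S_one_left]
  | succ n ih => rw [pow_succ, S_mul_left (pow_ne_zero _ ha) ha hx, ih]; push_cast; ring

lemma S_pow_right {a x : E} (ha : a ≠ 0) (hx : x ≠ 0) (n : ℕ) : S x (a ^ n) = n * S x a := by
  rw [S_swap (a ^ n) x, S_pow_left ha hx, S_swap a x]; ring

/-- evaluation for two distinct primary primes -/
lemma S_PP {q k : E} (hq : PP q) (hk : PP k) (hne : q ≠ k) : S q k = c k q - c q k := by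
  classical
  have hqk : ¬ q ∣ k := fun h => hne (hk.eq_of_dvd hq h)
  have hkq : ¬ k ∣ q := fun h => hne (hq.eq_of_dvd hk h).symm
  unfold S
  rw [finsum_eq_sum_of_support_subset (s := {⟨q, hq⟩, ⟨k, hk⟩})]
  · rw [Finset.sum_pair (by intro h; exact hne (congrArg Subtype.val h))]
    have hvq : v q q = 1 := by
      have := (vc_eq hq (x := q) (y := 1) (k := 1) (by ring) hq.prime.not_dvd_one).1
      exact this
    have hvk : v k k = 1 := by
      have := (vc_eq hk (x := k) (y := 1) (k := 1) (by ring) hk.prime.not_dvd_one).1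
      exact this
    have h1 : v q k = 0 := (v_eq_zero_iff hq hk.prime.ne_zero).mpr hqk
    have h2 : v k q = 0 := (v_eq_zero_iff hk hq.prime.ne_zero).mpr hkq
    simp only [s, hvq, hvk, h1, h2]
    push_cast; ring
  · intro w hw
    simp only [Finset.coe_insert, Finset.coe_singleton, Set.mem_insert_iff, Set.mem_singleton_iff]
    by_contra h
    push Not at h
    apply hw
    apply s_unit_unit w.2
    · intro h1; exact h.1 (Subtype.ext (hq.eq_of_dvd w.2 h1))
    · intro h1; exact h.2 (Subtype.ext (hk.eq_of_dvd w.2 h1))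

lemma S_om_right {q : E} (hq : PP q) : S q om = - (ex q : ZMod 3) := by
  classical
  unfold S
  rw [finsum_eq_sum_of_support_subset (s := {⟨q, hq⟩})]
  · rw [Finset.sum_singleton]
    have hvq : v q q = 1 := by
      have := (vc_eq hq (x := q) (y := 1) (k := 1) (by ring) hq.prime.not_dvd_one).1
      exact this
    have h1 : ¬ q ∣ om := fun h => hq.prime.not_isUnit (isUnit_of_dvd_unit h isUnit_om)
    have h2 : v q om = 0 := (v_eq_zero_iff hq (isUnit_om.ne_zero)).mpr h1
    simp only [s, hvq, h2, c_unit hq h1, cF_om hq]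
    push_cast; ring
  · intro w hw
    simp only [Finset.coe_singleton, Set.mem_singleton_iff]
    by_contra h
    apply hw
    apply s_unit_unit w.2
    · intro h1; exact h (Subtype.ext (hq.eq_of_dvd w.2 h1))
    · intro h1; exact w.2.prime.not_isUnit (isUnit_of_dvd_unit h1 isUnit_om)

/-- factorization of elements prime to `1 - ω` -/
lemma exists_factor {y : E} (hy : ¬ lam ∣ y) :
    ∃ (u : E) (m : Multiset E), IsUnit u ∧ (∀ k ∈ m, PP k) ∧ y = u * m.prod := by
  induction y using UniqueFactorizationMonoid.induction_on_prime with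
  | h₁ => exact absurd (dvd_zero _) hy
  | h₂ u hu => exact ⟨u, 0, hu, by simp, by simp⟩
  | h₃ a p ha hp ih =>
    have h1 : ¬ lam ∣ a := fun h => hy (h.mul_left p)
    have h2 : ¬ lam ∣ p := fun h => hy (h.mul_right a)
    obtain ⟨u, m, hu, hm, hprod⟩ := ih h1
    obtain ⟨s, j, hs, hj, hprim⟩ := exists_unit_mod_three h2
    have hsu : IsUnit s := by rcases hs with rfl | rfl
                              · exact isUnit_one
                              · exact isUnit_one.neg
    have hunit : IsUnit (s * om ^ j) := hsu.mul (isUnit_om.pow j)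
    obtain ⟨w, hw⟩ := hunit
    have hPP : PP (s * om ^ j * p) := by
      refine ⟨?_, hprim⟩
      rw [← hw]
      exact (Associated.prime ⟨w, by rw [mul_comm]⟩ hp)
    refine ⟨u * ↑w⁻¹, (s * om ^ j * p) ::ₘ m, hu.mul (Units.isUnit _), ?_, ?_⟩
    · intro k hk
      rcases Multiset.mem_cons.mp hk with rfl | hk
      · exact hPP
      · exact hm k hk
    · rw [Multiset.prod_cons, hprod, ← hw]
      have : (↑w⁻¹ : E) * (w : E) = 1 := Units.inv_mul w
      linear_combination (-(p * u * m.prod)) * this

lemma prim_prod {m : Multiset E} (hm : ∀ k ∈ m, PP k) : Prim m.prod := by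
  induction m using Multiset.induction_on with
  | empty => simpa using prim_one
  | cons a m ih =>
    rw [Multiset.prod_cons]
    exact (hm a (Multiset.mem_cons_self a m)).prim.mul
      (ih fun k hk => hm k (Multiset.mem_cons_of_mem hk))

lemma prod_ne_zero {m : Multiset E} (hm : ∀ k ∈ m, PP k) : m.prod ≠ 0 := by
  intro h
  exact (prim_prod hm).not_lam (h ▸ dvd_zero _)

/-- factorization of primary elements -/
lemma exists_factor_prim {y : E} (hy : Prim y) :
    ∃ m : Multiset E, (∀ k ∈ m, PP k) ∧ y = m.prod := by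
  obtain ⟨u, m, hu, hm, hprod⟩ := exists_factor hy.not_lam
  have h1 := prim_prod hm
  have h2 : Prim u := by
    obtain ⟨a, ha⟩ := hy
    obtain ⟨b, hb⟩ := h1
    exact ⟨a - b * u, by linear_combination ha - u * hb - hprod⟩
  have h3 := prim_unit hu h2
  exact ⟨m, hm, by rw [hprod, h3, one_mul]⟩

lemma S_prod_right {x : E} (hx : x ≠ 0) {m : Multiset E} (hm : ∀ k ∈ m, PP k)
    (h : ∀ k ∈ m, S x k = 0) : S x m.prod = 0 := by
  induction m using Multiset.induction_on with
  | empty => simp [S_one_right]
  | cons a m ih =>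
    have hm' : ∀ k ∈ m, PP k := fun k hk => hm k (Multiset.mem_cons_of_mem hk)
    rw [Multiset.prod_cons, S_mul_right (hm a (Multiset.mem_cons_self a m)).prime.ne_zero
      (prod_ne_zero hm') hx, h a (Multiset.mem_cons_self a m),
      ih hm' fun k hk => h k (Multiset.mem_cons_of_mem hk), add_zero]

/-- the remaining case of reciprocity -/
lemma recip_star {q : E} (hq : PP q) (hne : q ≠ star q) : S (star q) q = 0 := by
  -- T = q + star q
  set T : E := q + star q with hT
  have hTstar : star T = T := by rw [hT, star_add, star_star, add_comm]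
  have hqs : ¬ q ∣ star q := fun h => hne (hq.star.eq_of_dvd hq h)
  have hT0 : T ≠ 0 := by
    intro h0
    apply hqs
    have : star q = q * (-1) := by rw [hT] at h0; linear_combination h0
    exact ⟨-1, this⟩
  have hTprim : Prim (-T) := by
    obtain ⟨a, ha⟩ := hq.prim
    obtain ⟨b, hb⟩ := hq.star.prim
    exact ⟨-a - b - 1, by rw [hT]; linear_combination -ha - hb⟩
  have hmain : S q (-T) = 0 := by
    obtain ⟨m, hm, hprod⟩ := exists_factor_prim hTprim
    rw [hprod]
    apply S_prod_right hq.prime.ne_zero hm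
    intro k hk
    have hkT : k ∣ T := by
      rw [← dvd_neg, hprod]; exact Multiset.dvd_prod hk
    have hkPP := hm k hk
    have hkN : ¬ k ∣ (N q : E) := by
      rw [N_cast_eq]
      intro h
      rcases hkPP.prime.dvd_or_dvd h with h1 | h1
      · have h2 : k ∣ star q := by
          have : star q = T - q := by rw [hT]; ring
          rw [this]; exact dvd_sub hkT h1
        have h3 := hq.eq_of_dvd hkPP h1
        have h4 := hq.star.eq_of_dvd hkPP h2
        exact hne (h3.symm.trans h4)
      · have h2 : k ∣ q := by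
          have : q = T - star q := by rw [hT]; ring
          rw [this]; exact dvd_sub hkT h1
        have h3 := hq.eq_of_dvd hkPP h2
        have h4 := hq.star.eq_of_dvd hkPP h1
        exact hne (h3.symm.trans h4)
    have hqk : q ≠ k := by
      rintro rfl
      exact hkN (N_cast_mem q)
    rw [S_PP hq hkPP hqk, recip1 hq hkPP hkN, sub_self]
  rw [S_neg_right hT0] at hmain
  have h1 : S T q = S T (star q) + S (star q) q :=
    S_steinberg hT0 hq.prime.ne_zero hq.star.prime.ne_zero (by rw [hT]; ring)
  have h2 : S T (star q) = - S T q := by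
    have := S_star hT0 hq.prime.ne_zero
    rwa [hTstar] at this
  have h3 : S T q = 0 := by rw [S_swap q T, hmain, neg_zero]
  rw [h2, h3] at h1
  simpa using h1.symm

lemma S_PP_zero {q k : E} (hq : PP q) (hk : PP k) : S q k = 0 := by
  by_cases hne : q = k
  · rw [hne]; exact S_self k
  by_cases h : k ∣ (N q : E)
  · rw [N_cast_eq] at h
    rcases hk.prime.dvd_or_dvd h with h1 | h1
    · exact absurd (hq.eq_of_dvd hk h1).symm hne
    · have h2 := hq.star.eq_of_dvd hk h1
      have h3 : q = star k := by rw [h2, star_star]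
      rw [h3]
      exact recip_star hk (by rintro h4; exact hne (h3.trans h4.symm))
  · rw [S_PP hq hk hne, recip1 hq hk h, sub_self]

/-- cubic reciprocity for primary elements -/
theorem S_prim {x y : E} (hx : Prim x) (hy : Prim y) : S x y = 0 := by
  obtain ⟨m, hm, rfl⟩ := exists_factor_prim hx
  obtain ⟨n, hn, rfl⟩ := exists_factor_prim hy
  apply S_prod_right (prod_ne_zero hm) hn
  intro k hk
  rw [S_swap k, neg_eq_zero]
  apply S_prod_right (hn k hk).prime.ne_zero hm
  intro l hl
  exact S_PP_zero (hn k hk) (hm l hl)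

end Pool.Agent.LibEis
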