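import Pool.Agent.LibEis.Cub

/-! The automorphism `σ : θ ↦ ω θ` and explicit Hilbert 90 in `ℤ[ω][θ]`. -/

namespace Pool.Agent.LibEis

open scoped QuadraticAlgebra

lemma om_rel' : om ^ 2 + om + 1 = 0 := by have := om_rel; linear_combination this

namespace Cub

/-- primitive element -/
def Prm {P : E} (z : Cub E P) : Prop := ∃ r s t : E, r * z.a + s * z.b + t * z.c = 1

section
variable {P : E}

/-- `σ` -/
def sig : Cub E P →+* Cub E P where
  toFun z := ⟨z.a, om * z.b, om ^ 2 * z.c⟩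
  map_one' := Cub.ext rfl (by simp) (by simp)
  map_mul' x y := by
    have h := om_rel'
    refine Cub.ext ?_ ?_ ?_
    · simp only [mul_a]
      linear_combination (-P * om * x.b * y.c - P * om * x.c * y.b + P * x.b * y.c + P * x.c * y.b) * h
    · simp only [mul_b]
      linear_combination (P * om * x.c * y.c - P * om ^ 2 * x.c * y.c) * h
    · simp only [mul_c]; ring
  map_zero' := Cub.ext rfl (by simp) (by simp)
  map_add' x y := by
    refine Cub.ext rfl ?_ ?_
    · simp only [add_b]; ring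
    · simp only [add_c]; ring

@[simp] lemma sig_a (z : Cub E P) : (sig z).a = z.a := rfl
@[simp] lemma sig_b (z : Cub E P) : (sig z).b = om * z.b := rfl
@[simp] lemma sig_c (z : Cub E P) : (sig z).c = om ^ 2 * z.c := rfl

lemma sig_C (r : E) : sig (C r : Cub E P) = C r :=
  Cub.ext rfl (by simp) (by simp)

lemma sig_sig_sig (z : Cub E P) : sig (sig (sig z)) = z := by
  have h := om_rel'
  refine Cub.ext rfl ?_ ?_
  · simp only [sig_b]; linear_combination (om * z.b - z.b) * h
  · simp only [sig_c]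
    linear_combination (om * z.c - om ^ 3 * z.c + om ^ 4 * z.c - z.c) * h

lemma adj_eq (z : Cub E P) : adj z = sig z * sig (sig z) := by
  have h := om_rel'
  refine Cub.ext ?_ ?_ ?_
  · simp only [adj, mul_a, sig_a, sig_b, sig_c]
    linear_combination (P * om * z.b * z.c - P * om ^ 3 * z.b * z.c - P * z.b * z.c) * h
  · simp only [adj, mul_b, sig_a, sig_b, sig_c]
    linear_combination (-P * om * z.c ^ 2 + P * om ^ 3 * z.c ^ 2 - P * om ^ 4 * z.c ^ 2 + P * z.c ^ 2 - z.a * z.b) * h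
  · simp only [adj, mul_c, sig_a, sig_b, sig_c]
    linear_combination (om * z.a * z.c - om * z.b ^ 2 - om ^ 2 * z.a * z.c - z.a * z.c + z.b ^ 2) * h

lemma mul_conj (z : Cub E P) : z * (sig z * sig (sig z)) = C (nrm z) := by
  rw [← adj_eq, mul_adj]

lemma nrm_sig (z : Cub E P) : nrm (sig z) = nrm z := by
  have h := om_cube
  simp only [nrm, sig_a, sig_b, sig_c]
  linear_combination (P * z.b ^ 3 + P ^ 2 * z.c ^ 3 * (om ^ 3 + 1) - 3 * P * z.a * z.b * z.c) * h

lemma om_sub_one_ne : om - 1 ≠ 0 := sub_ne_zero.mpr om_ne_one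

lemma om_sq_sub_one_ne : om ^ 2 - 1 ≠ 0 := by
  intro h0
  have := om_pow_inj (i := 2) (j := 0) (by rw [pow_zero]; linear_combination h0)
  revert this; decide

/-- fixed points of `σ` -/
lemma sig_fixed {z : Cub E P} (h : sig z = z) : z = C z.a := by
  have hb := congrArg Cub.b h
  have hc := congrArg Cub.c h
  simp only [sig_b, sig_c] at hb hc
  refine Cub.ext rfl ?_ ?_
  · have : (om - 1) * z.b = 0 := by linear_combination hb
    exact (mul_eq_zero.mp this).resolve_left om_sub_one_ne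
  · have : (om ^ 2 - 1) * z.c = 0 := by linear_combination hc
    exact (mul_eq_zero.mp this).resolve_left om_sq_sub_one_ne

/-- The explicit Hilbert 90 element: `c σ(α) = β α` when `nrm β = c ^ 3`. -/
def hil (c : E) (β : Cub E P) : Cub E P :=
  ⟨(β.a - c * om) * (β.a - c * om ^ 2) - P * β.b * β.c,
   P * β.c ^ 2 - β.b * (β.a - c * om ^ 2),
   β.b ^ 2 - β.c * (β.a - c * om)⟩

lemma hil_spec {c : E} {β : Cub E P} (h : nrm β = c ^ 3) :
    C c * sig (hil c β) = β * hil c β := by
  have h1 := om_rel'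
  rw [nrm] at h
  refine Cub.ext ?_ ?_ ?_
  · simp only [mul_a, sig_a, sig_b, sig_c, C_a, C_b, C_c, hil]
    linear_combination (-1 : E) * h + (-P * c * β.b * β.c + c * β.a ^ 2 - c ^ 2 * om * β.a - c ^ 3 + c ^ 3 * om) * h1
  · simp only [mul_b, sig_a, sig_b, sig_c, C_a, C_b, C_c, hil]
    ring
  · simp only [mul_c, sig_a, sig_b, sig_c, C_a, C_b, C_c, hil]
    ring

lemma C_mul_a (r : E) (z : Cub E P) : (C r * z).a = r * z.a := by rw [C_mul_eq]
lemma C_mul_b (r : E) (z : Cub E P) : (C r * z).b = r * z.b := by rw [C_mul_eq]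
lemma C_mul_c (r : E) (z : Cub E P) : (C r * z).c = r * z.c := by rw [C_mul_eq]

/-- primitive part -/
lemma exists_prm {z : Cub E P} (hz : z ≠ 0) : ∃ (g : E) (z' : Cub E P), g ≠ 0 ∧ z = C g * z' ∧ Prm z' := by
  -- generator of the ideal (a, b, c)
  obtain ⟨g, hg⟩ := (IsPrincipalIdealRing.principal (Ideal.span ({z.a, z.b, z.c} : Set E))).principal
  have hmem : ∀ x ∈ ({z.a, z.b, z.c} : Set E), g ∣ x := by
    intro x hx
    have h1 : x ∈ Ideal.span ({z.a, z.b, z.c} : Set E) := Ideal.subset_span hx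
    rw [hg] at h1
    exact Ideal.mem_span_singleton.mp h1
  obtain ⟨a, ha⟩ := hmem z.a (by simp)
  obtain ⟨b, hb⟩ := hmem z.b (by simp)
  obtain ⟨c, hc⟩ := hmem z.c (by simp)
  have hg0 : g ≠ 0 := by
    rintro rfl
    apply hz
    exact Cub.ext (by rw [ha]; simp) (by rw [hb]; simp) (by rw [hc]; simp)
  refine ⟨g, ⟨a, b, c⟩, hg0, ?_, ?_⟩
  · exact Cub.ext (by rw [C_mul_a, ha]) (by rw [C_mul_b, hb]) (by rw [C_mul_c, hc])
  · have h2 : g ∈ Ideal.span ({z.a, z.b, z.c} : Set E) := by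
      rw [hg]; exact Ideal.mem_span_singleton_self g
    rw [Ideal.mem_span_insert] at h2
    obtain ⟨r, w, hw, h3⟩ := h2
    rw [Ideal.mem_span_insert] at hw
    obtain ⟨s, w', hw', h4⟩ := hw
    rw [Ideal.mem_span_singleton] at hw'
    obtain ⟨t, ht⟩ := hw'
    refine ⟨r, s, t, ?_⟩
    apply mul_left_cancel₀ hg0
    simp only
    linear_combination (-1 : E) * h3 - h4 - ht - r * ha - s * hb - t * hc

lemma Prm.ne_zero {z : Cub E P} (h : Prm z) : z ≠ 0 := by
  rintro rfl
  obtain ⟨r, s, t, h⟩ := h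
  simp at h

lemma Prm.dvd {z : Cub E P} (h : Prm z) {k e : E} (ha : k ∣ e * z.a) (hb : k ∣ e * z.b)
    (hc : k ∣ e * z.c) : k ∣ e := by
  obtain ⟨r, s, t, h⟩ := h
  have : e = r * (e * z.a) + s * (e * z.b) + t * (e * z.c) := by linear_combination (-e) * h
  rw [this]
  exact dvd_add (dvd_add (ha.mul_left r) (hb.mul_left s)) (hc.mul_left t)

lemma Prm.not_all {z : Cub E P} (h : Prm z) {k : E} (hk : ¬ IsUnit k) (ha : k ∣ z.a) (hb : k ∣ z.b) :
    ¬ k ∣ z.c := by
  intro hc
  obtain ⟨r, s, t, h⟩ := h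
  apply hk
  apply isUnit_of_dvd_one
  rw [← h]
  exact dvd_add (dvd_add (ha.mul_left r) (hb.mul_left s)) (hc.mul_left t)

/-- uniqueness in Hilbert 90 -/
lemma unique_of_prm {β α α' : Cub E P} (hα : Prm α) (hN : nrm α ≠ 0) (h : sig α = β * α)
    (h' : sig α' = β * α') : ∃ f : E, α' = C f * α := by
  have h1 : sig (α' * (sig α * sig (sig α))) = α' * (sig α * sig (sig α)) := by
    rw [map_mul, map_mul, sig_sig_sig, h', h, map_mul, h]; ring
  have h2 := sig_fixed h1
  set e := (α' * (sig α * sig (sig α))).a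
  have h3 : C (nrm α) * α' = C e * α := by
    rw [← h2, ← mul_conj]; ring
  have h4 : nrm α ∣ e := by
    apply hα.dvd
    · exact ⟨α'.a, by rw [← C_mul_a, ← h3, C_mul_a]⟩
    · exact ⟨α'.b, by rw [← C_mul_b, ← h3, C_mul_b]⟩
    · exact ⟨α'.c, by rw [← C_mul_c, ← h3, C_mul_c]⟩
  obtain ⟨f, hf⟩ := h4
  refine ⟨f, ?_⟩
  refine Cub.ext ?_ ?_ ?_
  · apply mul_left_cancel₀ hN
    rw [← C_mul_a, h3, hf, C_mul_a, C_mul_a]; ring
  · apply mul_left_cancel₀ hN
    rw [← C_mul_b, h3, hf, C_mul_b, C_mul_b]; ring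
  · apply mul_left_cancel₀ hN
    rw [← C_mul_c, h3, hf, C_mul_c, C_mul_c]; ring

/-- traces: `α` divides `3 u`, `3 v θ`, `3 w θ ^ 2`. -/
lemma nrm_dvd_27 {β α : Cub E P} (h : sig α = β * α) :
    nrm α ∣ 27 * α.a ^ 3 ∧ nrm α ∣ 27 * P * α.b ^ 3 ∧ nrm α ∣ 27 * P ^ 2 * α.c ^ 3 := by
  have h1 := om_rel'
  have hs2 : sig (sig α) = sig β * β * α := by rw [h, map_mul, h]; ring
  refine ⟨?_, ?_, ?_⟩
  · have e : C (3 * α.a) = α * (1 + β + sig β * β) := by
      have : C (3 * α.a) = α + sig α + sig (sig α) := by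
        refine Cub.ext ?_ ?_ ?_
        · simp only [C_a, add_a, sig_a]; ring
        · simp only [C_b, add_b, sig_b]; linear_combination (-α.b) * h1
        · simp only [C_c, add_c, sig_c]; linear_combination (-α.c * (om ^ 2 - om + 1)) * h1
      rw [this, hs2, h]; ring
    refine ⟨nrm (1 + β + sig β * β), ?_⟩
    rw [← nrm_mul, ← e, nrm_C]; ring
  · have e : C (3 * α.b) * th = α * (1 + C (om ^ 2) * β + C om * (sig β * β)) := by
      have : C (3 * α.b) * th = α + C (om ^ 2) * sig α + C om * sig (sig α) := by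
        refine Cub.ext ?_ ?_ ?_
        · simp only [add_a, C_mul_a, sig_a, th]; linear_combination (-α.a) * h1
        · simp only [add_b, C_mul_b, sig_b, th]
          linear_combination (-2 * α.b * (om - 1)) * h1
        · simp only [add_c, C_mul_c, sig_c, th]
          linear_combination (-α.c * (om ^ 3 - om + 1)) * h1
      rw [this, hs2, h]; ring
    refine ⟨nrm (1 + C (om ^ 2) * β + C om * (sig β * β)), ?_⟩
    rw [← nrm_mul, ← e, nrm_mul, nrm_C]
    simp only [nrm, th]; ring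
  · have e : C (3 * α.c) * th ^ 2 = α * (1 + C om * β + C (om ^ 2) * (sig β * β)) := by
      have hth : (th : Cub E P) ^ 2 = ⟨0, 0, 1⟩ := by
        rw [pow_two]; exact Cub.ext (by simp [th]) (by simp [th]) (by simp [th])
      have : C (3 * α.c) * th ^ 2 = α + C om * sig α + C (om ^ 2) * sig (sig α) := by
        rw [hth]
        refine Cub.ext ?_ ?_ ?_
        · simp only [add_a, C_mul_a, sig_a]; linear_combination (-α.a) * h1
        · simp only [add_b, C_mul_b, sig_b]
          linear_combination (-α.b * (om ^ 2 - om + 1)) * h1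
        · simp only [add_c, C_mul_c, sig_c]
          linear_combination (-α.c * (om ^ 4 - om ^ 3 + 2 * om - 2)) * h1
      rw [this, hs2, h]; ring
    refine ⟨nrm (1 + C om * β + C (om ^ 2) * (sig β * β)), ?_⟩
    rw [← nrm_mul, ← e, nrm_mul, nrm_C, nrm_pow]
    simp only [nrm, th]; ring

end
end Cub

end Pool.Agent.LibEis
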