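import Pool.Agent.LibEis.Conj

/-! The cubic character as a multiplicative character, and its Jacobi sum. -/

namespace Pool.Agent.LibEis

open scoped QuadraticAlgebra

section

variable {q : E}

lemma ex_pos (h : PP q) : 0 < ex q := by
  have h1 := N_eq h
  have h2 : N q ≠ 1 := by
    intro h3
    apply h.prime.not_isUnit
    rw [isUnit_iff_nm]
    have := nm_nonneg q
    unfold N at h3; omega
  omega

/-- the cubic residue character with values in `ℤ[ω]` -/
noncomputable def chi (h : PP q) : MulChar (Fq q) E where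
  toFun a := open Classical in if a = 0 then 0 else om ^ (cF q a).val
  map_one' := by
    let _ := fieldFq h
    rw [if_neg one_ne_zero, cF_one h]; rfl
  map_mul' a b := by
    let _ := fieldFq h
    by_cases ha : a = 0
    · simp [ha]
    by_cases hb : b = 0
    · simp [hb]
    rw [if_neg (mul_ne_zero ha hb), if_neg ha, if_neg hb, cF_mul h ha hb, ← pow_add,
      om_pow_eq ((cF q a).val + (cF q b).val), ZMod.val_add]
  map_nonunit' a ha := by
    let _ := fieldFq h
    have : a = 0 := by
      by_contra h0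
      exact ha (isUnit_iff_ne_zero.mpr h0)
    rw [if_pos this]

lemma chi_apply (h : PP q) {a : Fq q} (ha : a ≠ 0) : chi h a = om ^ (cF q a).val := by
  show (open Classical in if a = 0 then 0 else om ^ (cF q a).val) = _
  rw [if_neg ha]

lemma chi_zero (h : PP q) : chi h 0 = 0 := by
  show (open Classical in if (0 : Fq q) = 0 then 0 else om ^ (cF q (0 : Fq q)).val) = _
  rw [if_pos rfl]

lemma red_chi (h : PP q) (a : Fq q) : red q (chi h a) = a ^ ex q := by
  by_cases ha : a = 0
  · rw [ha, chi_zero, map_zero, zero_pow (ex_pos h).ne']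
  · rw [chi_apply h ha, map_pow, cF_spec h ha]

lemma chi_neg_one (h : PP q) : chi h (-1) = 1 := by
  let _ := fieldFq h
  rw [chi_apply h (neg_ne_zero.mpr one_ne_zero), cF_neg_one h]; rfl

lemma chi_pow_three (h : PP q) : chi h ^ 3 = 1 := by
  let _ := fieldFq h
  apply MulChar.ext
  intro a
  rw [MulChar.pow_apply' _ (by norm_num), MulChar.one_apply_coe, chi_apply h a.ne_zero, ← pow_mul,
    mul_comm, pow_mul, om_cube, one_pow]

lemma om_ne_one : om ≠ 1 := by
  intro h
  have := congrArg QuadraticAlgebra.im h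
  simp [om] at this

lemma om_primitive : IsPrimitiveRoot om 3 := by
  have : Fact (Nat.Prime 3) := ⟨by norm_num⟩
  exact IsPrimitiveRoot.iff_orderOf.mpr (orderOf_eq_prime om_cube om_ne_one)

lemma om_pow_inj {i j : ℕ} (hij : om ^ i = om ^ j) : (i : ZMod 3) = j := by
  rw [om_pow_eq i, om_pow_eq j] at hij
  rw [ZMod.natCast_eq_natCast_iff']
  exact om_primitive.pow_inj (Nat.mod_lt _ (by norm_num)) (Nat.mod_lt _ (by norm_num)) hij

/-- a non-cube exists -/
lemma chi_ne_one (h : PP q) : chi h ≠ 1 := by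
  classical
  let _ := fieldFq h
  have := finite_Fq h.prime.ne_zero
  let _ := Fintype.ofFinite (Fq q)
  have hc : Fintype.card (Fq q) = N q := by rw [← Nat.card_eq_fintype_card, card_Fq]
  intro h1
  -- then a^e = 1 for all nonzero a
  have h2 : ∀ a : Fq q, a ≠ 0 → a ^ ex q = 1 := by
    intro a ha
    have := red_chi h a
    rw [h1] at this
    have h3 : (1 : MulChar (Fq q) E) a = 1 := by
      rw [MulChar.one_apply (isUnit_iff_ne_zero.mpr ha)]
    rw [h3, map_one] at this
    exact this.symm
  -- sum of a^e is then N - 1 = -1 ≠ 0, but it is 0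
  have h3 : ∑ a : Fq q, a ^ ex q = 0 := by
    apply FiniteField.sum_pow_lt_card_sub_one
    rw [hc]; have := N_eq h; have := ex_pos h; omega
  have h4 : ∑ a : Fq q, a ^ ex q = ∑ a : Fq q, if a = 0 then (0 : Fq q) else 1 := by
    apply Finset.sum_congr rfl
    intro a _
    by_cases ha : a = 0
    · rw [if_pos ha, ha, zero_pow (ex_pos h).ne']
    · rw [if_neg ha, h2 a ha]
  rw [h4] at h3
  have h5 : ∑ a : Fq q, (if a = 0 then (0 : Fq q) else 1) =
      (∑ a : Fq q, (1 : Fq q)) - ∑ a : Fq q, if a = 0 then (1 : Fq q) else 0 := by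
    rw [← Finset.sum_sub_distrib]
    apply Finset.sum_congr rfl
    intro a _
    by_cases ha : a = 0 <;> simp [ha]
  rw [h5] at h3
  simp at h3

lemma orderOf_chi (h : PP q) : orderOf (chi h) = 3 := by
  have : Fact (Nat.Prime 3) := ⟨by norm_num⟩
  exact orderOf_eq_prime (chi_pow_three h) (chi_ne_one h)

lemma chi_sq_ne_one (h : PP q) : chi h * chi h ≠ 1 := by
  rw [← pow_two]
  intro h1
  have h2 : orderOf (chi h) ∣ 2 := orderOf_dvd_of_pow_eq_one h1
  rw [orderOf_chi h] at h2
  omega

/-- The Jacobi sum `J(χ, χ)`. -/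
noncomputable def Jac (h : PP q) : E :=
  let _ := fieldFq h
  let _ := @Fintype.ofFinite (Fq q) (finite_Fq h.prime.ne_zero)
  jacobiSum (chi h) (chi h)

lemma q_dvd_Jac (h : PP q) : q ∣ Jac h := by
  classical
  let _ := fieldFq h
  have := finite_Fq h.prime.ne_zero
  let _ := Fintype.ofFinite (Fq q)
  have hc : Fintype.card (Fq q) = N q := by rw [← Nat.card_eq_fintype_card, card_Fq]
  rw [← red_eq_zero]
  have h1 : red q (Jac h) = ∑ a : Fq q, a ^ ex q * (1 - a) ^ ex q := by
    unfold Jac jacobiSum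
    rw [map_sum]
    apply Finset.sum_congr rfl
    intro a _
    rw [map_mul, red_chi, red_chi]
  rw [h1]
  have h2 : ∀ a : Fq q, a ^ ex q * (1 - a) ^ ex q =
      ∑ k ∈ Finset.range (ex q + 1), ((-1) ^ k * ((ex q).choose k : Fq q)) * a ^ (ex q + k) := by
    intro a
    have h3 : (1 - a) ^ ex q = ((-a) + 1) ^ ex q := by ring
    rw [h3, add_pow, Finset.mul_sum]
    apply Finset.sum_congr rfl
    intro k _
    rw [one_pow, neg_pow a k, pow_add]; ring
  simp_rw [h2]
  rw [Finset.sum_comm]
  apply Finset.sum_eq_zero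
  intro k hk
  rw [← Finset.mul_sum, FiniteField.sum_pow_lt_card_sub_one, mul_zero]
  rw [hc]
  have := N_eq h; have := ex_pos h
  have := Finset.mem_range.mp hk
  omega

lemma chi_inv (h : PP q) : (chi h)⁻¹ = (chi h).ringHomComp (starRingEnd E) := by
  let _ := fieldFq h
  rw [inv_eq_iff_mul_eq_one]
  apply MulChar.ext
  intro a
  rw [MulChar.mul_apply, MulChar.ringHomComp_apply, MulChar.one_apply_coe, chi_apply h a.ne_zero]
  rw [starRingEnd_apply, star_pow, star_om, ← mul_pow]
  have : om * om ^ 2 = 1 := by have := om_cube; linear_combination this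
  rw [this, one_pow]

lemma Jac_norm (h : PP q) : nm (Jac h) = nm q := by
  classical
  let _ := fieldFq h
  have := finite_Fq h.prime.ne_zero
  let _ := Fintype.ofFinite (Fq q)
  have hc : Fintype.card (Fq q) = N q := by rw [← Nat.card_eq_fintype_card, card_Fq]
  let K := FractionRing E
  have hinj : Function.Injective (algebraMap E K) := IsFractionRing.injective E K
  have : CharZero K := charZero_of_injective_algebraMap hinj
  have hchar : ringChar K ≠ ringChar (Fq q) := by
    rw [ringChar.eq_zero]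
    intro h0
    exact (CharP.ringChar_ne_zero_of_finite (Fq q)) h0.symm
  let χ := (chi h).ringHomComp (algebraMap E K)
  have hχ : χ ≠ 1 := (MulChar.ringHomComp_ne_one_iff hinj).mpr (chi_ne_one h)
  have hχ2 : χ * χ ≠ 1 := by
    rw [← MulChar.ringHomComp_mul]
    exact (MulChar.ringHomComp_ne_one_iff hinj).mpr (chi_sq_ne_one h)
  have h1 := jacobiSum_mul_jacobiSum_inv hchar hχ hχ hχ2
  have h2 : χ⁻¹ = ((chi h)⁻¹).ringHomComp (algebraMap E K) := MulChar.ringHomComp_inv _ _
  rw [h2, jacobiSum_ringHomComp, jacobiSum_ringHomComp, ← map_mul, chi_inv, jacobiSum_ringHomComp,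
    hc] at h1
  have h3 : algebraMap E K (jacobiSum (chi h) (chi h) * starRingEnd E (jacobiSum (chi h) (chi h))) =
      algebraMap E K (N q : E) := by rw [h1, map_natCast]
  have h4 := hinj h3
  have h5 : Jac h * star (Jac h) = (N q : E) := h4
  rw [mul_star_eq] at h5
  have h6 : ((nm (Jac h) : ℤ) : E) = (((N q : ℕ) : ℤ) : E) := by rw [h5]; norm_cast
  have h7 := Int.cast_injective (α := E) h6
  rw [h7]
  have := nm_nonneg q
  unfold N; omega

lemma Jac_mod_three (h : PP q) : (3 : E) ∣ Jac h + 1 := by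
  classical
  let _ := fieldFq h
  have := finite_Fq h.prime.ne_zero
  let _ := Fintype.ofFinite (Fq q)
  have hc : Fintype.card (Fq q) = N q := by rw [← Nat.card_eq_fintype_card, card_Fq]
  obtain ⟨z, _, hz⟩ := exists_jacobiSum_eq_neg_one_add (n := 3) (by norm_num)
    (χ := chi h) (ψ := chi h) (μ := om) (chi_pow_three h) (chi_pow_three h)
    (by rw [hc]; exact three_dvd_card h) om_primitive
  have h1 : Jac h = -1 + z * (om - 1) ^ 2 := hz
  refine ⟨z * (-om), ?_⟩
  rw [h1]
  have := om_sq
  linear_combination z * this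

/-- `J(χ, χ) = -q` for a primary prime `q` (`q ≡ 1 mod 3`). -/
lemma Jac_eq (h : PP q) : Jac h = -q := by
  obtain ⟨j, hj⟩ := q_dvd_Jac h
  have h1 : nm j = 1 := by
    have := Jac_norm h
    rw [hj, nm_mul] at this
    have hq := nm_pos h.prime.ne_zero
    nlinarith
  have h2 : IsUnit (-j) := (isUnit_iff_nm.mpr h1).neg
  have h3 : Prim (-j) := by
    obtain ⟨k, hk⟩ := Jac_mod_three h
    obtain ⟨l, hl⟩ := h.prim
    rw [hj] at hk
    refine ⟨l * j - k, ?_⟩
    linear_combination j * hl - hk
  have h4 := prim_unit h2 h3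
  have h5 : j = -1 := by linear_combination -h4
  rw [hj, h5]; ring

end

end Pool.Agent.LibEis
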