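import Pool.Agent.LibEis.Split

/-! Local computations at primes not dividing `3 p`, for linear elements of `ℤ[ω][θ]`. -/

namespace Pool.Agent.LibEis

open scoped QuadraticAlgebra

open Cub

section

variable {w P : E}

lemma exists_inv (hw : PP w) {x : E} (hx : ¬ w ∣ x) : ∃ y : E, w ∣ x * y - 1 := by
  have h : IsCoprime w x := (Prime.coprime_iff_not_dvd hw.prime).mpr hx
  obtain ⟨a, b, hab⟩ := h
  exact ⟨b, -a, by linear_combination hab⟩

lemma hensel (hw : PP w) (hp : ¬ w ∣ P) {t0 : E} (h0 : w ∣ t0 ^ 3 - P) (M : ℕ) :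
    ∃ t, w ^ (M + 1) ∣ t ^ 3 - P := by
  induction M with
  | zero => exact ⟨t0, by simpa using h0⟩
  | succ M ih =>
    obtain ⟨t, k, hk⟩ := ih
    have hwt : ¬ w ∣ t := by
      rintro ⟨y, hy⟩
      apply hp
      exact ⟨w ^ 2 * y ^ 3 - w ^ M * k, by rw [hy] at hk; linear_combination -hk⟩
    have h3t : ¬ w ∣ 3 * t ^ 2 := by
      intro h
      rcases hw.prime.dvd_or_dvd h with h1 | h1
      · exact hw.not_dvd_three h1
      · exact hwt (hw.prime.dvd_of_dvd_pow h1)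
    obtain ⟨u, m, hm⟩ := exists_inv hw h3t
    refine ⟨t - w ^ (M + 1) * k * u, -k * m + 3 * t * w ^ M * (k * u) ^ 2
      - w ^ (2 * M + 1) * (k * u) ^ 3, ?_⟩
    linear_combination hk - w ^ (M + 1) * k * hm

/-- evaluation at an approximate root -/
def eva (τ : E) (z : Cub E P) : E := z.a + z.b * τ + z.c * τ ^ 2

lemma eva_mul {τ D : E} (h : D ∣ τ ^ 3 - P) (x y : Cub E P) :
    D ∣ eva τ (x * y) - eva τ x * eva τ y := by
  obtain ⟨k, hk⟩ := h
  refine ⟨-k * (x.b * y.c + x.c * y.b + x.c * y.c * τ), ?_⟩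
  simp only [eva, mul_a, mul_b, mul_c]
  linear_combination (-(x.b * y.c + x.c * y.b) - x.c * y.c * τ) * hk

lemma nrm_eva {t D : E} (h : D ∣ t ^ 3 - P) (z : Cub E P) :
    D ∣ nrm z - eva t z * eva (om * t) z * eva (om ^ 2 * t) z := by
  obtain ⟨k, hk⟩ := h
  have h1 := om_rel'
  have h3 := om_cube
  have e : eva t z * eva (om * t) z * eva (om ^ 2 * t) z =
      z.a ^ 3 + t ^ 3 * z.b ^ 3 + t ^ 6 * z.c ^ 3 - 3 * t ^ 3 * z.a * z.b * z.c := by
    simp only [eva]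
    linear_combination (-2 * z.a * z.b * z.c * om * t ^ 3 + z.a * z.b * z.c * om ^ 2 * t ^ 3 + z.a * z.b * z.c * om ^ 3 * t ^ 3 + 3 * z.a * z.b * z.c * t ^ 3 + z.a * z.b ^ 2 * om * t ^ 2 + z.a * z.c ^ 2 * om ^ 2 * t ^ 4 - z.a * z.c ^ 2 * om ^ 3 * t ^ 4 + z.a * z.c ^ 2 * om ^ 4 * t ^ 4 + z.a ^ 2 * z.b * t - z.a ^ 2 * z.c * om * t ^ 2 + z.a ^ 2 * z.c * om ^ 2 * t ^ 2 + z.a ^ 2 * z.c * t ^ 2 + z.b * z.c ^ 2 * om ^ 4 * t ^ 5 + z.b ^ 2 * z.c * om ^ 3 * t ^ 4 + z.b ^ 3 * om * t ^ 3 - z.b ^ 3 * t ^ 3 + z.c ^ 3 * om * t ^ 6 - z.c ^ 3 * om ^ 3 * t ^ 6 + z.c ^ 3 * om ^ 4 * t ^ 6 - z.c ^ 3 * t ^ 6) * h1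
  refine ⟨-k * (z.b ^ 3 - 3 * z.a * z.b * z.c + (P + t ^ 3) * z.c ^ 3), ?_⟩
  rw [e]
  simp only [nrm]
  linear_combination (-(z.b ^ 3 - 3 * z.a * z.b * z.c + (P + t ^ 3) * z.c ^ 3)) * hk

lemma vc_congr (h : PP w) {x y : E} {M : ℕ} (hx : x ≠ 0) (hM : v w x < M)
    (hxy : w ^ M ∣ x - y) : y ≠ 0 ∧ v w y = v w x ∧ c w y = c w x := by
  have h1 : y - x = 0 ∨ v w x < v w (y - x) := by
    by_cases h0 : y - x = 0
    · left; exact h0
    · right
      have hf : FiniteMultiplicity w (y - x) := FiniteMultiplicity.of_prime_left h.prime h0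
      have h2 : w ^ M ∣ y - x := by
        have := (dvd_neg (α := E)).mpr hxy
        rwa [neg_sub] at this
      have h3 := hf.le_multiplicity_of_pow_dvd h2
      exact lt_of_lt_of_le hM h3
  have h2 := vc_add h hx h1
  rwa [add_sub_cancel] at h2

lemma s_congr_left {x y z : E} (hv : v w y = v w x) (hc : c w y = c w x) : s w y z = s w x z := by
  unfold s; rw [hv, hc]

lemma stein1 (h : PP w) {a b g k τ Δ : E} (hE : g + k * τ ≠ 0) (hA : a + b * τ ≠ 0) (hb : b ≠ 0)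
    (hk : k ≠ 0) (hΔ : Δ ≠ 0) (hd : Δ = b * g - a * k) :
    s w (g + k * τ) (a + b * τ) = s w (g + k * τ) Δ - s w (g + k * τ) k + s w (a + b * τ) b
      - s w (a + b * τ) Δ + (s w b Δ + s w Δ k - s w b k) := by
  have h1 := steinberg h (x := b * (g + k * τ)) (y := k * (a + b * τ)) (z := Δ)
    (mul_ne_zero hb hE) (mul_ne_zero hk hA) hΔ (by rw [hd]; ring)
  rw [s_mul_left h _ hb hE, s_mul_right h _ hk hA, s_mul_right h _ hk hA, s_mul_right h _ hk hA,
    s_mul_left h _ hb hE] at h1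
  have h2 := s_swap (q := w) Δ (a + b * τ)
  have h3 := s_swap (q := w) b (a + b * τ)
  rw [h2, h3]
  linear_combination h1

/-- the determinant of two linear elements -/
def dl (X A : Cub E P) : E := A.b * X.a - A.a * X.b

/-- local contribution of a pair of linear elements -/
noncomputable def T (w : E) (X A : Cub E P) : ZMod 3 :=
  s w (nrm X) (dl X A) - s w (nrm X) X.b + s w (nrm A) A.b - s w (nrm A) (dl X A)

/-- per root equality -/
lemma root_eq (h : PP w) {τ : E} {M : ℕ} (hM : 1 ≤ M) (hτ : w ^ M ∣ τ ^ 3 - P)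
    {X1 X2 A ε r α : Cub E P} {m : E} (hX : X1 = ε * r ^ 3 * X2) (h1 : eva τ X1 ≠ 0)
    (hv : v w (eva τ X1) < M) (hε : nrm ε = 1)
    (hα : C m * (th * A) = (ε - 1) * α) (hαw : ¬ w ∣ nrm α) :
    s w (eva τ X1) (eva τ A) = s w (eva τ X2) (eva τ A) := by
  have hwM : w ∣ w ^ M := dvd_pow_self w (by omega)
  -- multiplicativity
  have m1 := eva_mul hτ (ε * r ^ 3) X2
  have m2 := eva_mul hτ ε (r ^ 3)
  have m3 := eva_mul hτ r (r ^ 2)
  have m4 := eva_mul hτ r r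
  have e3 : r * r ^ 2 = r ^ 3 := by ring
  have e2 : r * r = r ^ 2 := by ring
  rw [e3] at m3
  rw [e2] at m4
  set E0 := eva τ ε with hE0
  set R := eva τ r with hR
  have key : w ^ M ∣ eva τ X1 - E0 * R ^ 3 * eva τ X2 := by
    obtain ⟨k1, hk1⟩ := m1
    obtain ⟨k2, hk2⟩ := m2
    obtain ⟨k3, hk3⟩ := m3
    obtain ⟨k4, hk4⟩ := m4
    rw [hX]
    exact ⟨k1 + k2 * eva τ X2 + E0 * k3 * eva τ X2 + E0 * R * k4 * eva τ X2, by
      linear_combination hk1 + eva τ X2 * hk2 + E0 * eva τ X2 * hk3 + E0 * R * eva τ X2 * hk4⟩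
  obtain ⟨n1, n2, n3⟩ := vc_congr h h1 hv key
  have hE00 : E0 ≠ 0 := fun h0 => n1 (by rw [h0]; ring)
  have hX20 : eva τ X2 ≠ 0 := fun h0 => n1 (by rw [h0]; ring)
  have hR0 : R ≠ 0 := fun h0 => n1 (by rw [h0]; ring)
  rw [← s_congr_left n2 n3, s_mul_left h _ (mul_ne_zero hE00 (pow_ne_zero 3 hR0)) hX20,
    s_mul_left h _ hE00 (pow_ne_zero 3 hR0)]
  have hR3 : s w (R ^ 3) (eva τ A) = 0 := by
    have : R ^ 3 = R * (R * R) := by ring
    rw [this, s_mul_left h _ hR0 (mul_ne_zero hR0 hR0), s_mul_left h _ hR0 hR0]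
    exact zmod3_three _
  have hεu : ¬ w ∣ E0 := by
    intro hd
    have h5 := hwM.trans (eva_mul hτ ε (adj ε))
    rw [mul_adj, hε] at h5
    have h6 : eva τ (C 1 : Cub E P) = 1 := by simp [eva]
    rw [h6, ← hE0] at h5
    apply h.prime.not_dvd_one
    have := dvd_add h5 (hd.mul_right (eva τ (adj ε)))
    simpa using this
  have hE : s w E0 (eva τ A) = 0 := by
    by_cases hA : w ∣ eva τ A
    · have h7 : w ∣ E0 - 1 := by
        have g1 := hwM.trans (eva_mul hτ (C m) (th * A))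
        have g2 := hwM.trans (eva_mul hτ th A)
        have g3 := hwM.trans (eva_mul hτ (ε - 1) α)
        have g4 := hwM.trans (eva_mul hτ α (adj α))
        rw [mul_adj] at g4
        rw [hα] at g1
        have g5 : eva τ (C (nrm α) : Cub E P) = nrm α := by simp [eva]
        have g6 : eva τ (ε - 1) = E0 - 1 := by
          simp only [eva, hE0, sub_a, sub_b, sub_c, one_a, one_b, one_c]; ring
        have g7 : ¬ w ∣ eva τ α := by
          intro h8
          apply hαw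
          rw [g5] at g4
          have := dvd_add g4 (h8.mul_right (eva τ (adj α)))
          simpa using this
        rw [g6] at g3
        have g8 : w ∣ eva τ (th * A) := by
          have := dvd_add g2 (hA.mul_left (eva τ (th : Cub E P)))
          simpa using this
        have g9 : w ∣ eva τ ((ε - 1) * α) := by
          have := dvd_add g1 (g8.mul_left (eva τ (C m : Cub E P)))
          simpa using this
        have g10 : w ∣ (E0 - 1) * eva τ α := by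
          have := dvd_sub g9 g3
          simpa using this
        rcases h.prime.dvd_or_dvd g10 with g11 | g11
        · exact g11
        · exact absurd g11 g7
      obtain ⟨_, h8⟩ := c_of_congr h hεu h7
      unfold s
      rw [h8, c_one h, (v_eq_zero_iff h hE00).mpr hεu]; simp
    · exact s_unit_unit h hεu hA
  rw [hE, hR3]; ring

/-- factorization over the three roots -/
lemma split_vc (h : PP w) {t : E} {M : ℕ} (ht : w ^ M ∣ t ^ 3 - P) {z : Cub E P}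
    (hz : nrm z ≠ 0) (hv : v w (nrm z) < M) :
    (eva t z ≠ 0 ∧ eva (om * t) z ≠ 0 ∧ eva (om ^ 2 * t) z ≠ 0) ∧
    (v w (eva t z) < M ∧ v w (eva (om * t) z) < M ∧ v w (eva (om ^ 2 * t) z) < M) ∧
    ∀ y, s w (nrm z) y = s w (eva t z) y + s w (eva (om * t) z) y + s w (eva (om ^ 2 * t) z) y := by
  obtain ⟨n1, n2, n3⟩ := vc_congr h hz hv (nrm_eva ht z)
  have a0 : eva t z ≠ 0 := fun h0 => n1 (by rw [h0]; ring)
  have b0 : eva (om * t) z ≠ 0 := fun h0 => n1 (by rw [h0]; ring)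
  have c0 : eva (om ^ 2 * t) z ≠ 0 := fun h0 => n1 (by rw [h0]; ring)
  rw [v_mul h (mul_ne_zero a0 b0) c0, v_mul h a0 b0] at n2
  refine ⟨⟨a0, b0, c0⟩, ⟨by omega, by omega, by omega⟩, ?_⟩
  intro y
  rw [← s_congr_left (x := nrm z) (y := eva t z * eva (om * t) z * eva (om ^ 2 * t) z) (z := y) _ n3,
    s_mul_left h _ (mul_ne_zero a0 b0) c0, s_mul_left h _ a0 b0]
  rw [v_mul h (mul_ne_zero a0 b0) c0, v_mul h a0 b0]; exact n2

lemma eva_lin {τ : E} {X : Cub E P} (hX : X.c = 0) : eva τ X = X.a + X.b * τ := by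
  rw [eva, hX]; ring

lemma T_split (h : PP w) {t : E} {M : ℕ} (ht : w ^ M ∣ t ^ 3 - P) {X A : Cub E P}
    (hX : X.c = 0) (hA : A.c = 0) (nX : nrm X ≠ 0) (nA : nrm A ≠ 0)
    (vX : v w (nrm X) < M) (vA : v w (nrm A) < M) (hXb : X.b ≠ 0) (hAb : A.b ≠ 0)
    (hd : dl X A ≠ 0) :
    T w X A = s w (eva t X) (eva t A) + s w (eva (om * t) X) (eva (om * t) A)
      + s w (eva (om ^ 2 * t) X) (eva (om ^ 2 * t) A) := by
  obtain ⟨⟨x1, x2, x3⟩, _, sX⟩ := split_vc h ht nX vX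
  obtain ⟨⟨a1, a2, a3⟩, _, sA⟩ := split_vc h ht nA vA
  rw [eva_lin hX] at x1 x2 x3
  rw [eva_lin hA] at a1 a2 a3
  rw [T, sX, sX, sA, sA, eva_lin hX, eva_lin hX, eva_lin hX, eva_lin hA, eva_lin hA, eva_lin hA,
    stein1 h x1 a1 hAb hXb hd rfl, stein1 h x2 a2 hAb hXb hd rfl, stein1 h x3 a3 hAb hXb hd rfl]
  have := zmod3_three (s w A.b (dl X A) + s w (dl X A) X.b - s w A.b X.b)
  linear_combination -this

/-- the split case -/
lemma D_split (h : PP w) {t0 : E} (hp : ¬ w ∣ P) (ht0 : w ∣ t0 ^ 3 - P)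
    {X1 X2 A ε r α : Cub E P} {m : E} (hX : X1 = ε * r ^ 3 * X2)
    (hX1 : X1.c = 0) (hX2 : X2.c = 0) (hA : A.c = 0) (n1 : nrm X1 ≠ 0) (n2 : nrm X2 ≠ 0)
    (nA : nrm A ≠ 0) (hb1 : X1.b ≠ 0) (hb2 : X2.b ≠ 0) (hAb : A.b ≠ 0) (hd1 : dl X1 A ≠ 0)
    (hd2 : dl X2 A ≠ 0) (hε : nrm ε = 1) (hα : C m * (th * A) = (ε - 1) * α)
    (hαw : ¬ w ∣ nrm α) : T w X1 A = T w X2 A := by
  obtain ⟨t, ht⟩ := hensel h hp ht0 (v w (nrm X1) + v w (nrm X2) + v w (nrm A))
  set M := v w (nrm X1) + v w (nrm X2) + v w (nrm A) + 1 with hM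
  have hM1 : 1 ≤ M := by omega
  have t2 : w ^ M ∣ (om * t) ^ 3 - P := by
    have : (om * t) ^ 3 - P = t ^ 3 - P := by rw [mul_pow, om_cube, one_mul]
    rw [this]; exact ht
  have t3 : w ^ M ∣ (om ^ 2 * t) ^ 3 - P := by
    have : (om ^ 2 * t) ^ 3 - P = t ^ 3 - P := by
      have h3 := om_cube
      linear_combination (t ^ 3 * (om ^ 3 + 1)) * h3
    rw [this]; exact ht
  obtain ⟨⟨x1, x2, x3⟩, ⟨v1, v2, v3⟩, _⟩ := split_vc h ht n1 (by omega)
  rw [T_split h ht hX1 hA n1 nA (by omega) (by omega) hb1 hAb hd1,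
    T_split h ht hX2 hA n2 nA (by omega) (by omega) hb2 hAb hd2,
    root_eq h hM1 ht hX x1 v1 hε hα hαw, root_eq h hM1 t2 hX x2 v2 hε hα hαw,
    root_eq h hM1 t3 hX x3 v3 hε hα hαw]

end

end Pool.Agent.LibEis
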