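import Pool.Agent.LibEis.Local

/-! Local computations: inert and ramified primes. -/

namespace Pool.Agent.LibEis

open scoped QuadraticAlgebra

open Cub

section

variable {w P : E}

lemma ns_nrm (h : PP w) (hns : ∀ x, ¬ w ∣ x ^ 3 - P) {z : Cub E P}
    (hz : w ∣ nrm z) : w ∣ z.a ∧ w ∣ z.b ∧ w ∣ z.c := by
  have hX : w ∣ (z.a * z.b - P * z.c ^ 2) ^ 3 + P * (z.b ^ 2 - z.a * z.c) ^ 3 := by
    obtain ⟨k, hk⟩ := hz
    refine ⟨k * (z.b ^ 3 - P * z.c ^ 3), ?_⟩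
    rw [nrm] at hk
    linear_combination (z.b ^ 3 - P * z.c ^ 3) * hk
  have hY : w ∣ z.b ^ 2 - z.a * z.c := by
    by_contra hY
    obtain ⟨Y, m, hm⟩ := exists_inv h hY
    obtain ⟨n, hn⟩ := hX
    set B := z.b ^ 2 - z.a * z.c with hB
    set A := z.a * z.b - P * z.c ^ 2 with hA
    apply hns (-(A * Y))
    -- (-(A Y))^3 - P = -(A^3 Y^3) - P ; A^3 = w n - P B^3 ; B Y = 1 + w m
    refine ⟨-n * Y ^ 3 + P * m * ((B * Y) ^ 2 + B * Y + 1), ?_⟩
    linear_combination (-Y ^ 3) * hn + P * ((B * Y) ^ 2 + B * Y + 1) * hm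
  have hX2 : w ∣ z.a * z.b - P * z.c ^ 2 := by
    have h1 : w ∣ (z.a * z.b - P * z.c ^ 2) ^ 3 := by
      have h2 := (hY.pow (by norm_num : 3 ≠ 0)) |>.mul_left P
      exact (dvd_add_left h2).mp hX
    exact h.prime.dvd_of_dvd_pow h1
  have hc : w ∣ z.c := by
    by_contra hc
    obtain ⟨Y, m, hm⟩ := exists_inv h hc
    obtain ⟨k, hk⟩ := hY
    obtain ⟨l, hl⟩ := hX2
    apply hns (z.b * Y)
    -- P c^2 = a b - w l,  b^2 = a c + w k ;  b^3 = a b c + w k b = c (P c^2 + w l) + w k b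
    -- b^3 - P c^3 = w (c l + k b);  (b Y)^3 - P = Y^3 (b^3 - P c^3) + P ((cY)^3 - 1)
    refine ⟨Y ^ 3 * (z.c * l + k * z.b) + P * m * ((z.c * Y) ^ 2 + z.c * Y + 1), ?_⟩
    linear_combination Y ^ 3 * (z.c * hl + z.b * hk) + P * ((z.c * Y) ^ 2 + z.c * Y + 1) * hm
  have hb : w ∣ z.b := by
    have h1 : w ∣ z.b ^ 2 := by
      have := dvd_add hY (hc.mul_left z.a)
      simpa using this
    exact h.prime.dvd_of_dvd_pow h1
  have ha : w ∣ z.a := by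
    have h1 : w ∣ z.a ^ 3 := by
      obtain ⟨k, hk⟩ := hz
      obtain ⟨b', hb'⟩ := hb
      obtain ⟨c', hc'⟩ := hc
      rw [nrm, hb', hc'] at hk
      exact ⟨k - P * w ^ 2 * b' ^ 3 - P ^ 2 * w ^ 2 * c' ^ 3 + 3 * P * z.a * w * b' * c', by
        linear_combination hk⟩
    exact h.prime.dvd_of_dvd_pow h1
  exact ⟨ha, hb, hc⟩

lemma ns_factor (h : PP w) (hns : ∀ x, ¬ w ∣ x ^ 3 - P) (n : ℕ) :
    ∀ z : Cub E P, nrm z ≠ 0 → v w (nrm z) = n →
      ∃ (k : ℕ) (z' : Cub E P), z = C (w ^ k) * z' ∧ ¬ w ∣ nrm z' := by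
  induction n using Nat.strong_induction_on with
  | _ n ih =>
    intro z hz hn
    by_cases hd : w ∣ nrm z
    · obtain ⟨⟨a, ha⟩, ⟨b, hb⟩, ⟨c, hc⟩⟩ := ns_nrm h hns hd
      have h1 : z = C w * ⟨a, b, c⟩ := by
        rw [C_mul_eq]; exact Cub.ext ha hb hc
      set z' : Cub E P := ⟨a, b, c⟩ with hz'
      have h2 : nrm z = w ^ 3 * nrm z' := by rw [h1, nrm_mul, nrm_C]
      have h3 : nrm z' ≠ 0 := fun h0 => hz (by rw [h2, h0, mul_zero])
      have h4 : v w (nrm z) = 3 + v w (nrm z') := by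
        rw [h2, v_mul h (pow_ne_zero 3 h.prime.ne_zero) h3, (vc_pow h h.prime.ne_zero 3).1,
          v_self h]
      obtain ⟨k, z'', h5, h6⟩ := ih (v w (nrm z')) (by omega) z' h3 rfl
      exact ⟨k + 1, z'', by rw [h1, h5, pow_succ, C_mul]; ring, h6⟩
    · exact ⟨0, z, by rw [pow_zero, C_one, one_mul], hd⟩

/-- both norms are units -/
lemma T_unit (h : PP w) {X A : Cub E P} (hX : X.c = 0) (hA : A.c = 0) (nX : ¬ w ∣ nrm X)
    (nA : ¬ w ∣ nrm A) (hXb : X.b ≠ 0) (hAb : A.b ≠ 0) (hd : dl X A ≠ 0) : T w X A = 0 := by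
  have nX0 := ne_zero_of_not_dvd nX
  have nA0 := ne_zero_of_not_dvd nA
  have vX := (v_eq_zero_iff h nX0).mpr nX
  have vA := (v_eq_zero_iff h nA0).mpr nA
  -- a linear element with `w ∣ b` has norm a cube
  have cube : ∀ Z : Cub E P, Z.c = 0 → ¬ w ∣ nrm Z → w ∣ Z.b → ¬ w ∣ Z.a ∧ c w (nrm Z) = 0 := by
    intro Z hc hn hb
    obtain ⟨k, hk⟩ := hb
    have h1 : w ∣ nrm Z - Z.a ^ 3 := by
      rw [nrm, hc, hk]
      exact ⟨P * w ^ 2 * k ^ 3, by ring⟩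
    obtain ⟨h2, h3⟩ := c_of_congr h hn h1
    have h4 : ¬ w ∣ Z.a := fun h' => h2 (dvd_pow h' (by norm_num))
    exact ⟨h4, by rw [h3, c_cube h (ne_zero_of_not_dvd h4)]⟩
  have key : ∀ Z : Cub E P, Z.c = 0 → ¬ w ∣ nrm Z → Z.b ≠ 0 →
      (v w Z.b : ZMod 3) * c w (nrm Z) = 0 := by
    intro Z hc hn hb0
    by_cases hb : w ∣ Z.b
    · rw [(cube Z hc hn hb).2, mul_zero]
    · rw [(v_eq_zero_iff h hb0).mpr hb]; simp
  have hdd : (v w (dl X A) : ZMod 3) * (c w (nrm X) - c w (nrm A)) = 0 := by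
    by_cases hdv : w ∣ dl X A
    · by_cases hb : w ∣ X.b
      · have hAb' : w ∣ A.b := by
          have h1 : w ∣ A.b * X.a := by
            have := dvd_add hdv (hb.mul_left A.a)
            rw [dl] at this
            simpa using this
          rcases h.prime.dvd_or_dvd h1 with h2 | h2
          · exact h2
          · exact absurd h2 (cube X hX nX hb).1
        rw [(cube X hX nX hb).2, (cube A hA nA hAb').2, sub_zero, mul_zero]
      · have hAb' : ¬ w ∣ A.b := by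
          intro h1
          have h2 : w ∣ A.a * X.b := by
            have := dvd_sub (h1.mul_right X.a) hdv
            rw [dl] at this
            simpa using this
          rcases h.prime.dvd_or_dvd h2 with h3 | h3
          · exact (cube A hA nA h1).1 h3
          · exact hb h3
        have h5 : w ∣ X.b ^ 3 * nrm A - A.b ^ 3 * nrm X := by
          obtain ⟨k, hk⟩ := hdv
          rw [dl] at hk
          refine ⟨-k * ((A.b * X.a) ^ 2 + (A.b * X.a) * (A.a * X.b) + (A.a * X.b) ^ 2), ?_⟩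
          rw [nrm, nrm, hX, hA]
          linear_combination (-((A.b * X.a) ^ 2 + (A.b * X.a) * (A.a * X.b) + (A.a * X.b) ^ 2)) * hk
        have h6 : ¬ w ∣ X.b ^ 3 * nrm A := by
          intro h7
          rcases h.prime.dvd_or_dvd h7 with h8 | h8
          · exact hb (h.prime.dvd_of_dvd_pow h8)
          · exact nA h8
        have h9 := (c_of_congr h h6 h5).2
        rw [c_mul h (pow_ne_zero 3 hXb) nA0, c_mul h (pow_ne_zero 3 hAb) nX0, c_cube h hXb,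
          c_cube h hAb, zero_add, zero_add] at h9
        rw [h9, sub_self, mul_zero]
    · rw [(v_eq_zero_iff h hd).mpr hdv]; simp
  have kX := key X hX nX hXb
  have kA := key A hA nA hAb
  unfold T s
  rw [vX, vA]
  push_cast
  linear_combination hdd - kX + kA

/-- the inert case -/
lemma D_inert (h : PP w) (hns : ∀ x, ¬ w ∣ x ^ 3 - P) {X1 X2 A ε r : Cub E P}
    (hX : X1 = ε * r ^ 3 * X2)
    (hX1 : X1.c = 0) (hX2 : X2.c = 0) (hA : A.c = 0) (n1 : nrm X1 ≠ 0)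
    (hb1 : X1.b ≠ 0) (hb2 : X2.b ≠ 0) (hAb : A.b ≠ 0) (hd1 : dl X1 A ≠ 0)
    (hd2 : dl X2 A ≠ 0) (hε : nrm ε = 1) (p2 : ¬ (w ∣ X2.a ∧ w ∣ X2.b))
    (pA : ¬ (w ∣ A.a ∧ w ∣ A.b)) : T w X1 A = T w X2 A := by
  have u2 : ¬ w ∣ nrm X2 := fun h' => by
    obtain ⟨ha, hb, _⟩ := ns_nrm h hns h'
    exact p2 ⟨ha, hb⟩
  have uA : ¬ w ∣ nrm A := fun h' => by
    obtain ⟨ha, hb, _⟩ := ns_nrm h hns h'
    exact pA ⟨ha, hb⟩
  rw [T_unit h hX2 hA u2 uA hb2 hAb hd2]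
  have nr : nrm r ≠ 0 := by
    intro h0
    apply n1
    rw [hX, nrm_mul, nrm_mul, nrm_pow, h0]; ring
  obtain ⟨j, r', hr, ur⟩ := ns_factor h hns _ r nr rfl
  have hw0 := h.prime.ne_zero
  have hw3 : w ^ (3 * j) ≠ 0 := pow_ne_zero _ hw0
  set Y : Cub E P := ε * r' ^ 3 * X2 with hY
  have h1 : X1 = C (w ^ (3 * j)) * Y := by
    rw [hX, hr, hY, mul_pow, ← C_pow, ← pow_mul, mul_comm j 3]; ring
  have ha : X1.a = w ^ (3 * j) * Y.a := by rw [h1, C_mul_a]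
  have hb : X1.b = w ^ (3 * j) * Y.b := by rw [h1, C_mul_b]
  have hc : X1.c = w ^ (3 * j) * Y.c := by rw [h1, C_mul_c]
  have hYc : Y.c = 0 := by
    rw [hX1] at hc
    exact (mul_eq_zero.mp hc.symm).resolve_left hw3
  have hYb : Y.b ≠ 0 := by rintro h0; rw [h0, mul_zero] at hb; exact hb1 hb
  have hdY : dl X1 A = w ^ (3 * j) * dl Y A := by rw [dl, dl, ha, hb]; ring
  have hdY0 : dl Y A ≠ 0 := by rintro h0; rw [h0, mul_zero] at hdY; exact hd1 hdY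
  have uY : ¬ w ∣ nrm Y := by
    rw [hY, nrm_mul, nrm_mul, nrm_pow, hε, one_mul]
    intro h'
    rcases h.prime.dvd_or_dvd h' with h2 | h2
    · exact ur (h.prime.dvd_of_dvd_pow h2)
    · exact u2 h2
  have hnX : nrm X1 = w ^ (3 * (3 * j)) * nrm Y := by
    rw [h1, nrm_mul, nrm_C, ← pow_mul, mul_comm (3 * j) 3]
  have s3l : ∀ (n : ℕ) (x y : E), x ≠ 0 → s w (w ^ (3 * n) * x) y = s w x y := by
    intro n x y hx
    unfold s
    rw [v_mul h (pow_ne_zero _ hw0) hx, c_mul h (pow_ne_zero _ hw0) hx,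
      (vc_pow h hw0 (3 * n)).1, (vc_pow h hw0 (3 * n)).2]
    push_cast
    have : (3 : ZMod 3) = 0 := rfl
    rw [this]; ring
  have s3r : ∀ (n : ℕ) (x y : E), x ≠ 0 → s w y (w ^ (3 * n) * x) = s w y x := by
    intro n x y hx
    rw [s_swap, s3l n x y hx, s_swap y x, neg_neg]
  have nY0 := ne_zero_of_not_dvd uY
  have hT : T w X1 A = T w Y A := by
    unfold T
    rw [hdY, hb, hnX, s3l _ _ _ nY0, s3l _ _ _ nY0, s3r _ _ _ hdY0, s3r _ _ _ hYb,
      s3r _ _ _ hdY0]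
  rw [hT, T_unit h hYc hA uY uA hYb hAb hdY0]

lemma T_val {X A : Cub E P} (cX : c w (nrm X) = 0) (cA : c w (nrm A) = 0) :
    T w X A = -(v w (nrm X) : ZMod 3) * c w (dl X A) + (v w (nrm X) : ZMod 3) * c w X.b
      - (v w (nrm A) : ZMod 3) * c w A.b + (v w (nrm A) : ZMod 3) * c w (dl X A) := by
  unfold T s
  rw [cX, cA]; ring

end

section

variable {p : ℕ} {q : E}

/-- the ramified case -/
lemma Dat.D_ram (h : Dat p q) {X1 X2 A ρ : Cub E (p : E)} (hX : X1 = ρ * X2)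
    (hX2 : X2.c = 0) (hρ : ¬ q ∣ ρ.a)
    (p2 : ¬ (q ∣ X2.a ∧ q ∣ X2.b)) (pA : ¬ (q ∣ A.a ∧ q ∣ A.b)) :
    (¬ q ∣ A.a → T q X1 A = T q X2 A) ∧ (q ∣ A.a → T q X1 A = T q X2 A + c q ρ.a) := by
  have hq := h.hq
  have hρ0 := ne_zero_of_not_dvd hρ
  obtain ⟨e, he⟩ := h.q_dvd_p
  have ea : X1.a = ρ.a * X2.a + p * (ρ.c * X2.b) := by rw [hX, mul_a, hX2]; ring
  have eb : X1.b = ρ.a * X2.b + ρ.b * X2.a := by rw [hX, mul_b, hX2]; ring
  have h1 : q ∣ ρ.a * X2.a - X1.a := ⟨-e * (ρ.c * X2.b), by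
    rw [ea]; linear_combination (-(ρ.c * X2.b)) * he⟩
  -- determinants
  have dlA1 : ∀ X : Cub E (p : E), ¬ q ∣ A.a → q ∣ X.a → ¬ q ∣ X.b →
      c q (dl X A) = c q A.a + c q X.b := by
    intro X hA hXa hXb
    have h2 : ¬ q ∣ -(A.a * X.b) := by
      rw [dvd_neg]; intro h'
      exact (hq.prime.dvd_or_dvd h').elim hA hXb
    have h3 : q ∣ -(A.a * X.b) - dl X A := by
      have : -(A.a * X.b) - dl X A = -(A.b * X.a) := by rw [dl]; ring
      rw [this, dvd_neg]; exact hXa.mul_left _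
    have hA0 := ne_zero_of_not_dvd hA
    have hX0 := ne_zero_of_not_dvd hXb
    rw [← (c_of_congr hq h2 h3).2, (vc_neg hq (mul_ne_zero hA0 hX0)).2, c_mul hq hA0 hX0]
  have dlA2 : ∀ X : Cub E (p : E), q ∣ A.a → ¬ q ∣ A.b → ¬ q ∣ X.a →
      c q (dl X A) = c q A.b + c q X.a := by
    intro X hAa hAb hXa
    have h2 : ¬ q ∣ A.b * X.a := fun h' => (hq.prime.dvd_or_dvd h').elim hAb hXa
    have h3 : q ∣ A.b * X.a - dl X A := by
      have : A.b * X.a - dl X A = A.a * X.b := by rw [dl]; ring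
      rw [this]; exact hAa.mul_right _
    rw [← (c_of_congr hq h2 h3).2, c_mul hq (ne_zero_of_not_dvd hAb) (ne_zero_of_not_dvd hXa)]
  by_cases t2 : q ∣ X2.a
  · -- type 1
    have u2 : ¬ q ∣ X2.b := fun h' => p2 ⟨t2, h'⟩
    have t1 : q ∣ X1.a := by
      have := dvd_sub (t2.mul_left ρ.a) h1
      simpa using this
    have h4 : ¬ q ∣ ρ.a * X2.b := fun h' => (hq.prime.dvd_or_dvd h').elim hρ u2
    have h5 : q ∣ ρ.a * X2.b - X1.b := by
      have : ρ.a * X2.b - X1.b = -(ρ.b * X2.a) := by rw [eb]; ring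
      rw [this, dvd_neg]; exact t2.mul_left _
    obtain ⟨u1, h6⟩ := c_of_congr hq h4 h5
    rw [c_mul hq hρ0 (ne_zero_of_not_dvd u2)] at h6
    obtain ⟨v1, c1⟩ := h.vc_nrm1 t1 u1
    obtain ⟨v2, c2⟩ := h.vc_nrm1 t2 u2
    constructor
    · intro hA
      obtain ⟨vA, cA⟩ := h.vc_nrm0 hA
      rw [T_val c1 cA, T_val c2 cA, v1, v2, vA, dlA1 X1 hA t1 u1, dlA1 X2 hA t2 u2]
      push_cast; ring
    · intro hA
      have uA : ¬ q ∣ A.b := fun h' => pA ⟨hA, h'⟩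
      obtain ⟨vA, cA⟩ := h.vc_nrm1 hA uA
      rw [T_val c1 cA, T_val c2 cA, v1, v2, vA, ← h6]
      push_cast; ring
  · -- type 0
    have h4 : ¬ q ∣ ρ.a * X2.a := fun h' => (hq.prime.dvd_or_dvd h').elim hρ t2
    obtain ⟨t1, h6⟩ := c_of_congr hq h4 h1
    rw [c_mul hq hρ0 (ne_zero_of_not_dvd t2)] at h6
    obtain ⟨v1, c1⟩ := h.vc_nrm0 t1
    obtain ⟨v2, c2⟩ := h.vc_nrm0 t2
    constructor
    · intro hA
      obtain ⟨vA, cA⟩ := h.vc_nrm0 hA
      rw [T_val c1 cA, T_val c2 cA, v1, v2, vA]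
      push_cast; ring
    · intro hA
      have uA : ¬ q ∣ A.b := fun h' => pA ⟨hA, h'⟩
      obtain ⟨vA, cA⟩ := h.vc_nrm1 hA uA
      rw [T_val c1 cA, T_val c2 cA, v1, v2, vA, dlA2 X1 hA uA t1, dlA2 X2 hA uA t2, ← h6]
      push_cast; ring

end

end Pool.Agent.LibEis
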