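import Pool.Agent.LibEis.Global

/-! The product formula: `S a x` depends only on `x` mod 9. -/

namespace Pool.Agent.LibEis

open scoped QuadraticAlgebra

lemma S_om_prod {m : Multiset E} (hm : ∀ k ∈ m, PP k) :
    ∃ e : ℤ, nm m.prod = 1 + 3 * e ∧ S om m.prod = (e : ZMod 3) := by
  induction m using Multiset.induction_on with
  | empty => exact ⟨0, by simp [nm_one], by simp [S_one_right]⟩
  | cons a m ih =>
    have hm' : ∀ k ∈ m, PP k := fun k hk => hm k (Multiset.mem_cons_of_mem hk)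
    have ha := hm a (Multiset.mem_cons_self a m)
    obtain ⟨e, he1, he2⟩ := ih hm'
    refine ⟨(ex a : ℤ) + e + 3 * (ex a : ℤ) * e, ?_, ?_⟩
    · rw [Multiset.prod_cons, nm_mul, he1]
      have h1 := N_eq ha
      have h2 := nm_nonneg a
      have h3 : nm a = 3 * (ex a : ℤ) + 1 := by
        have : ((N a : ℕ) : ℤ) = nm a := by unfold N; omega
        rw [← this, h1]; push_cast; ring
      rw [h3]; ring
    · rw [Multiset.prod_cons, S_mul_right ha.prime.ne_zero (prod_ne_zero hm') isUnit_om.ne_zero,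
        he2, S_swap a om, S_om_right ha]
      push_cast
      have : (3 : ZMod 3) = 0 := by decide
      rw [this]; ring

lemma prim_of_nine {x : E} (h : (9 : E) ∣ x - 1) : Prim x := by
  obtain ⟨k, hk⟩ := h
  exact ⟨3 * k, by rw [hk]; ring⟩

lemma S_om_nine {x : E} (h : (9 : E) ∣ x - 1) : S om x = 0 := by
  obtain ⟨m, hm, hprod⟩ := exists_factor_prim (prim_of_nine h)
  obtain ⟨e, he1, he2⟩ := S_om_prod hm
  rw [← hprod] at he1 he2
  rw [he2]
  have h2 := (nine_dvd_iff _).mp h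
  simp only [QuadraticAlgebra.re_sub, QuadraticAlgebra.im_sub, QuadraticAlgebra.re_one,
    QuadraticAlgebra.im_one, sub_zero] at h2
  obtain ⟨⟨a, ha⟩, ⟨b, hb⟩⟩ := h2
  have h3 : x.re = 1 + 9 * a := by linarith
  rw [nm, h3, hb] at he1
  have h4 : e = 3 * (2 * a + 9 * a ^ 2 - b - 9 * a * b + 9 * b ^ 2) := by linarith
  rw [h4]; push_cast
  have : (3 : ZMod 3) = 0 := by decide
  rw [this]; ring

lemma S_unit_nine {u x : E} (hu : IsUnit u) (hx : x ≠ 0) (h : (9 : E) ∣ x - 1) : S u x = 0 := by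
  obtain ⟨s, j, hs, hj, rfl⟩ := unit_form hu
  have hs0 : s ≠ 0 := by rcases hs with rfl | rfl <;> norm_num
  rw [S_mul_left hs0 (pow_ne_zero _ isUnit_om.ne_zero) hx, S_pow_left isUnit_om.ne_zero hx,
    S_om_nine h]
  rcases hs with rfl | rfl
  · rw [S_one_left]; ring
  · rw [S_neg_left one_ne_zero, S_one_left]; ring

lemma S_not_lam_nine {a x : E} (ha : ¬ lam ∣ a) (h : (9 : E) ∣ x - 1) : S a x = 0 := by
  have hx0 : x ≠ 0 := fun h0 => (prim_of_nine h).not_lam (h0 ▸ dvd_zero _)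
  obtain ⟨u, m, hu, hm, rfl⟩ := exists_factor ha
  rw [S_mul_left hu.ne_zero (prod_ne_zero hm) hx0, S_unit_nine hu hx0 h,
    S_prim (prim_prod hm) (prim_of_nine h), add_zero]

lemma nine_eq : (9 : E) = om * lam ^ 4 := by
  have h : (9 : E) = 3 * 3 := by norm_num
  rw [h, three_eq]
  have := om_cube
  linear_combination (om * lam ^ 4) * this

lemma S_lam_aux {x y : E} {K : ℕ} (h : (9 : E) ∣ x - 1) (hy : ¬ lam ∣ y)
    (hz : 1 - x = lam ^ K * y) (hK : (K : ZMod 3) ≠ 0) : S lam x = 0 := by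
  have hx0 : x ≠ 0 := fun h0 => (prim_of_nine h).not_lam (h0 ▸ dvd_zero _)
  have hy0 : y ≠ 0 := fun h0 => hy (h0 ▸ dvd_zero _)
  have hz0 : lam ^ K * y ≠ 0 := mul_ne_zero (pow_ne_zero _ lam_ne_zero) hy0
  have h1 := S_steinberg one_ne_zero hx0 hz0 hz
  rw [S_one_left, S_one_left, S_mul_left (pow_ne_zero _ lam_ne_zero) hy0 hx0,
    S_pow_left lam_ne_zero hx0, S_not_lam_nine hy h, zero_add, add_zero] at h1
  have h2 : (K : ZMod 3) * S lam x = 0 := h1.symm
  have : Fact (Nat.Prime 3) := ⟨by norm_num⟩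
  rcases mul_eq_zero.mp h2 with h3 | h3
  · exact absurd h3 hK
  · exact h3

lemma S_lam_nine {x : E} (h : (9 : E) ∣ x - 1) : S lam x = 0 := by
  have hx0 : x ≠ 0 := fun h0 => (prim_of_nine h).not_lam (h0 ▸ dvd_zero _)
  by_cases hx1 : x = 1
  · rw [hx1]; exact S_one_right _
  have hz0 : 1 - x ≠ 0 := sub_ne_zero.mpr (Ne.symm hx1)
  have hf : FiniteMultiplicity lam (1 - x) := FiniteMultiplicity.of_prime_left prime_lam hz0
  obtain ⟨y, hy1, hy2⟩ := hf.exists_eq_pow_mul_and_not_dvd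
  set K := multiplicity lam (1 - x) with hKdef
  by_cases hK : (K : ZMod 3) = 0
  · -- K divisible by 3 and at least 4, hence at least 6
    have h9 : lam ^ 4 ∣ 1 - x := by
      have h2 : (9 : E) ∣ 1 - x := by
        have : (1 : E) - x = -(x - 1) := by ring
        rw [this]; exact (dvd_neg).mpr h
      rw [nine_eq] at h2
      exact (dvd_mul_left _ _).trans h2
    have hK4 : 4 ≤ K := hf.le_multiplicity_of_pow_dvd h9
    have hK3 : 3 ∣ K := (ZMod.natCast_eq_zero_iff _ _).mp hK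
    obtain ⟨t, ht⟩ : ∃ t, K = 6 + t := ⟨K - 6, by omega⟩
    have hs : ¬ lam ∣ (1 + lam ^ 2 : E) := by
      intro h1
      have h2 : lam ∣ (1 : E) := by
        have : (1 : E) = (1 + lam ^ 2) - lam * lam := by ring
        rw [this]; exact dvd_sub h1 (dvd_mul_right _ _)
      exact prime_lam.not_dvd_one h2
    have hs0 : (1 + lam ^ 2 : E) ≠ 0 := fun h0 => hs (h0 ▸ dvd_zero _)
    have h3 := three_eq
    have e1 : (1 : E) - x * (1 + lam ^ 2) ^ 3 =
        lam ^ 4 * (lam ^ (2 + t) * y * (1 + lam ^ 2) ^ 3 + om ^ 2 + lam ^ 2 * (om ^ 2 - 1)) := by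
      have hx : x = 1 - lam ^ (6 + t) * y := by rw [← ht]; linear_combination -hy1
      have e2 : lam ^ (6 + t) = lam ^ 4 * lam ^ (2 + t) := by rw [← pow_add]; congr 1; ring
      rw [hx, e2]
      linear_combination (-lam ^ 2 - lam ^ 4) * h3
    have h9' : (9 : E) ∣ x * (1 + lam ^ 2) ^ 3 - 1 := by
      have : x * (1 + lam ^ 2) ^ 3 - 1 = -(1 - x * (1 + lam ^ 2) ^ 3) := by ring
      rw [this, dvd_neg, e1, nine_eq]
      refine ⟨om ^ 2 * (lam ^ (2 + t) * y * (1 + lam ^ 2) ^ 3 + om ^ 2 + lam ^ 2 * (om ^ 2 - 1)), ?_⟩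
      have := om_cube
      linear_combination (-lam ^ 4 * (lam ^ (2 + t) * y * (1 + lam ^ 2) ^ 3 + om ^ 2 + lam ^ 2 * (om ^ 2 - 1))) * this
    have hy' : ¬ lam ∣ (lam ^ (2 + t) * y * (1 + lam ^ 2) ^ 3 + om ^ 2 + lam ^ 2 * (om ^ 2 - 1)) := by
      intro h1
      have h2 : lam ∣ om ^ 2 := by
        have : om ^ 2 = (lam ^ (2 + t) * y * (1 + lam ^ 2) ^ 3 + om ^ 2 + lam ^ 2 * (om ^ 2 - 1)) -
          lam * (lam ^ (1 + t) * y * (1 + lam ^ 2) ^ 3 + lam * (om ^ 2 - 1)) := by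
          ring
        rw [this]; exact dvd_sub h1 (dvd_mul_right _ _)
      exact prime_lam.not_isUnit (isUnit_of_dvd_unit h2 (isUnit_om.pow 2))
    have h4 := S_lam_aux h9' hy' e1 (by decide)
    rw [S_mul_right hx0 (pow_ne_zero _ hs0) lam_ne_zero, S_pow_right hs0 lam_ne_zero] at h4
    have : ((3 : ℕ) : ZMod 3) = 0 := by decide
    rw [this] at h4
    simpa using h4
  · exact S_lam_aux h hy2 hy1 hK

/-- product formula -/
theorem S_nine {a x : E} (ha : a ≠ 0) (h : (9 : E) ∣ x - 1) : S a x = 0 := by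
  have hx0 : x ≠ 0 := fun h0 => (prim_of_nine h).not_lam (h0 ▸ dvd_zero _)
  have hf : FiniteMultiplicity lam a := FiniteMultiplicity.of_prime_left prime_lam ha
  obtain ⟨y, hy1, hy2⟩ := hf.exists_eq_pow_mul_and_not_dvd
  have hy0 : y ≠ 0 := fun h0 => hy2 (h0 ▸ dvd_zero _)
  rw [hy1, S_mul_left (pow_ne_zero _ lam_ne_zero) hy0 hx0, S_pow_left lam_ne_zero hx0,
    S_lam_nine h, S_not_lam_nine hy2 h]; ring

/-- product formula, difference version -/
theorem S_congr {a x y : E} (ha : a ≠ 0) (hx : ¬ lam ∣ x) (hy : ¬ lam ∣ y)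
    (h : (9 : E) ∣ x - y) : S a x = S a y := by
  have hx0 : x ≠ 0 := fun h0 => hx (h0 ▸ dvd_zero _)
  have hy0 : y ≠ 0 := fun h0 => hy (h0 ▸ dvd_zero _)
  obtain ⟨k, hk⟩ := h
  have key : S a (x * y ^ 2) = 0 := by
    rcases cube_mod_nine hy with ⟨l, hl⟩ | ⟨l, hl⟩
    · apply S_nine ha
      exact ⟨k * y ^ 2 + l, by linear_combination y ^ 2 * hk + hl⟩
    · have h1 : S a (-(x * y ^ 2)) = 0 := by
        apply S_nine ha
        exact ⟨-(k * y ^ 2) - l, by linear_combination -y ^ 2 * hk - hl⟩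
      rwa [S_neg_right (mul_ne_zero hx0 (pow_ne_zero _ hy0))] at h1
  rw [S_mul_right hx0 (pow_ne_zero _ hy0) ha, S_pow_right hy0 ha] at key
  have h2 : ((2 : ℕ) : ZMod 3) = -1 := by decide
  rw [h2] at key
  linear_combination key

end Pool.Agent.LibEis
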