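import Pool.Agent.LibEis.Dat

/-! Norms at the ramified primes `q`, `star q` and the shape of `nrm α`. -/

namespace Pool.Agent.LibEis

open Cub

open scoped QuadraticAlgebra

variable {p : ℕ} {q : E}

lemma c_of_congr (h : PP q) {x y : E} (hx : ¬ q ∣ x) (hxy : q ∣ x - y) :
    ¬ q ∣ y ∧ c q x = c q y := by
  have hy : ¬ q ∣ y := fun h' => hx (by have := dvd_add hxy h'; simpa using this)
  exact ⟨hy, by rw [c_unit h hx, c_unit h hy, red_eq_iff.mpr hxy]⟩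

lemma zmod3_three (t : ZMod 3) : t + (t + t) = 0 := by revert t; decide

lemma c_cube (h : PP q) {x : E} (hx : x ≠ 0) : c q (x ^ 3) = 0 := by
  have : x ^ 3 = x * (x * x) := by ring
  rw [this, c_mul h hx (mul_ne_zero hx hx), c_mul h hx hx]
  exact zmod3_three _

lemma ne_zero_of_not_dvd {q x : E} (h : ¬ q ∣ x) : x ≠ 0 := fun h0 => h (h0 ▸ dvd_zero q)

lemma vc_pow (h : PP q) {x : E} (hx : x ≠ 0) (n : ℕ) :
    v q (x ^ n) = n * v q x ∧ c q (x ^ n) = n * c q x := by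
  induction n with
  | zero => simp [v_one h, c_one h]
  | succ n ih =>
    rw [pow_succ, v_mul h (pow_ne_zero _ hx) hx, c_mul h (pow_ne_zero _ hx) hx, ih.1, ih.2]
    push_cast
    constructor <;> ring

lemma nrm_expand {P Q : E} (z : Cub E P) (h : P = Q) :
    nrm z = z.a ^ 3 + Q * z.b ^ 3 + Q ^ 2 * z.c ^ 3 - 3 * Q * z.a * z.b * z.c := by
  subst h; rfl

namespace Dat

lemma vc_nrm0 (h : Dat p q) {z : Cub E (p : E)} (ha : ¬ q ∣ z.a) :
    v q (nrm z) = 0 ∧ c q (nrm z) = 0 := by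
  have ha3 : ¬ q ∣ z.a ^ 3 := fun h' => ha (h.hq.prime.dvd_of_dvd_pow h')
  have h1 : q ∣ z.a ^ 3 - nrm z := by
    refine ⟨-(star q * (z.b ^ 3 + p * z.c ^ 3 - 3 * z.a * z.b * z.c)), ?_⟩
    have hN := h.hN
    simp only [nrm]
    linear_combination (-(z.b ^ 3 + p * z.c ^ 3 - 3 * z.a * z.b * z.c)) * hN
  obtain ⟨h2, h3⟩ := c_of_congr h.hq ha3 h1
  have ha0 := ne_zero_of_not_dvd ha
  exact ⟨(v_eq_zero_iff h.hq (ne_zero_of_not_dvd h2)).mpr h2, by rw [← h3, c_cube h.hq ha0]⟩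

lemma vc_nrm1 (h : Dat p q) {z : Cub E (p : E)} (ha : q ∣ z.a) (hb : ¬ q ∣ z.b) :
    v q (nrm z) = 1 ∧ c q (nrm z) = 0 := by
  obtain ⟨a', ha'⟩ := ha
  have hN := h.hN
  set y := q ^ 2 * a' ^ 3 + star q * z.b ^ 3 + q * star q ^ 2 * z.c ^ 3
    - 3 * q * star q * a' * z.b * z.c with hy
  have h1 : nrm z = q ^ 1 * y := by
    rw [nrm_expand z hN, hy, ha']; ring
  have hsb : ¬ q ∣ star q * z.b ^ 3 := by
    intro h'
    rcases h.hq.prime.dvd_or_dvd h' with h2 | h2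
    · exact h.not_dvd_star h2
    · exact hb (h.hq.prime.dvd_of_dvd_pow h2)
  have h2 : q ∣ star q * z.b ^ 3 - y :=
    ⟨-(q * a' ^ 3 + star q ^ 2 * z.c ^ 3 - 3 * star q * a' * z.b * z.c), by rw [hy]; ring⟩
  obtain ⟨h3, h4⟩ := c_of_congr h.hq hsb h2
  obtain ⟨h5, h6⟩ := vc_eq h.hq h1 h3
  refine ⟨h5, ?_⟩
  have hb0 := ne_zero_of_not_dvd hb
  rw [h6, ← c_unit h.hq h3, ← h4, c_mul h.hq h.hq.star.prime.ne_zero (pow_ne_zero _ hb0),
    c_cube h.hq hb0, h.c_star_self, add_zero]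

lemma vc_nrm2 (h : Dat p q) {z : Cub E (p : E)} (ha : q ∣ z.a) (hb : q ∣ z.b) (hc : ¬ q ∣ z.c) :
    v q (nrm z) = 2 ∧ c q (nrm z) = 0 := by
  obtain ⟨a', ha'⟩ := ha
  obtain ⟨b', hb'⟩ := hb
  have hN := h.hN
  set y := q * a' ^ 3 + q ^ 2 * star q * b' ^ 3 + star q ^ 2 * z.c ^ 3
    - 3 * q * star q * a' * b' * z.c with hy
  have h1 : nrm z = q ^ 2 * y := by
    rw [nrm_expand z hN, hy, ha', hb']; ring
  have hsb : ¬ q ∣ star q ^ 2 * z.c ^ 3 := by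
    intro h'
    rcases h.hq.prime.dvd_or_dvd h' with h2 | h2
    · exact h.not_dvd_star (h.hq.prime.dvd_of_dvd_pow h2)
    · exact hc (h.hq.prime.dvd_of_dvd_pow h2)
  have h2 : q ∣ star q ^ 2 * z.c ^ 3 - y :=
    ⟨-(a' ^ 3 + q * star q * b' ^ 3 - 3 * star q * a' * b' * z.c), by rw [hy]; ring⟩
  obtain ⟨h3, h4⟩ := c_of_congr h.hq hsb h2
  obtain ⟨h5, h6⟩ := vc_eq h.hq h1 h3
  refine ⟨h5, ?_⟩
  have hc0 := ne_zero_of_not_dvd hc
  have hs0 := h.hq.star.prime.ne_zero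
  rw [h6, ← c_unit h.hq h3, ← h4, c_mul h.hq (pow_ne_zero _ hs0) (pow_ne_zero _ hc0),
    c_cube h.hq hc0, pow_two, c_mul h.hq hs0 hs0, h.c_star_self, add_zero, add_zero]

end Dat

lemma c_self (h : PP q) : c q q = 0 := by
  have := (vc_eq h (x := q) (y := 1) (k := 1) (by ring) h.prime.not_dvd_one).2
  rw [this, map_one, cF_one h]

/-- shape of elements supported at `3 p` -/
lemma Dat.exists_form (h : Dat p q) {n : E} (hn : n ≠ 0)
    (hd : ∀ w, PP w → w ∣ n → w ∣ (p : E)) :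
    ∃ (s0 : E) (m k i j : ℕ), (s0 = 1 ∨ s0 = -1) ∧ m < 3 ∧
      n = s0 * om ^ m * lam ^ k * q ^ i * star q ^ j := by
  obtain ⟨y, hy, hly⟩ := (FiniteMultiplicity.of_prime_left prime_lam hn).exists_eq_pow_mul_and_not_dvd
  obtain ⟨u, ms, hu, hms, hprod⟩ := exists_factor hly
  obtain ⟨s0, m, hs0, hm, hum⟩ := unit_form hu
  have hq' : ∀ w ∈ ms, w = q ∨ w = star q := by
    intro w hw
    have hwn : w ∣ n := by
      rw [hy, hprod]
      exact ((Multiset.dvd_prod hw).mul_left u).mul_left _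
    have h1 := hd w (hms w hw) hwn
    rw [h.hN] at h1
    rcases (hms w hw).prime.dvd_or_dvd h1 with h2 | h2
    · left; exact h.hq.eq_of_dvd (hms w hw) h2
    · right; exact h.hq.star.eq_of_dvd (hms w hw) h2
  have key : ∀ ms : Multiset E, (∀ w ∈ ms, w = q ∨ w = star q) →
      ∃ i j : ℕ, ms.prod = q ^ i * star q ^ j := by
    intro ms
    induction ms using Multiset.induction_on with
    | empty => intro _; exact ⟨0, 0, by simp⟩
    | cons a ms ih =>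
      intro H
      obtain ⟨i, j, hij⟩ := ih fun w hw => H w (Multiset.mem_cons_of_mem hw)
      rcases H a (Multiset.mem_cons_self a ms) with rfl | rfl
      · exact ⟨i + 1, j, by rw [Multiset.prod_cons, hij]; ring⟩
      · exact ⟨i, j + 1, by rw [Multiset.prod_cons, hij]; ring⟩
  obtain ⟨i, j, hij⟩ := key ms hq'
  exact ⟨s0, m, multiplicity lam n, i, j, hs0, hm, by
    conv_lhs => rw [hy, hprod, hij, hum]
    ring⟩

lemma Dat.vc_form (h : Dat p q) {s0 : E} {m k i j : ℕ} (hs : s0 = 1 ∨ s0 = -1) :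
    v q (s0 * om ^ m * lam ^ k * q ^ i * star q ^ j) = i ∧
    c q (s0 * om ^ m * lam ^ k * q ^ i * star q ^ j) = m * ex q + k * c q lam := by
  have hs0 : s0 ≠ 0 := by rcases hs with rfl | rfl <;> norm_num
  have hsv : v q s0 = 0 ∧ c q s0 = 0 := by
    rcases hs with rfl | rfl
    · exact ⟨v_one h.hq, c_one h.hq⟩
    · rw [(vc_neg h.hq one_ne_zero).1, (vc_neg h.hq one_ne_zero).2]
      exact ⟨v_one h.hq, c_one h.hq⟩
  have ho := isUnit_om.ne_zero
  have hl := lam_ne_zero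
  have hq0 := h.hq.prime.ne_zero
  have hst := h.hq.star.prime.ne_zero
  have vo : v q om = 0 := (v_eq_zero_iff h.hq ho).mpr
    (fun h' => h.hq.prime.not_isUnit (isUnit_of_dvd_unit h' isUnit_om))
  have vl : v q lam = 0 := (v_eq_zero_iff h.hq hl).mpr h.hq.not_dvd_lam
  have vs : v q (star q) = 0 := (v_eq_zero_iff h.hq hst).mpr h.not_dvd_star
  have n1 := mul_ne_zero hs0 (pow_ne_zero m ho)
  have n2 := mul_ne_zero n1 (pow_ne_zero k hl)
  have n3 := mul_ne_zero n2 (pow_ne_zero i hq0)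
  have n4 := pow_ne_zero j hst
  rw [v_mul h.hq n3 n4, v_mul h.hq n2 (pow_ne_zero i hq0), v_mul h.hq n1 (pow_ne_zero k hl),
    v_mul h.hq hs0 (pow_ne_zero m ho), c_mul h.hq n3 n4, c_mul h.hq n2 (pow_ne_zero i hq0),
    c_mul h.hq n1 (pow_ne_zero k hl), c_mul h.hq hs0 (pow_ne_zero m ho),
    (vc_pow h.hq ho m).1, (vc_pow h.hq ho m).2, (vc_pow h.hq hl k).1, (vc_pow h.hq hl k).2,
    (vc_pow h.hq hq0 i).1, (vc_pow h.hq hq0 i).2, (vc_pow h.hq hst j).1, (vc_pow h.hq hst j).2,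
    hsv.1, hsv.2, vo, vl, vs, v_self h.hq, c_self h.hq, h.c_om, h.c_star_self]
  constructor
  · ring
  · ring

end Pool.Agent.LibEis
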