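import Pool.Agent.LibEis.Jacobi

/-! Cubic reciprocity for primary primes of `ℤ[ω]`. -/

namespace Pool.Agent.LibEis

open scoped QuadraticAlgebra

lemma gaussSum_frob_iter' {R R' : Type*} [CommRing R] [Fintype R] [CommRing R'] (p : ℕ)
    [fp : Fact p.Prime] [hch : CharP R' p] (χ : MulChar R R') (ψ : AddChar R R') (n : ℕ) :
    gaussSum χ ψ ^ p ^ n = gaussSum (χ ^ p ^ n) (ψ ^ p ^ n) := by
  induction n with
  | zero => simp
  | succ n ih => rw [pow_succ, pow_mul, ih, gaussSum_frob p, ← pow_mul, ← pow_mul]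

lemma N_cast_mem (q : E) : q ∣ (N q : E) := by
  have h := mul_star_eq q
  have h2 : ((nm q : ℤ) : E) = (N q : E) := by
    have := nm_nonneg q
    have h3 : ((N q : ℕ) : ℤ) = nm q := by unfold N; omega
    rw [← h3]; norm_cast
  rw [← h2, ← h]
  exact dvd_mul_right _ _

/-- The basic relation obtained from Gauss sums. -/
lemma gauss_rel {q k : E} (hq : PP q) (hk : PP k) (hcop : ¬ k ∣ (N q : E)) :
    cF q (red q (N k : E)) + cF k (red k ((N q : E) * (-q))) = 0 := by
  classical
  let _ := fieldFq hq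
  let _ := fieldFq hk
  have fin1 := finite_Fq hq.prime.ne_zero
  let _ := Fintype.ofFinite (Fq q)
  have fin2 := finite_Fq hk.prime.ne_zero
  let _ := Fintype.ofFinite (Fq k)
  have hcq : Fintype.card (Fq q) = N q := by rw [← Nat.card_eq_fintype_card, card_Fq]
  have hck : Fintype.card (Fq k) = N k := by rw [← Nat.card_eq_fintype_card, card_Fq]
  obtain ⟨n, hp, hc⟩ := FiniteField.card (Fq q) (ringChar (Fq q))
  obtain ⟨n', hp', hc'⟩ := FiniteField.card (Fq k) (ringChar (Fq k))
  have hchar : ringChar (Fq k) ≠ ringChar (Fq q) := by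
    intro heq
    apply hcop
    rw [← red_eq_zero, map_natCast, ← hcq, hc, ← heq]
    push_cast
    rw [ringChar.Nat.cast_ringChar, zero_pow n.pos.ne']
  let ψ := AddChar.FiniteField.primitiveChar (Fq q) (Fq k) hchar
  let K' := CyclotomicField ψ.n (Fq k)
  let f : E →+* K' := (algebraMap (Fq k) K').comp (red k)
  have hinj := (algebraMap (Fq k) K').injective
  have hchK : ringChar (Fq k) = ringChar K' := Algebra.ringChar_eq (Fq k) K'
  let χ : MulChar (Fq q) K' := (chi hq).ringHomComp f
  have hfom : ∀ i : ℕ, f (om ^ i) = 1 → (i : ZMod 3) = 0 := by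
    intro i hi
    have h1 : algebraMap (Fq k) K' (red k (om ^ i)) = algebraMap (Fq k) K' 1 := by
      rw [map_one]; exact hi
    have h2 := hinj h1
    rw [map_pow] at h2
    have := red_om_pow_inj hk (i := i) (j := 0) (by rw [h2, pow_zero])
    simpa using this
  have hχ3 : χ ^ 3 = 1 := by
    show ((chi hq).ringHomComp f) ^ 3 = 1
    rw [MulChar.ringHomComp_pow, chi_pow_three, MulChar.ringHomComp_one]
  have hχ1 : χ ≠ 1 := by
    intro h1
    apply chi_ne_one hq
    apply MulChar.ext
    intro a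
    have h2 : χ a = 1 := by rw [h1, MulChar.one_apply_coe]
    have h3 : f (chi hq a) = 1 := h2
    rw [chi_apply hq a.ne_zero] at h3
    have h4 := hfom _ h3
    rw [ZMod.natCast_zmod_val] at h4
    rw [MulChar.one_apply_coe, chi_apply hq a.ne_zero, h4]
    rfl
  have hord : orderOf χ = 3 := by
    have : Fact (Nat.Prime 3) := ⟨by norm_num⟩
    exact orderOf_eq_prime hχ3 hχ1
  have hJ : jacobiSum χ χ = f (-q) := by
    have : jacobiSum χ χ = f (Jac hq) := jacobiSum_ringHomComp _ _ _
    rw [this, Jac_eq]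
  -- g ^ 3
  have hg3 : gaussSum χ ψ.char ^ 3 = f ((N q : E) * (-q)) := by
    have h1 := gaussSum_pow_eq_prod_jacobiSum (χ := χ) (ψ := ψ.char) (by rw [hord]; norm_num) ψ.prim
    rw [hord] at h1
    rw [h1]
    have h2 : χ (-1) = 1 := by
      show f (chi hq (-1)) = 1
      rw [chi_neg_one, map_one]
    have h3 : Finset.Ico 1 (3 - 1) = {1} := by decide
    rw [h2, h3, Finset.prod_singleton, pow_one, hJ, hcq, one_mul, map_mul, map_natCast]
  have hkq : ¬ k ∣ q := fun h => hcop (h.trans (N_cast_mem q))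
  have hX : ¬ k ∣ (N q : E) * (-q) := by
    intro h
    rcases hk.prime.dvd_or_dvd h with h1 | h1
    · exact hcop h1
    · exact hkq ((dvd_neg).mp h1)
  have hX0 : red k ((N q : E) * (-q)) ≠ 0 := fun h0 => hX (red_eq_zero.mp h0)
  have hg0 : gaussSum χ ψ.char ≠ 0 := by
    intro h0
    rw [h0, zero_pow (by norm_num)] at hg3
    apply hX0
    apply hinj
    rw [map_zero]; exact hg3.symm
  -- Frobenius
  have hfr : f (chi hq (red q (N k : E))) * gaussSum χ ψ.char ^ (N k) = gaussSum χ ψ.char := by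
    have hp'' : Fact (ringChar K').Prime := ⟨by rw [← hchK]; exact hp'⟩
    have h1 := gaussSum_frob_iter' (ringChar K') χ ψ.char n'
    have h2 : (ringChar K') ^ (n' : ℕ) = N k := by rw [← hck, hc', hchK]
    rw [h2] at h1
    have h3 : χ ^ (N k) = χ := by
      rw [N_eq hk, pow_add, pow_mul, hχ3, one_pow, one_mul, pow_one]
    rw [h3, AddChar.pow_mulShift] at h1
    have hu : IsUnit (red q (N k : E)) := by
      apply isUnit_iff_ne_zero.mpr
      rw [map_natCast, ← hck, hc']
      push_cast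
      apply pow_ne_zero
      intro h0
      apply hchar
      have h4 := ringChar.dvd h0
      exact ((Nat.prime_dvd_prime_iff_eq hp hp').mp h4).symm
    have h5 := gaussSum_mulShift χ ψ.char hu.unit
    rw [h1]
    have h6 : (hu.unit : Fq q) = ((N k : ℕ) : Fq q) := by
      rw [IsUnit.unit_spec, map_natCast]
    rw [h6] at h5
    rw [map_natCast]
    exact h5
  -- conclude
  have hfin : f (chi hq (red q (N k : E))) * f ((N q : E) * (-q)) ^ (ex k) = 1 := by
    have h1 : gaussSum χ ψ.char ^ (N k) = gaussSum χ ψ.char ^ (3 * ex k) * gaussSum χ ψ.char := by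
      rw [N_eq hk, pow_succ]
    rw [h1, pow_mul, hg3, ← mul_assoc] at hfr
    exact mul_right_cancel₀ hg0 (by rw [hfr, one_mul])
  have hqN : red q (N k : E) ≠ 0 := by
    intro h0
    rw [h0, chi_zero, map_zero, zero_mul] at hfin
    exact zero_ne_one hfin
  have h7 : f ((N q : E) * (-q)) ^ (ex k) =
      f (om ^ (cF k (red k ((N q : E) * (-q)))).val) := by
    show (algebraMap (Fq k) K' (red k ((N q : E) * (-q)))) ^ (ex k) =
      algebraMap (Fq k) K' (red k (om ^ (cF k (red k ((N q : E) * (-q)))).val))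
    rw [← map_pow, cF_spec hk hX0, map_pow (red k)]
  rw [h7, chi_apply hq hqN, ← map_mul, ← pow_add] at hfin
  have h8 := hfom _ hfin
  push_cast at h8
  rw [ZMod.natCast_zmod_val, ZMod.natCast_zmod_val] at h8
  exact h8

lemma N_cast_eq (q : E) : (N q : E) = q * star q := by
  rw [mul_star_eq]
  have := nm_nonneg q
  have h3 : ((N q : ℕ) : ℤ) = nm q := by unfold N; omega
  rw [← h3]; norm_cast

lemma PP.eq_of_dvd {q k : E} (hq : PP q) (hk : PP k) (h : k ∣ q) : k = q := by
  obtain ⟨u, hu⟩ := hk.prime.associated_of_dvd hq.prime h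
  have h1 : Prim (u : E) := by
    obtain ⟨a, ha⟩ := hk.prim
    obtain ⟨b, hb⟩ := hq.prim
    exact ⟨b - a * u, by linear_combination hb - u * ha + hu⟩
  have h2 := prim_unit u.isUnit h1
  rw [h2, mul_one] at hu
  exact hu

lemma not_dvd_N_symm {q k : E} (hq : PP q) (hk : PP k) (h : ¬ k ∣ (N q : E)) :
    ¬ q ∣ (N k : E) := by
  intro h1
  rw [N_cast_eq] at h h1
  rcases hq.prime.dvd_or_dvd h1 with h2 | h2
  · have := hk.eq_of_dvd hq h2
    rw [this] at h; exact h (dvd_mul_right _ _)
  · have := hk.star.eq_of_dvd hq h2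
    apply h
    rw [this, star_star]; exact dvd_mul_left _ _

/-- Reciprocity for primary primes with coprime norms. -/
lemma recip1 {q k : E} (hq : PP q) (hk : PP k) (h : ¬ k ∣ (N q : E)) : c q k = c k q := by
  have h' := not_dvd_N_symm hq hk h
  have h1 := gauss_rel hq hk h
  have h2 := gauss_rel hk hq h'
  have hkq : ¬ k ∣ q := fun h3 => h (h3.trans (N_cast_mem q))
  have hqk : ¬ q ∣ k := fun h3 => h' (h3.trans (N_cast_mem k))
  have n1 : red k (N q : E) ≠ 0 := fun h0 => h (red_eq_zero.mp h0)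
  have n2 : red q (N k : E) ≠ 0 := fun h0 => h' (red_eq_zero.mp h0)
  have n3 : red k (-q) ≠ 0 := fun h0 => hkq ((dvd_neg).mp (red_eq_zero.mp h0))
  have n4 : red q (-k) ≠ 0 := fun h0 => hqk ((dvd_neg).mp (red_eq_zero.mp h0))
  rw [map_mul, cF_mul hk n1 n3] at h1
  rw [map_mul, cF_mul hq n2 n4] at h2
  have e1 : cF k (red k (-q)) = c k q := by
    have := (vc_neg hk hq.prime.ne_zero).2
    rw [← this, c_unit hk]
    rw [dvd_neg]; exact hkq
  have e2 : cF q (red q (-k)) = c q k := by
    have := (vc_neg hq hk.prime.ne_zero).2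
    rw [← this, c_unit hq]
    rw [dvd_neg]; exact hqk
  rw [← e1, ← e2]
  linear_combination h2 - h1

end Pool.Agent.LibEis
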