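import Pool.Agent.LibEis.Ram

/-! Complex conjugation on `ℤ[ω][θ]` and the two possible shapes of `nrm α`. -/

namespace Pool.Agent.LibEis

open scoped QuadraticAlgebra

lemma star_mul' (x y : E) : star (x * y) = star x * star y := by rw [star_mul, mul_comm]

namespace Cub

variable {P : E}

/-- complex conjugation -/
def tau (z : Cub E P) : Cub E P := ⟨star z.a, star z.b, star z.c⟩

@[simp] lemma tau_a (z : Cub E P) : (tau z).a = star z.a := rfl
@[simp] lemma tau_b (z : Cub E P) : (tau z).b = star z.b := rfl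
@[simp] lemma tau_c (z : Cub E P) : (tau z).c = star z.c := rfl

lemma tau_mul (hP : star P = P) (x y : Cub E P) : tau (x * y) = tau x * tau y := by
  refine Cub.ext ?_ ?_ ?_
  · simp only [tau_a, tau_b, tau_c, mul_a, star_add, star_mul', hP]
  · simp only [tau_a, tau_b, tau_c, mul_b, star_add, star_mul', hP]
  · simp only [tau_a, tau_b, tau_c, mul_c, star_add, star_mul']

lemma tau_tau (z : Cub E P) : tau (tau z) = z := by
  refine Cub.ext ?_ ?_ ?_ <;> simp

lemma tau_sig (z : Cub E P) : tau (sig z) = sig (sig (tau z)) := by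
  have h := om_cube
  refine Cub.ext rfl ?_ ?_
  · simp only [tau_b, sig_b, star_mul', star_om]; ring
  · simp only [tau_c, sig_c, star_mul', star_pow, star_om]; ring

lemma nrm_tau (hP : star P = P) (z : Cub E P) : nrm (tau z) = star (nrm z) := by
  have h3 : star (3 : E) = 3 := star_three
  simp only [nrm, tau_a, tau_b, tau_c, star_sub, star_add, star_mul', star_pow, hP, h3]

lemma nrm_ne_zero_of {α : Cub E P} {q p' : E} (hq : Prime q) (hp : P = q * p') (hp' : ¬ q ∣ p')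
    (hα : α ≠ 0) : nrm α ≠ 0 := fun h => hα ((nrm_eq_zero hq hp hp').mp h)

lemma kappa {ε α : Cub E P} (hP : star P = P) (he : tau ε = ε) (hN : nrm ε = 1)
    (h : sig α = ε * α) : ∃ k : ℤ, nm (nrm α) = k ^ 3 := by
  have h1 : sig (sig (tau α)) = ε * tau α := by
    rw [← tau_sig, h, tau_mul hP, he]
  have h2 : tau α = sig ε * sig (tau α) := by
    rw [← map_mul, ← h1, sig_sig_sig]
  set K := ε * α * tau α with hK
  have h3 : sig K = K := by
    rw [hK, map_mul, map_mul, h]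
    conv_rhs => rw [h2]
    ring
  have h4 := sig_fixed h3
  have h5 : tau K = K := by
    rw [hK, tau_mul hP, tau_mul hP, he, tau_tau]; ring
  have h6 : star K.a = K.a := congrArg Cub.a h5
  have h7 : K.a.im = 0 := by
    have := congrArg QuadraticAlgebra.im h6
    simp at this; omega
  have h8 : K.a = (K.a.re : E) := by
    ext
    · simp
    · simp [h7]
  refine ⟨K.a.re, ?_⟩
  have h9 : nrm K = K.a ^ 3 := by
    conv_lhs => rw [h4]
    rw [nrm_C]
  have h10 : nrm K = (nm (nrm α) : E) := by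
    rw [hK, nrm_mul, nrm_mul, hN, nrm_tau hP, one_mul, mul_star_eq]
  rw [h10, h8] at h9
  exact_mod_cast h9

/-- the shape of `α` in the exceptional case -/
structure CB (q : E) (α : Cub E P) : Prop where
  n : ∃ κ : E, κ ≠ 0 ∧ (∀ w, PP w → ¬ w ∣ κ) ∧ nrm α = κ ^ 3 * (q * star q ^ 2)
  qa : q ∣ α.a
  qb : ¬ q ∣ α.b
  sa : star q ∣ α.a
  sb : star q ∣ α.b
  sc : ¬ star q ∣ α.c

end Cub

open Cub

lemma nm_pow (x : E) (n : ℕ) : nm (x ^ n) = nm x ^ n := by
  induction n with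
  | zero => simp [nm_one]
  | succ n ih => rw [pow_succ, nm_mul, ih, pow_succ]

/-- a small lemma on perfect cubes -/
lemma three_dvd_exps {p : ℕ} (hp : p.Prime) (h3 : p ≠ 3) {k l : ℕ} {n : ℤ}
    (h : (3 : ℤ) ^ k * (p : ℤ) ^ l = n ^ 3) : 3 ∣ k ∧ 3 ∣ l := by
  have hF : Fact p.Prime := ⟨hp⟩
  have hF3 : Fact (Nat.Prime 3) := ⟨by norm_num⟩
  have h1 : 3 ^ k * p ^ l = n.natAbs ^ 3 := by
    have : (((3 : ℤ) ^ k * (p : ℤ) ^ l).natAbs) = n.natAbs ^ 3 := by rw [h, Int.natAbs_pow]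
    rw [← this, Int.natAbs_mul, Int.natAbs_pow, Int.natAbs_pow]; rfl
  have hn : n.natAbs ≠ 0 := by
    intro h0
    rw [h0] at h1
    have : 0 < 3 ^ k * p ^ l := by have := hp.pos; positivity
    omega
  constructor
  · have h2 := congrArg (padicValNat 3) h1
    rw [padicValNat.mul (by positivity) (pow_ne_zero _ hp.ne_zero), padicValNat.pow,
      padicValNat.pow, padicValNat.pow, padicValNat.self (by norm_num),
      padicValNat_primes (Ne.symm h3)] at h2
    omega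
  · have h2 := congrArg (padicValNat p) h1
    rw [padicValNat.mul (by positivity) (pow_ne_zero _ hp.ne_zero), padicValNat.pow,
      padicValNat.pow, padicValNat.pow, padicValNat.self hp.one_lt,
      padicValNat_primes h3] at h2
    omega

variable {p : ℕ} {q : E}

lemma Dat.ne_three (h : Dat p q) : p ≠ 3 := by
  have := h.hmod; omega

lemma star_natCast (n : ℕ) : star (n : E) = n := by
  ext <;> simp

lemma Dat.nrm_ne (h : Dat p q) {α : Cub E (p : E)} (hα : α ≠ 0) : nrm α ≠ 0 :=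
  nrm_ne_zero_of h.hq.prime h.hN h.not_dvd_star hα

lemma Dat.dvd_p_of_dvd_nrm (h : Dat p q) {ε α : Cub E (p : E)} (hα : Prm α)
    (hs : sig α = ε * α) : ∀ w, PP w → w ∣ nrm α → w ∣ (p : E) := by
  intro w hw hd
  by_contra hp
  obtain ⟨h1, h2, h3⟩ := nrm_dvd_27 hs
  have h27 : ¬ w ∣ (27 : E) := by
    intro h'
    have : (27 : E) = 3 ^ 3 := by norm_num
    rw [this] at h'
    exact hw.not_dvd_three (hw.prime.dvd_of_dvd_pow h')
  refine hα.not_all hw.prime.not_isUnit ?_ ?_ ?_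
  · rcases hw.prime.dvd_or_dvd (hd.trans h1) with h4 | h4
    · exact absurd h4 h27
    · exact hw.prime.dvd_of_dvd_pow h4
  · rcases hw.prime.dvd_or_dvd (hd.trans h2) with h4 | h4
    · rcases hw.prime.dvd_or_dvd h4 with h5 | h5
      · exact absurd h5 h27
      · exact absurd h5 hp
    · exact hw.prime.dvd_of_dvd_pow h4
  · rcases hw.prime.dvd_or_dvd (hd.trans h3) with h4 | h4
    · rcases hw.prime.dvd_or_dvd h4 with h5 | h5
      · exact absurd h5 h27
      · exact absurd (hw.prime.dvd_of_dvd_pow h5) hp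
    · exact hw.prime.dvd_of_dvd_pow h4

/-- the three types at a ramified prime -/
lemma Dat.types (h : Dat p q) {α : Cub E (p : E)} (hα : Prm α) :
    c q (nrm α) = 0 ∧
    ((v q (nrm α) = 0 ∧ ¬ q ∣ α.a) ∨ (v q (nrm α) = 1 ∧ q ∣ α.a ∧ ¬ q ∣ α.b) ∨
      (v q (nrm α) = 2 ∧ q ∣ α.a ∧ q ∣ α.b ∧ ¬ q ∣ α.c)) := by
  by_cases ha : q ∣ α.a
  · by_cases hb : q ∣ α.b
    · have hc := hα.not_all h.hq.prime.not_isUnit ha hb
      obtain ⟨h1, h2⟩ := h.vc_nrm2 ha hb hc
      exact ⟨h2, Or.inr (Or.inr ⟨h1, ha, hb, hc⟩)⟩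
    · obtain ⟨h1, h2⟩ := h.vc_nrm1 ha hb
      exact ⟨h2, Or.inr (Or.inl ⟨h1, ha, hb⟩)⟩
  · obtain ⟨h1, h2⟩ := h.vc_nrm0 ha
    exact ⟨h2, Or.inl ⟨h1, ha⟩⟩

theorem Dat.cases (h : Dat p q) {ε α : Cub E (p : E)} (he : tau ε = ε) (hN : nrm ε = 1)
    (hα : Prm α) (hs : sig α = ε * α) :
    (∃ κ : E, κ ≠ 0 ∧ nrm α = κ ^ 3) ∨ CB q α ∨ CB (star q) α := by
  have hn0 := h.nrm_ne hα.ne_zero
  obtain ⟨s0, m, k, i, j, hs0, hm, hform⟩ := h.exists_form hn0 (h.dvd_p_of_dvd_nrm hα hs)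
  obtain ⟨k0, hk0⟩ := kappa (star_natCast p) he hN hs
  have hv1 := h.vc_form (m := m) (k := k) (i := i) (j := j) hs0
  rw [← hform] at hv1
  have hv2 := h.symm.vc_form (m := m) (k := k) (i := j) (j := i) hs0
  have hform2 : nrm α = s0 * om ^ m * lam ^ k * star q ^ j * star (star q) ^ i := by
    rw [hform, star_star]; ring
  rw [← hform2] at hv2
  have hnm : nm (nrm α) = 3 ^ k * (p : ℤ) ^ (i + j) := by
    rw [hform, nm_mul, nm_mul, nm_mul, nm_mul, nm_pow, nm_pow, nm_pow, nm_pow, nm_om, nm_lam,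
      nm_star, h.nm_q]
    have : nm s0 = 1 := by
      rcases hs0 with rfl | rfl
      · exact nm_one
      · simp [nm]
    rw [this]; ring
  rw [hnm] at hk0
  obtain ⟨hk, hij⟩ := three_dvd_exps h.pp h.ne_three hk0
  obtain ⟨hc1, ht1⟩ := h.types hα
  obtain ⟨hc2, ht2⟩ := h.symm.types hα
  rw [hv1.1] at ht1
  rw [hv2.1] at ht2
  have hm0 : m = 0 := by
    have h1 := hv1.2
    rw [hc1] at h1
    have h2 : (k : ZMod 3) = 0 := (ZMod.natCast_eq_zero_iff _ _).mpr hk
    rw [h2, zero_mul, add_zero] at h1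
    rcases mul_eq_zero.mp h1.symm with h3 | h3
    · have := (ZMod.natCast_eq_zero_iff _ _).mp h3
      omega
    · exact absurd h3 h.ex_ne
  obtain ⟨k', rfl⟩ := hk
  subst hm0
  have hs03 : s0 ^ 3 = s0 := by rcases hs0 with rfl | rfl <;> norm_num
  have hs0n : s0 ≠ 0 := by rcases hs0 with rfl | rfl <;> norm_num
  have hκ0 : s0 * lam ^ k' ≠ 0 := mul_ne_zero hs0n (pow_ne_zero _ lam_ne_zero)
  have hκ : ∀ w, PP w → ¬ w ∣ s0 * lam ^ k' := by
    intro w hw h'
    rcases hw.prime.dvd_or_dvd h' with h1 | h1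
    · apply hw.prime.not_isUnit
      apply isUnit_of_dvd_unit h1
      rcases hs0 with rfl | rfl
      · exact isUnit_one
      · exact isUnit_one.neg
    · exact hw.not_dvd_lam (hw.prime.dvd_of_dvd_pow h1)
  rcases ht1 with ⟨hi, h1⟩ | ⟨hi, h1, h1'⟩ | ⟨hi, h1, h1', h1''⟩ <;>
  rcases ht2 with ⟨hj, h2⟩ | ⟨hj, h2, h2'⟩ | ⟨hj, h2, h2', h2''⟩ <;>
  subst hi <;> subst hj <;> try (exfalso; omega)
  · left
    exact ⟨s0 * lam ^ k', hκ0, by rw [hform, mul_pow, hs03]; ring⟩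
  · right; left
    exact ⟨⟨s0 * lam ^ k', hκ0, hκ, by rw [hform, mul_pow, hs03]; ring⟩, h1, h1', h2, h2', h2''⟩
  · right; right
    refine ⟨⟨s0 * lam ^ k', hκ0, hκ, by rw [hform, mul_pow, hs03, star_star]; ring⟩, h2, h2', ?_, ?_, ?_⟩
    · rw [star_star]; exact h1
    · rw [star_star]; exact h1'
    · rw [star_star]; exact h1''

end Pool.Agent.LibEis
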