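import Pool.Agent.LibEis.Char

/-! Valuation, cubic character and tame symbol at a primary prime of `ℤ[ω]`, all with values in
`ZMod 3` (logarithmic form). -/

namespace Pool.Agent.LibEis

open scoped QuadraticAlgebra

section

variable {q : E}

lemma red_om_ne_zero (h : PP q) : red q om ≠ 0 := by
  intro h0
  exact h.prime.not_isUnit (isUnit_of_dvd_unit (red_eq_zero.mp h0) isUnit_om)

lemma red_om_orderOf (h : PP q) : orderOf (red q om) = 3 := by
  have : Fact (Nat.Prime 3) := ⟨by norm_num⟩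
  exact orderOf_eq_prime red_om_cube (red_om_ne_one h)

lemma red_om_pow_inj (h : PP q) {i j : ℕ} (hij : red q om ^ i = red q om ^ j) :
    (i : ZMod 3) = j := by
  let _ := fieldFq h
  have h1 : i ≡ j [MOD orderOf (red q om)] := by
    have hu : IsUnit (red q om) := isUnit_iff_ne_zero.mpr (red_om_ne_zero h)
    obtain ⟨u, hu⟩ := hu
    have h2 : orderOf (red q om) = orderOf u := by rw [← hu, orderOf_units]
    rw [h2, ← pow_eq_pow_iff_modEq]
    ext
    push_cast
    rw [hu, hij]
  rw [red_om_orderOf h] at h1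
  exact (ZMod.natCast_eq_natCast_iff _ _ _).mpr h1

lemma red_om_pow_congr {i j : ℕ} (hij : (i : ZMod 3) = j) : red q om ^ i = red q om ^ j := by
  have h1 : i ≡ j [MOD 3] := (ZMod.natCast_eq_natCast_iff _ _ _).mp hij
  have h2 : om ^ i = om ^ j := by rw [om_pow_eq i, om_pow_eq j, h1]
  rw [← map_pow, ← map_pow, h2]

/-- log of the cubic character on the residue ring -/
noncomputable def cF (q : E) (a : Fq q) : ZMod 3 :=
  open Classical in if a ^ ex q = 1 then 0 else if a ^ ex q = red q om then 1 else 2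

lemma cF_spec (h : PP q) {a : Fq q} (ha : a ≠ 0) : a ^ ex q = red q om ^ (cF q a).val := by
  unfold cF
  rcases cube_root_cases h (pow_ex_cube h ha) with h1 | h1 | h1
  · simp [h1]
  · rw [if_neg (by rw [h1]; exact red_om_ne_one h), if_pos h1, h1]
    simp [ZMod.val_one]
  · rw [if_neg, if_neg, h1]
    · rfl
    · intro h2
      rw [h1] at h2
      have : red q om ^ 2 = red q om ^ 1 := by rw [h2, pow_one]
      have := red_om_pow_inj h this
      revert this; decide
    · intro h2
      rw [h1] at h2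
      have : red q om ^ 2 = red q om ^ 0 := by rw [h2, pow_zero]
      have := red_om_pow_inj h this
      revert this; decide

lemma cF_unique (h : PP q) {a : Fq q} (ha : a ≠ 0) {j : ℕ} (hj : a ^ ex q = red q om ^ j) :
    cF q a = j := by
  rw [cF_spec h ha] at hj
  have := red_om_pow_inj h hj
  simpa using this

lemma cF_mul (h : PP q) {a b : Fq q} (ha : a ≠ 0) (hb : b ≠ 0) :
    cF q (a * b) = cF q a + cF q b := by
  let _ := fieldFq h
  have h1 : (a * b) ^ ex q = red q om ^ ((cF q a).val + (cF q b).val) := by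
    rw [mul_pow, cF_spec h ha, cF_spec h hb, pow_add]
  have := cF_unique h (mul_ne_zero ha hb) h1
  rw [this]; simp

lemma cF_one (h : PP q) : cF q 1 = 0 := by
  let _ := fieldFq h
  have := cF_unique h (a := 1) one_ne_zero (j := 0) (by simp)
  simpa using this

lemma cF_neg_one (h : PP q) : cF q (-1) = 0 := by
  let _ := fieldFq h
  have h1 : cF q ((-1) * (-1)) = cF q (-1) + cF q (-1) :=
    cF_mul h (neg_ne_zero.mpr one_ne_zero) (neg_ne_zero.mpr one_ne_zero)
  rw [neg_mul_neg, one_mul, cF_one h] at h1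
  revert h1
  generalize cF q (-1) = t
  revert t; decide

lemma cF_om (h : PP q) : cF q (red q om) = (ex q : ℕ) := cF_unique h (red_om_ne_zero h) rfl

/-- valuation -/
noncomputable def v (q x : E) : ℕ := multiplicity q x

/-- prime-to-`q` part -/
noncomputable def upart (q x : E) : E :=
  open Classical in if h : ∃ y, x = q ^ (v q x) * y ∧ ¬ q ∣ y then h.choose else 1

/-- log of the cubic character of the prime-to-`q` part -/
noncomputable def c (q x : E) : ZMod 3 := cF q (red q (upart q x))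

lemma upart_spec (h : PP q) {x : E} (hx : x ≠ 0) :
    x = q ^ (v q x) * upart q x ∧ ¬ q ∣ upart q x := by
  have hf : FiniteMultiplicity q x := FiniteMultiplicity.of_prime_left h.prime hx
  have h1 := hf.exists_eq_pow_mul_and_not_dvd
  have h2 : ∃ y, x = q ^ (v q x) * y ∧ ¬ q ∣ y := h1
  rw [upart, dif_pos h2]
  exact h2.choose_spec

lemma vc_eq (h : PP q) {x y : E} {k : ℕ} (hx : x = q ^ k * y) (hy : ¬ q ∣ y) :
    v q x = k ∧ c q x = cF q (red q y) := by
  have hy0 : y ≠ 0 := fun h0 => hy (h0 ▸ dvd_zero q)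
  have hx0 : x ≠ 0 := by rw [hx]; exact mul_ne_zero (pow_ne_zero _ h.prime.ne_zero) hy0
  have hv : v q x = k := by
    apply multiplicity_eq_of_dvd_of_not_dvd
    · exact ⟨y, hx⟩
    · rintro ⟨z, hz⟩
      rw [hx, pow_succ, mul_assoc] at hz
      have := mul_left_cancel₀ (pow_ne_zero _ h.prime.ne_zero) hz
      exact hy ⟨z, this⟩
  refine ⟨hv, ?_⟩
  have h1 := (upart_spec h hx0).1
  rw [hv] at h1
  have h2 : upart q x = y := by
    rw [h1] at hx
    exact mul_left_cancel₀ (pow_ne_zero _ h.prime.ne_zero) hx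
  rw [c, h2]

lemma v_eq_zero_iff (h : PP q) {x : E} (hx : x ≠ 0) : v q x = 0 ↔ ¬ q ∣ x := by
  constructor
  · intro h0
    have := upart_spec h hx
    rw [h0, pow_zero, one_mul] at this
    rw [this.1]; exact this.2
  · intro h1
    exact (vc_eq h (k := 0) (by rw [pow_zero, one_mul]) h1).1

lemma v_pos_iff (h : PP q) {x : E} (hx : x ≠ 0) : 0 < v q x ↔ q ∣ x := by
  have := v_eq_zero_iff h hx
  constructor
  · intro h1
    by_contra h2
    have := this.mpr h2; omega
  · intro h1
    by_contra h2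
    have h3 : v q x = 0 := by omega
    exact (this.mp h3) h1

lemma c_unit (h : PP q) {x : E} (hx : ¬ q ∣ x) : c q x = cF q (red q x) :=
  (vc_eq h (k := 0) (by rw [pow_zero, one_mul]) hx).2

lemma vc_mul (h : PP q) {x y : E} (hx : x ≠ 0) (hy : y ≠ 0) :
    v q (x * y) = v q x + v q y ∧ c q (x * y) = c q x + c q y := by
  obtain ⟨h1, h2⟩ := upart_spec h hx
  obtain ⟨h3, h4⟩ := upart_spec h hy
  have h5 : x * y = q ^ (v q x + v q y) * (upart q x * upart q y) := by
    conv_lhs => rw [h1, h3]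
    rw [pow_add]; ring
  have h6 : ¬ q ∣ upart q x * upart q y := fun h' => (h.prime.dvd_or_dvd h').elim h2 h4
  obtain ⟨h7, h8⟩ := vc_eq h h5 h6
  refine ⟨h7, ?_⟩
  rw [h8, map_mul, cF_mul h]
  · rfl
  · intro h0; exact h2 (red_eq_zero.mp h0)
  · intro h0; exact h4 (red_eq_zero.mp h0)

lemma v_mul (h : PP q) {x y : E} (hx : x ≠ 0) (hy : y ≠ 0) : v q (x * y) = v q x + v q y :=
  (vc_mul h hx hy).1

lemma c_mul (h : PP q) {x y : E} (hx : x ≠ 0) (hy : y ≠ 0) : c q (x * y) = c q x + c q y :=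
  (vc_mul h hx hy).2

lemma v_one (h : PP q) : v q 1 = 0 :=
  (v_eq_zero_iff h one_ne_zero).mpr h.prime.not_dvd_one

lemma c_one (h : PP q) : c q 1 = 0 := by
  rw [c_unit h h.prime.not_dvd_one, map_one, cF_one h]

lemma vc_neg (h : PP q) {x : E} (hx : x ≠ 0) : v q (-x) = v q x ∧ c q (-x) = c q x := by
  have h1 : ¬ q ∣ (-1 : E) := by rw [dvd_neg]; exact h.prime.not_dvd_one
  have h2 := vc_mul h (neg_ne_zero.mpr one_ne_zero) hx (x := (-1 : E))
  have h3 : v q (-1 : E) = 0 := (v_eq_zero_iff h (neg_ne_zero.mpr one_ne_zero)).mpr h1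
  have h4 : c q (-1 : E) = 0 := by rw [c_unit h h1, map_neg, map_one, cF_neg_one h]
  rw [neg_one_mul, h3, h4, zero_add, zero_add] at h2
  exact h2

/-- the key perturbation property -/
lemma vc_add (h : PP q) {x y : E} (hx : x ≠ 0) (hy : y = 0 ∨ v q x < v q y) :
    x + y ≠ 0 ∧ v q (x + y) = v q x ∧ c q (x + y) = c q x := by
  rcases hy with rfl | hy
  · simp [hx]
  rcases eq_or_ne y 0 with rfl | hy0
  · simp [hx]
  obtain ⟨h1, h2⟩ := upart_spec h hx
  obtain ⟨h3, h4⟩ := upart_spec h hy0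
  obtain ⟨m, hm⟩ : ∃ m, v q y = v q x + (m + 1) := ⟨v q y - v q x - 1, by omega⟩
  have h5 : x + y = q ^ (v q x) * (upart q x + q * (q ^ m * upart q y)) := by
    conv_lhs => rw [h1, h3, hm]
    ring
  have h6 : ¬ q ∣ (upart q x + q * (q ^ m * upart q y)) := by
    intro h'
    exact h2 ((dvd_add_left (dvd_mul_right _ _)).mp h')
  obtain ⟨h7, h8⟩ := vc_eq h h5 h6
  refine ⟨?_, h7, ?_⟩
  · intro h0
    rw [h0] at h5
    rcases mul_eq_zero.mp h5.symm with h9 | h9
    · exact pow_ne_zero _ h.prime.ne_zero h9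
    · exact h6 (h9 ▸ dvd_zero q)
  · rw [h8, c]
    congr 1
    rw [red_eq_iff]
    exact ⟨q ^ m * upart q y, by ring⟩

/-- the tame symbol -/
noncomputable def s (q a b : E) : ZMod 3 := (v q b : ZMod 3) * c q a - (v q a : ZMod 3) * c q b

lemma s_self (a : E) : s q a a = 0 := by unfold s; ring

lemma s_swap (a b : E) : s q b a = - s q a b := by unfold s; ring

lemma s_mul_left (h : PP q) {a b : E} (x : E) (ha : a ≠ 0) (hb : b ≠ 0) :
    s q (a * b) x = s q a x + s q b x := by
  unfold s; rw [v_mul h ha hb, c_mul h ha hb]; push_cast; ring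

lemma s_mul_right (h : PP q) {a b : E} (x : E) (ha : a ≠ 0) (hb : b ≠ 0) :
    s q x (a * b) = s q x a + s q x b := by
  unfold s; rw [v_mul h ha hb, c_mul h ha hb]; push_cast; ring

lemma s_neg_left (h : PP q) {a : E} (x : E) (ha : a ≠ 0) : s q (-a) x = s q a x := by
  unfold s; rw [(vc_neg h ha).1, (vc_neg h ha).2]

lemma s_neg_right (h : PP q) {a : E} (x : E) (ha : a ≠ 0) : s q x (-a) = s q x a := by
  unfold s; rw [(vc_neg h ha).1, (vc_neg h ha).2]

lemma s_unit_unit (h : PP q) {a b : E} (ha : ¬ q ∣ a) (hb : ¬ q ∣ b) : s q a b = 0 := by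
  have ha0 : a ≠ 0 := fun h0 => ha (h0 ▸ dvd_zero q)
  have hb0 : b ≠ 0 := fun h0 => hb (h0 ▸ dvd_zero q)
  unfold s
  rw [(v_eq_zero_iff h ha0).mpr ha, (v_eq_zero_iff h hb0).mpr hb]; simp

/-- Steinberg relation -/
lemma steinberg (h : PP q) {x y z : E} (hx : x ≠ 0) (hy : y ≠ 0) (hz : z ≠ 0)
    (hxyz : x - y = z) : s q x y = s q x z + s q z y := by
  have hyneg : -y ≠ 0 := neg_ne_zero.mpr hy
  rcases lt_trichotomy (v q x) (v q y) with hlt | heq | hgt
  · have h1 := vc_add h hx (y := -y) (Or.inr (by rw [(vc_neg h hy).1]; exact hlt))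
    rw [← sub_eq_add_neg, hxyz] at h1
    unfold s; rw [h1.2.1, h1.2.2]; ring
  · rcases lt_or_ge (v q y) (v q z) with h2 | h2
    · have h3 := vc_add h hy (y := z) (Or.inr h2)
      have h4 : y + z = x := by rw [← hxyz]; ring
      rw [h4] at h3
      unfold s; rw [h3.2.1, h3.2.2]; ring
    · -- all valuations are equal
      have h3 : v q z = v q x := by
        rcases lt_or_eq_of_le h2 with h4 | h4
        · -- v z < v y, then v (z + y) = v z, contradiction
          have h5 := vc_add h hz (y := y) (Or.inr h4)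
          have h6 : z + y = x := by rw [← hxyz]; ring
          rw [h6] at h5
          omega
        · omega
      unfold s; rw [h3, ← heq]; ring
  · have h1 := vc_add h hyneg (y := x) (Or.inr (by rw [(vc_neg h hy).1]; exact hgt))
    have h2 : -y + x = z := by rw [← hxyz]; ring
    rw [h2, (vc_neg h hy).1, (vc_neg h hy).2] at h1
    unfold s; rw [h1.2.1, h1.2.2]; ring

end

end Pool.Agent.LibEis
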