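import Pool.Agent.LibEis.Product

/-! When 3 is a cube modulo `p = q * star q`, then `q * star q ^ 2 ≡ 1 mod 9`. -/

namespace Pool.Agent.LibEis

open scoped QuadraticAlgebra

lemma v_self {q : E} (hq : PP q) : v q q = 1 :=
  (vc_eq hq (x := q) (y := 1) (k := 1) (by ring) hq.prime.not_dvd_one).1

lemma S_PP_of_no_PP {a q : E} (hq : PP q) (ha : ∀ k, PP k → ¬ k ∣ a) : S a q = c q a := by
  classical
  have ha0 : a ≠ 0 := fun h0 => ha q hq (h0 ▸ dvd_zero _)
  unfold S
  rw [finsum_eq_sum_of_support_subset (s := {⟨q, hq⟩})]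
  · rw [Finset.sum_singleton]
    have h2 : v q a = 0 := (v_eq_zero_iff hq ha0).mpr (ha q hq)
    simp only [s, v_self hq, h2]
    push_cast; ring
  · intro w hw
    simp only [Finset.coe_singleton, Set.mem_singleton_iff]
    by_contra h
    apply hw
    apply s_unit_unit w.2 (ha w.1 w.2)
    intro h1; exact h (Subtype.ext (hq.eq_of_dvd w.2 h1))

lemma S_three {q : E} (hq : PP q) : S 3 q = c q 3 :=
  S_PP_of_no_PP hq fun _ hk => hk.not_dvd_three

lemma star_three : star (3 : E) = 3 := by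
  ext <;> simp [QuadraticAlgebra.re_ofNat]

lemma three_ne_zero' : (3 : E) ≠ 0 := by
  intro h
  have := congrArg QuadraticAlgebra.re h
  simp [QuadraticAlgebra.re_ofNat] at this

lemma c_star_three {q : E} (hq : PP q) : c (star q) 3 = - c q 3 := by
  have := (vc_star hq three_ne_zero').2
  rwa [star_three] at this

lemma S_three_qq {q : E} (hq : PP q) : S 3 (q * star q ^ 2) = - c q 3 := by
  rw [S_mul_right hq.prime.ne_zero (pow_ne_zero _ hq.star.prime.ne_zero) three_ne_zero',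
    S_pow_right hq.star.prime.ne_zero three_ne_zero', S_three hq, S_three hq.star, c_star_three hq]
  push_cast; ring

/-- `1 + 3 b (1 + 2 ω)` -/
def g9 (b : ℤ) : E := 1 + 3 * (b : E) * (1 + 2 * om)

lemma g9_prim (b : ℤ) : Prim (g9 b) := ⟨b * (1 + 2 * om), by unfold g9; ring⟩

lemma g9_not_lam (b : ℤ) : ¬ lam ∣ g9 b := (g9_prim b).not_lam

lemma g9_ne (b : ℤ) : g9 b ≠ 0 := fun h => g9_not_lam b (h ▸ dvd_zero _)

lemma S_g9_add (a b : ℤ) : S 3 (g9 (a + b)) = S 3 (g9 a) + S 3 (g9 b) := by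
  rw [← S_mul_right (g9_ne a) (g9_ne b) three_ne_zero']
  apply S_congr three_ne_zero' (g9_not_lam _)
  · exact ((g9_prim a).mul (g9_prim b)).not_lam
  · refine ⟨-(a * b * (1 + 2 * om) ^ 2), ?_⟩
    unfold g9; push_cast; ring

lemma S_g9 (b : ℤ) : S 3 (g9 b) = b * S 3 (g9 1) := by
  have h0 : S 3 (g9 0) = 0 := by
    have : g9 0 = 1 := by unfold g9; push_cast; ring
    rw [this, S_one_right]
  induction b using Int.induction_on with
  | zero => rw [h0]; push_cast; ring
  | succ n ih => rw [S_g9_add, ih]; push_cast; ring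
  | pred n ih =>
    have h1 := S_g9_add (-(n : ℤ) - 1) 1
    have h2 : -(n : ℤ) - 1 + 1 = -n := by ring
    rw [h2, ih] at h1
    push_cast at h1 ⊢
    linear_combination -h1

lemma qq_congr {q : E} (hq : Prim q) : ∃ b : ℤ, q.im = 3 * b ∧ (9 : E) ∣ q * star q ^ 2 - g9 b := by
  obtain ⟨⟨a, ha⟩, ⟨b, hb⟩⟩ := (prim_iff q).mp hq
  refine ⟨b, hb, ?_⟩
  have h1 : q = 1 + 3 * ((a : E) + b * om) := by
    ext
    · simp [om]; linarith
    · simp [om]; linarith
  have h2 : star q = 1 + 3 * ((a : E) + b * om ^ 2) := by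
    have := congrArg star h1
    rw [this, star_add, star_mul, star_add, star_mul, star_om, star_int, star_int, star_one,
      star_three]; ring
  rw [h2, h1]
  unfold g9
  have h3 := om_sq
  refine ⟨(a : E) - b - b * om + ((a : E) + b * om ^ 2) ^ 2 + 2 * ((a : E) + b * om) *
    ((a : E) + b * om ^ 2) + 3 * ((a : E) + b * om) * ((a : E) + b * om ^ 2) ^ 2, ?_⟩
  linear_combination (6 * (b : E)) * h3

/-- the primary prime above 7 -/
def p7 : E := ⟨-2, -3⟩

lemma nm_p7 : nm p7 = 7 := by norm_num [nm, p7]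

lemma prime_of_nm {q : E} {n : ℕ} (hn : n.Prime) (h : nm q = n) : Prime q := by
  have : Irreducible q := by
    refine ⟨?_, ?_⟩
    · intro hu
      have h1 := isUnit_iff_nm.mp hu
      rw [h] at h1
      have := hn.one_lt
      omega
    · intro a b hab
      have h1 : nm a * nm b = n := by rw [← nm_mul, ← hab, h]
      have ha := nm_nonneg a
      have hb := nm_nonneg b
      have h2 : (nm a).toNat * (nm b).toNat = n := by
        have : (((nm a).toNat * (nm b).toNat : ℕ) : ℤ) = n := by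
          push_cast; rw [Int.toNat_of_nonneg ha, Int.toNat_of_nonneg hb]; exact h1
        exact_mod_cast this
      rcases (Nat.prime_mul_iff.mp (h2 ▸ hn)) with ⟨_, h3⟩ | ⟨_, h3⟩
      · right; rw [isUnit_iff_nm]; omega
      · left; rw [isUnit_iff_nm]; omega
  exact this.prime

lemma PP_p7 : PP p7 := ⟨prime_of_nm (n := 7) (by norm_num) (by rw [nm_p7]; norm_num),
  by rw [prim_iff]; constructor <;> norm_num [p7]⟩

lemma c_p7_ne : c p7 3 ≠ 0 := by
  have hN : N p7 = 7 := by unfold N; rw [nm_p7]; rfl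
  have hex : ex p7 = 2 := by unfold ex; rw [hN]
  have h3 := PP_p7.not_dvd_three
  intro h
  rw [c_unit PP_p7 h3] at h
  have h1 := cF_spec PP_p7 (a := red p7 3) (fun h0 => h3 (red_eq_zero.mp h0))
  rw [h, hex] at h1
  have h2 : red p7 (3 ^ 2) = red p7 1 := by rw [map_pow, h1, map_one]; rfl
  rw [red_eq_iff] at h2
  have h4 : nm p7 ∣ nm ((3 : E) ^ 2 - 1) := by
    obtain ⟨k, hk⟩ := h2
    exact ⟨nm k, by rw [hk, nm_mul]⟩
  have h5 : ((3 : E) ^ 2 - 1) = ((8 : ℤ) : E) := by norm_num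
  rw [h5, nm_int, nm_p7] at h4
  norm_num at h4

lemma S_g9_one_ne : S 3 (g9 1) ≠ 0 := by
  obtain ⟨b, hb, h⟩ := qq_congr PP_p7.prim
  have hb' : b = -1 := by simp only [p7] at hb; omega
  have h1 : S 3 (p7 * star p7 ^ 2) = S 3 (g9 b) := by
    apply S_congr three_ne_zero' _ (g9_not_lam b) h
    exact (PP_p7.prim.mul (by
      have := PP_p7.star.prim
      rw [pow_two]; exact this.mul this)).not_lam
  rw [S_three_qq PP_p7, hb', S_g9] at h1
  intro h0
  rw [h0, mul_zero] at h1
  exact c_p7_ne (neg_eq_zero.mp h1)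

/-- If 3 is a cube modulo `q`, then `q * star q ^ 2 ≡ 1 mod 9`. -/
theorem nine_dvd_of_c_three {q : E} (hq : PP q) (h : c q 3 = 0) :
    (9 : E) ∣ q * star q ^ 2 - 1 := by
  obtain ⟨b, hb, h9⟩ := qq_congr hq.prim
  have h1 : S 3 (q * star q ^ 2) = S 3 (g9 b) := by
    apply S_congr three_ne_zero' _ (g9_not_lam b) h9
    exact (hq.prim.mul (by
      have := hq.star.prim
      rw [pow_two]; exact this.mul this)).not_lam
  rw [S_three_qq hq, h, neg_zero, S_g9] at h1
  have : Fact (Nat.Prime 3) := ⟨by norm_num⟩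
  have h2 : (b : ZMod 3) = 0 := by
    rcases mul_eq_zero.mp h1.symm with h2 | h2
    · exact h2
    · exact absurd h2 S_g9_one_ne
  have h3 : (3 : ℤ) ∣ b := (ZMod.intCast_zmod_eq_zero_iff_dvd b 3).mp h2 |> fun x => by exact_mod_cast x
  obtain ⟨t, rfl⟩ := h3
  obtain ⟨l, hl⟩ := h9
  refine ⟨l + t * (1 + 2 * om), ?_⟩
  unfold g9 at hl
  push_cast at hl
  linear_combination hl

end Pool.Agent.LibEis
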