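import Pool.Agent.LibEis.Glob2

/-! The 3-adic analysis of the unit. -/

namespace Pool.Agent.LibEis

open scoped QuadraticAlgebra

open Cub

lemma ta_check : ∀ x y z u : ZMod 3, u ≠ 0 → x + y + z = 1 →
    -(y + z) + (y + z) ^ 2 - y * z + u * (y ^ 3 + 2 * z ^ 3) = 0 →
    (x = 1 ∧ y = 0 ∧ z = 0) ∨ (x * u - y + z = u ∧ x + u * y - z = 0 ∧ -x + y + u * z = 0) ∨
    ((x * u - y + z) * u - (x + u * y - z) + (-x + y + u * z) = u ^ 2 ∧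
      (x * u - y + z) + u * (x + u * y - z) - (-x + y + u * z) = 0 ∧
      -(x * u - y + z) + (x + u * y - z) + u * (-x + y + u * z) = 0) := by decide

lemma dvd3_iff (n : ℤ) : (3 : ℤ) ∣ n ↔ (n : ZMod 3) = 0 := by
  have := ZMod.intCast_zmod_eq_zero_iff_dvd n 3
  rw [this]; rfl

section

variable {p : ℕ} {u : ℤ}

/-- `(θ - 1) ^ 3 / 3` -/
def ta (p : ℕ) (u : ℤ) : Cub ℤ (p : ℤ) := ⟨u, 1, -1⟩

lemma ta1 (hu : (p : ℤ) = 1 + 3 * u) (hu3 : ¬ (3 : ℤ) ∣ u) {ε : Cub ℤ (p : ℤ)} (hε : nrm ε = 1) :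
    ∃ (i : ℕ) (x y z : ℤ), ε * ta p u ^ i = ⟨u ^ i + 3 * x, 3 * y, 3 * z⟩ := by
  have hN : ε.a ^ 3 + (1 + 3 * u) * ε.b ^ 3 + (1 + 3 * u) ^ 2 * ε.c ^ 3
      - 3 * (1 + 3 * u) * ε.a * ε.b * ε.c = 1 := by
    rw [← hu]; exact hε
  obtain ⟨x, hx⟩ : ∃ x, x = ε.a := ⟨_, rfl⟩
  obtain ⟨y, hy⟩ : ∃ y, y = ε.b := ⟨_, rfl⟩
  obtain ⟨z, hz⟩ : ∃ z, z = ε.c := ⟨_, rfl⟩
  rw [← hx, ← hy, ← hz] at hN
  have hεe : ε = ⟨x, y, z⟩ := Cub.ext hx.symm hy.symm hz.symm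
  have h3 : ∃ k : ℤ, x = 1 + 3 * k - y - z := by
    obtain ⟨a', ha'⟩ := three_dvd_cube_sub x
    obtain ⟨b', hb'⟩ := three_dvd_cube_sub y
    obtain ⟨c', hc'⟩ := three_dvd_cube_sub z
    refine ⟨-a' - b' - c' - u * y ^ 3 - (2 * u + 3 * u ^ 2) * z ^ 3
      + (1 + 3 * u) * x * y * z, ?_⟩
    linear_combination hN - ha' - hb' - hc'
  obtain ⟨k, hk⟩ := h3
  have hR : -(y + z) + (y + z) ^ 2 - y * z + u * (y ^ 3 + 2 * z ^ 3) =
      3 * (-(k - 3 * k * u * y * z - 2 * k * y + k * y * z + k * y ^ 2 - 2 * k * z + k * z ^ 2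
        + 3 * k ^ 2 - 3 * k ^ 2 * y - 3 * k ^ 2 * z + 3 * k ^ 3 - u * y * z + u * y * z ^ 2
        + u * y ^ 2 * z + u ^ 2 * z ^ 3)) := by
    rw [hk] at hN
    have : 3 * (-(y + z) + (y + z) ^ 2 - y * z + u * (y ^ 3 + 2 * z ^ 3)) =
      3 * (3 * (-(k - 3 * k * u * y * z - 2 * k * y + k * y * z + k * y ^ 2 - 2 * k * z + k * z ^ 2
        + 3 * k ^ 2 - 3 * k ^ 2 * y - 3 * k ^ 2 * z + 3 * k ^ 3 - u * y * z + u * y * z ^ 2
        + u * y ^ 2 * z + u ^ 2 * z ^ 3))) := by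
      linear_combination hN
    linarith
  have c1 : (x : ZMod 3) + y + z = 1 := by
    have h0 : (3 : ZMod 3) = 0 := rfl
    rw [hk]; push_cast; rw [h0]; ring
  have c2 : -((y : ZMod 3) + z) + ((y : ZMod 3) + z) ^ 2 - y * z + u * (y ^ 3 + 2 * z ^ 3) = 0 := by
    have h0 : (3 : ZMod 3) = 0 := rfl
    have := congrArg (Int.cast (R := ZMod 3)) hR
    push_cast at this
    rw [this, h0]; ring
  have c3 : (u : ZMod 3) ≠ 0 := fun h0 => hu3 ((dvd3_iff u).mpr h0)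
  have hp1 : ((p : ℤ) : ZMod 3) = 1 := by
    rw [hu]; push_cast
    have h0 : (3 : ZMod 3) = 0 := rfl
    rw [h0]; ring
  have mk : ∀ (i : ℕ) (w : Cub ℤ (p : ℤ)), (3 : ℤ) ∣ w.a - u ^ i → (3 : ℤ) ∣ w.b → (3 : ℤ) ∣ w.c →
      ∃ (x y z : ℤ), w = ⟨u ^ i + 3 * x, 3 * y, 3 * z⟩ := by
    rintro i w ⟨a, ha⟩ ⟨b, hb⟩ ⟨c, hc⟩
    exact ⟨a, b, c, Cub.ext (by simp only; linarith) hb hc⟩
  -- first multiplication
  have ht : ε * ta p u = ⟨x * u + p * (-y + z), x + y * u + p * (-z), -x + y + z * u⟩ := by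
    rw [hεe]
    refine Cub.ext ?_ ?_ ?_
    · simp only [mul_a, ta]; ring
    · simp only [mul_b, ta]; ring
    · simp only [mul_c, ta]; ring
  rcases ta_check x y z u c3 c1 c2 with ⟨h1, h2, h4⟩ | ⟨h1, h2, h4⟩ | ⟨h1, h2, h4⟩
  · refine ⟨0, ?_⟩
    apply mk
    · rw [dvd3_iff, pow_zero, mul_one, hεe]; push_cast; rw [h1]; simp
    · rw [dvd3_iff, pow_zero, mul_one, hεe]; exact h2
    · rw [dvd3_iff, pow_zero, mul_one, hεe]; exact h4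
  · refine ⟨1, ?_⟩
    apply mk
    · rw [dvd3_iff, pow_one, ht]; simp only; push_cast
      have hp1' : (p : ZMod 3) = 1 := by simpa using hp1
      rw [hp1']; linear_combination h1
    · rw [dvd3_iff, pow_one, ht]; simp only; push_cast
      have hp1' : (p : ZMod 3) = 1 := by simpa using hp1
      rw [hp1']; linear_combination h2
    · rw [dvd3_iff, pow_one, ht]; simp only; push_cast
      linear_combination h4
  · refine ⟨2, ?_⟩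
    have hp1' : (p : ZMod 3) = 1 := by simpa using hp1
    have ht2 : ε * ta p u ^ 2 = (ε * ta p u) * ta p u := by ring
    apply mk
    · rw [dvd3_iff, ht2, ht]; simp only [mul_a, ta]; push_cast
      rw [hp1']; linear_combination h1
    · rw [dvd3_iff, ht2, ht]; simp only [mul_b, ta]; push_cast
      rw [hp1']; linear_combination h2
    · rw [dvd3_iff, ht2, ht]; simp only [mul_c, ta]; push_cast
      rw [hp1']; linear_combination h4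

lemma nrm_ta (hu : (p : ℤ) = 1 + 3 * u) : nrm (ta p u) = u ^ 3 := by
  simp only [nrm, ta]; rw [hu]; ring

lemma ta2 {c x y z P : ℤ} (hc : ¬ (3 : ℤ) ∣ c)
    (h : (c + 3 * x) ^ 3 + P * (3 * y) ^ 3 + P ^ 2 * (3 * z) ^ 3
      - 3 * P * (c + 3 * x) * (3 * y) * (3 * z) = c ^ 3) : (3 : ℤ) ∣ x := by
  have h1 : (3 : ℤ) ∣ c ^ 2 * x := by
    refine ⟨-(c * x ^ 2 + x ^ 3 + P * y ^ 3 + P ^ 2 * z ^ 3 - P * (c + 3 * x) * y * z), ?_⟩
    have : 9 * (c ^ 2 * x) = 9 * (3 * -(c * x ^ 2 + x ^ 3 + P * y ^ 3 + P ^ 2 * z ^ 3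
      - P * (c + 3 * x) * y * z)) := by linear_combination h
    linarith
  rcases Int.prime_three.dvd_or_dvd h1 with h2 | h2
  · exact absurd (Int.prime_three.dvd_of_dvd_pow h2) hc
  · exact h2

/-- comparison modulo 9 up to cubes -/
lemma cube_mod {X Q G H : E} (hG : G ≠ 0) (hH : H ≠ 0) (hX : ¬ lam ∣ X) (hQ : ¬ lam ∣ Q)
    (h : X * G ^ 3 = H ^ 3 * Q) : (9 : E) ∣ X - Q ∨ (9 : E) ∣ X + Q := by
  obtain ⟨G', hG1, hG2⟩ :=
    (FiniteMultiplicity.of_prime_left prime_lam hG).exists_eq_pow_mul_and_not_dvd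
  obtain ⟨H', hH1, hH2⟩ :=
    (FiniteMultiplicity.of_prime_left prime_lam hH).exists_eq_pow_mul_and_not_dvd
  set g := multiplicity lam G
  set k := multiplicity lam H
  have hXG : ¬ lam ∣ X * G' ^ 3 := fun h' => by
    rcases prime_lam.dvd_or_dvd h' with h1 | h1
    · exact hX h1
    · exact hG2 (prime_lam.dvd_of_dvd_pow h1)
  have hHQ : ¬ lam ∣ H' ^ 3 * Q := fun h' => by
    rcases prime_lam.dvd_or_dvd h' with h1 | h1
    · exact hH2 (prime_lam.dvd_of_dvd_pow h1)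
    · exact hQ h1
  have e1 : lam ^ (3 * g) * (X * G' ^ 3) = lam ^ (3 * k) * (H' ^ 3 * Q) := by
    rw [hG1, hH1, mul_pow, mul_pow, ← pow_mul, ← pow_mul, mul_comm g 3, mul_comm k 3] at h
    linear_combination h
  have hgk : g = k := by
    rcases lt_trichotomy g k with h1 | h1 | h1
    · exfalso
      obtain ⟨d, hd⟩ : ∃ d, 3 * k = 3 * g + (d + 1) := ⟨3 * k - 3 * g - 1, by omega⟩
      rw [hd, pow_add, mul_assoc] at e1
      have e2 := mul_left_cancel₀ (pow_ne_zero _ lam_ne_zero) e1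
      exact hXG ⟨lam ^ d * (H' ^ 3 * Q), by rw [e2]; ring⟩
    · exact h1
    · exfalso
      obtain ⟨d, hd⟩ : ∃ d, 3 * g = 3 * k + (d + 1) := ⟨3 * g - 3 * k - 1, by omega⟩
      rw [hd, pow_add, mul_assoc] at e1
      have e2 := mul_left_cancel₀ (pow_ne_zero _ lam_ne_zero) e1
      exact hHQ ⟨lam ^ d * (X * G' ^ 3), by rw [← e2]; ring⟩
  rw [hgk] at e1
  have e2 := mul_left_cancel₀ (pow_ne_zero _ lam_ne_zero) e1
  rcases cube_mod_nine hG2 with ⟨a, ha⟩ | ⟨a, ha⟩ <;>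
  rcases cube_mod_nine hH2 with ⟨b, hb⟩ | ⟨b, hb⟩
  · left; exact ⟨b * Q - X * a, by linear_combination e2 - X * ha + Q * hb⟩
  · right; exact ⟨b * Q - X * a, by linear_combination e2 - X * ha + Q * hb⟩
  · right; exact ⟨X * a - b * Q, by linear_combination -e2 + X * ha - Q * hb⟩
  · left; exact ⟨X * a - b * Q, by linear_combination -e2 + X * ha - Q * hb⟩

lemma hil_mod9 (c x y z u : E) : ∃ K : E,
    (c ^ 2 + 3 * c * x + 3 * x ^ 2 - 3 * (1 + 3 * u) * y * z) ^ 3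
      + (1 + 3 * u) * (3 * (1 + 3 * u) * z ^ 2 - y * (c * (1 - om ^ 2) + 3 * x)) ^ 3
      + (1 + 3 * u) ^ 2 * (3 * y ^ 2 - z * (c * (1 - om) + 3 * x)) ^ 3
      - 3 * (1 + 3 * u) * (c ^ 2 + 3 * c * x + 3 * x ^ 2 - 3 * (1 + 3 * u) * y * z)
        * (3 * (1 + 3 * u) * z ^ 2 - y * (c * (1 - om ^ 2) + 3 * x))
        * (3 * y ^ 2 - z * (c * (1 - om) + 3 * x))
      = c ^ 6 + 3 * (om - om ^ 2) * c ^ 3 * (z ^ 3 - y ^ 3) + 9 * K := by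
  have h := om_rel'
  refine ⟨162 * c * u * x * y ^ 2 * z ^ 2 + 27 * c * u * x ^ 2 * y ^ 3 + 54 * c * u * x ^ 2 * z ^ 3 -
    108 * c * u * x ^ 3 * y * z - 81 * c * u * y * z ^ 4 - 54 * c * u * y ^ 4 * z + 243 * c * u
    ^ 2 * x * y ^ 2 * z ^ 2 + 81 * c * u ^ 2 * x ^ 2 * z ^ 3 - 243 * c * u ^ 2 * y * z ^ 4 - 81
    * c * u ^ 2 * y ^ 4 * z - 243 * c * u ^ 3 * y * z ^ 4 + 27 * c * x * y ^ 2 * z ^ 2 + 9 * c
    * x ^ 2 * y ^ 3 + 9 * c * x ^ 2 * z ^ 3 - 36 * c * x ^ 3 * y * z + 9 * c * x ^ 5 - 9 * c *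
    y * z ^ 4 - 9 * c * y ^ 4 * z + 18 * c ^ 2 * u * x * y ^ 3 + 36 * c ^ 2 * u * x * z ^ 3 -
    90 * c ^ 2 * u * x ^ 2 * y * z + 36 * c ^ 2 * u * y ^ 2 * z ^ 2 + 54 * c ^ 2 * u ^ 2 * x *
    z ^ 3 + 54 * c ^ 2 * u ^ 2 * y ^ 2 * z ^ 2 + 6 * c ^ 2 * x * y ^ 3 + 6 * c ^ 2 * x * z ^ 3
    - 30 * c ^ 2 * x ^ 2 * y * z + 12 * c ^ 2 * x ^ 4 + 6 * c ^ 2 * y ^ 2 * z ^ 2 + c ^ 3 * om
    * u * y ^ 3 - 2 * c ^ 3 * om * u * z ^ 3 - 3 * c ^ 3 * om * u ^ 2 * z ^ 3 + c ^ 3 * om * y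
    ^ 3 - c ^ 3 * om * z ^ 3 - 36 * c ^ 3 * u * x * y * z + 5 * c ^ 3 * u * y ^ 3 + 8 * c ^ 3 *
    u * z ^ 3 + 12 * c ^ 3 * u ^ 2 * z ^ 3 - 12 * c ^ 3 * x * y * z + 9 * c ^ 3 * x ^ 3 + 2 * c
    ^ 3 * y ^ 3 + c ^ 3 * z ^ 3 - 6 * c ^ 4 * u * y * z + 4 * c ^ 4 * x ^ 2 - 2 * c ^ 4 * y * z
    + c ^ 5 * x - 162 * u * x * y * z ^ 4 - 108 * u * x * y ^ 4 * z + 162 * u * x ^ 2 * y ^ 2 *
    z ^ 2 + 18 * u * x ^ 3 * y ^ 3 + 36 * u * x ^ 3 * z ^ 3 - 54 * u * x ^ 4 * y * z + 54 * u *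
    y ^ 3 * z ^ 3 + 18 * u * y ^ 6 + 36 * u * z ^ 6 - 486 * u ^ 2 * x * y * z ^ 4 - 162 * u ^ 2
    * x * y ^ 4 * z + 243 * u ^ 2 * x ^ 2 * y ^ 2 * z ^ 2 + 54 * u ^ 2 * x ^ 3 * z ^ 3 + 162 *
    u ^ 2 * y ^ 3 * z ^ 3 + 27 * u ^ 2 * y ^ 6 + 162 * u ^ 2 * z ^ 6 - 486 * u ^ 3 * x * y * z
    ^ 4 + 162 * u ^ 3 * y ^ 3 * z ^ 3 + 324 * u ^ 3 * z ^ 6 + 243 * u ^ 4 * z ^ 6 - 18 * x * y
    * z ^ 4 - 18 * x * y ^ 4 * z + 27 * x ^ 2 * y ^ 2 * z ^ 2 + 6 * x ^ 3 * y ^ 3 + 6 * x ^ 3 *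
    z ^ 3 - 18 * x ^ 4 * y * z + 3 * x ^ 6 + 6 * y ^ 3 * z ^ 3 + 3 * y ^ 6 + 3 * z ^ 6, ?_⟩
  linear_combination (-486 * c * u * x * y ^ 2 * z ^ 2 + 81 * c * u * x ^ 3 * y * z + 243 * c * u * y * z ^ 4 +
    162 * c * u * y ^ 4 * z - 729 * c * u ^ 2 * x * y ^ 2 * z ^ 2 + 729 * c * u ^ 2 * y * z ^ 4
    + 243 * c * u ^ 2 * y ^ 4 * z + 729 * c * u ^ 3 * y * z ^ 4 - 81 * c * x * y ^ 2 * z ^ 2 +
    27 * c * x ^ 3 * y * z + 27 * c * y * z ^ 4 + 27 * c * y ^ 4 * z + 27 * c ^ 2 * om * u * x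
    * y ^ 3 - 27 * c ^ 2 * om * u * x ^ 2 * y * z + 9 * c ^ 2 * om * x * y ^ 3 - 9 * c ^ 2 * om
    * x ^ 2 * y * z - 27 * c ^ 2 * om ^ 2 * u * x * y ^ 3 + 54 * c ^ 2 * om ^ 2 * u * y ^ 2 * z
    ^ 2 + 81 * c ^ 2 * om ^ 2 * u ^ 2 * y ^ 2 * z ^ 2 - 9 * c ^ 2 * om ^ 2 * x * y ^ 3 + 9 * c
    ^ 2 * om ^ 2 * y ^ 2 * z ^ 2 - 27 * c ^ 2 * u * x * y ^ 3 - 54 * c ^ 2 * u * x * z ^ 3 +
    135 * c ^ 2 * u * x ^ 2 * y * z - 162 * c ^ 2 * u * y ^ 2 * z ^ 2 - 81 * c ^ 2 * u ^ 2 * x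
    * z ^ 3 - 243 * c ^ 2 * u ^ 2 * y ^ 2 * z ^ 2 - 9 * c ^ 2 * x * y ^ 3 - 9 * c ^ 2 * x * z ^
    3 + 45 * c ^ 2 * x ^ 2 * y * z - 27 * c ^ 2 * y ^ 2 * z ^ 2 - 27 * c ^ 3 * om * u * x * y *
    z + 12 * c ^ 3 * om * u * y ^ 3 + 6 * c ^ 3 * om * u * z ^ 3 + 9 * c ^ 3 * om * u ^ 2 * z ^
    3 - 9 * c ^ 3 * om * x * y * z + 4 * c ^ 3 * om * y ^ 3 + c ^ 3 * om * z ^ 3 - 9 * c ^ 3 *
    om ^ 2 * u * y ^ 3 - 3 * c ^ 3 * om ^ 2 * y ^ 3 - 3 * c ^ 3 * om ^ 3 * u * y ^ 3 - c ^ 3 *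
    om ^ 3 * y ^ 3 + 3 * c ^ 3 * om ^ 4 * u * y ^ 3 + c ^ 3 * om ^ 4 * y ^ 3 + 81 * c ^ 3 * u *
    x * y * z - 21 * c ^ 3 * u * y ^ 3 - 24 * c ^ 3 * u * z ^ 3 - 36 * c ^ 3 * u ^ 2 * z ^ 3 +
    27 * c ^ 3 * x * y * z - 10 * c ^ 3 * y ^ 3 - c ^ 3 * z ^ 3 - 9 * c ^ 4 * om * u * y * z -
    3 * c ^ 4 * om * y * z + 18 * c ^ 4 * u * y * z + 6 * c ^ 4 * y * z) * h

/-- `θ - 1` -/
def tt (P : E) : Cub E P := ⟨-1, 1, 0⟩

lemma nrm_tt (P : E) : nrm (tt P) = P - 1 := by simp only [nrm, tt]; ring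

lemma three_ta (hu : (p : ℤ) = 1 + 3 * u) : C 3 * iota (ta p u) = tt (p : E) ^ 3 := by
  have hu' : (p : E) = 1 + 3 * (u : E) := by exact_mod_cast congrArg (Int.cast (R := E)) hu
  have e : tt (p : E) ^ 3 = tt (p : E) * (tt (p : E) * tt (p : E)) := by ring
  rw [e, C_mul_eq]
  refine Cub.ext ?_ ?_ ?_
  · simp only [iota_a, ta, mul_a, mul_b, mul_c, tt]
    linear_combination (-1 : E) * hu'
  · simp only [iota_b, ta, mul_a, mul_b, mul_c, tt]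
    push_cast; ring
  · simp only [iota_c, ta, mul_a, mul_b, mul_c, tt]
    push_cast; ring

lemma ta_rel (hu : (p : ℤ) = 1 + 3 * u) :
    iota (ta p u) * (sig (tt (p : E))) ^ 2 * sig (sig (tt (p : E))) =
      C (u : E) * (tt (p : E) ^ 2 * sig (tt (p : E))) := by
  have hu' : (p : E) = 1 + 3 * (u : E) := by exact_mod_cast congrArg (Int.cast (R := E)) hu
  apply C_cancel three_ne_zero'
  have h1 := three_ta (p := p) (u := u) hu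
  have h2 := mul_conj (tt (p : E))
  have h3 : (C (nrm (tt (p : E))) : Cub E (p : E)) = C 3 * C (u : E) := by
    rw [nrm_tt, ← C_mul]; congr 1; linear_combination hu'
  rw [h3] at h2
  linear_combination (sig (tt (p : E))) ^ 2 * sig (sig (tt (p : E))) * h1
    + tt (p : E) ^ 2 * sig (tt (p : E)) * h2

lemma not3_pow {u : ℤ} (hu : ¬ (3 : ℤ) ∣ u) (i : ℕ) : ¬ (3 : ℤ) ∣ u ^ i :=
  fun h => hu (Int.prime_three.dvd_of_dvd_pow h)

lemma c6_mod9 {c : ℤ} (hc : ¬ (3 : ℤ) ∣ c) : (9 : ℤ) ∣ c ^ 6 - 1 := by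
  obtain ⟨k, hk⟩ : ∃ k : ℤ, c ^ 2 = 1 + 3 * k := by
    have h1 : (3 : ℤ) ∣ c ^ 2 - 1 := by
      rw [dvd3_iff]
      have h2 : (c : ZMod 3) ≠ 0 := fun h0 => hc ((dvd3_iff c).mpr h0)
      push_cast
      revert h2
      generalize (c : ZMod 3) = t
      revert t; decide
    obtain ⟨k, hk⟩ := h1
    exact ⟨k, by linarith⟩
  refine ⟨k + 3 * k ^ 2 + 3 * k ^ 3, ?_⟩
  have : c ^ 6 = (c ^ 2) ^ 3 := by ring
  rw [this, hk]; ring

/-- the key 3-adic input -/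
lemma Dat.ta3 {q : E} (h : Dat p q) (h3 : c q 3 = 0) (hu : (p : ℤ) = 1 + 3 * u)
    (hu3 : ¬ (3 : ℤ) ∣ u) {ε : Cub ℤ (p : ℤ)} (hε : nrm ε = 1) {α : Cub E (p : E)} (hα : Prm α)
    (hs : sig α = iota ε * α) {κ : E} (hκ : κ ≠ 0) (hn : nrm α = κ ^ 3 * (q * star q ^ 2))
    {i : ℕ} {x y z : ℤ} (hi : ε * ta p u ^ i = ⟨u ^ i + 3 * x, 3 * y, 3 * z⟩) :
    (3 : ℤ) ∣ z - y := by
  have hu' : (p : E) = 1 + 3 * (u : E) := by exact_mod_cast congrArg (Int.cast (R := E)) hu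
  set c0 : ℤ := u ^ i with hc0
  have hc3 : ¬ (3 : ℤ) ∣ c0 := not3_pow hu3 i
  have hc0' : (c0 : E) ≠ 0 := by
    have : c0 ≠ 0 := by rintro h0; rw [h0] at hc3; exact hc3 (dvd_zero _)
    exact_mod_cast this
  set β : Cub E (p : E) := iota (ε * ta p u ^ i) with hβ
  have hnβ : nrm β = (c0 : E) ^ 3 := by
    rw [hβ, nrm_iota, nrm_mul, hε, nrm_pow, nrm_ta hu, hc0]; push_cast; ring
  have hspec := hil_spec hnβ
  set A : Cub E (p : E) := ⟨(c0 : E) ^ 2 + 3 * c0 * x + 3 * (x : E) ^ 2 - 3 * (p : E) * y * z,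
    3 * (p : E) * (z : E) ^ 2 - y * (c0 * (1 - om ^ 2) + 3 * x),
    3 * (y : E) ^ 2 - z * (c0 * (1 - om) + 3 * x)⟩ with hA
  have hhil : hil (c0 : E) β = C 3 * A := by
    have hom := om_rel'
    rw [hβ, hi, C_mul_eq]
    refine Cub.ext ?_ ?_ ?_
    · simp only [hil, iota_a, iota_b, iota_c, hA]
      push_cast
      linear_combination ((c0 : E) ^ 2 * (om - 1) - ((c0 : E) + 3 * x) * c0) * hom
    · simp only [hil, iota_a, iota_b, iota_c, hA]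
      push_cast
      ring
    · simp only [hil, iota_a, iota_b, iota_c, hA]
      push_cast
      ring
  have hAs : C (c0 : E) * sig A = β * A := by
    apply C_cancel three_ne_zero'
    rw [hhil, map_mul, sig_C] at hspec
    linear_combination hspec
  -- comparison with α
  set t := tt (p : E) with ht
  set B : Cub E (p : E) := A * (t ^ 2 * sig t) ^ i with hB
  have hBs : sig B = iota ε * B := by
    apply C_cancel hc0'
    have h1 := ta_rel (p := p) (u := u) hu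
    rw [← ht] at h1
    have h2 : (iota (ta p u) * (sig t) ^ 2 * sig (sig t)) ^ i = C (c0 : E) * (t ^ 2 * sig t) ^ i := by
      rw [h1, mul_pow, ← C_pow, hc0]; push_cast; rfl
    have h3 : β = iota ε * iota (ta p u) ^ i := by rw [hβ, map_mul, map_pow]
    rw [hB, map_mul, map_pow, map_mul, map_pow]
    calc C (c0 : E) * (sig A * (sig t ^ 2 * sig (sig t)) ^ i)
        = (C (c0 : E) * sig A) * (sig t ^ 2 * sig (sig t)) ^ i := by ring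
      _ = iota ε * A * (iota (ta p u) * sig t ^ 2 * sig (sig t)) ^ i := by
          rw [hAs, h3, mul_assoc (iota (ta p u)), mul_pow (iota (ta p u))]; ring
      _ = C (c0 : E) * (iota ε * (A * (t ^ 2 * sig t) ^ i)) := by rw [h2]; ring
  have hNα : nrm α ≠ 0 := h.nrm_ne hα.ne_zero
  obtain ⟨f, hf⟩ := unique_of_prm hα hNα hs hBs
  -- norm of A modulo 9
  obtain ⟨K, hK⟩ := hil_mod9 (c0 : E) x y z u
  have hNA : nrm A = (c0 : E) ^ 6 + 3 * (om - om ^ 2) * c0 ^ 3 * ((z : E) ^ 3 - y ^ 3) + 9 * K := by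
    rw [← hK, nrm]
    simp only [hA]
    rw [hu']
  have hl3 : lam ∣ (3 : E) := lam_dvd_three
  have hXl : ¬ lam ∣ nrm A := by
    intro hd
    rw [hNA] at hd
    have h1 : lam ∣ 3 * (om - om ^ 2) * (c0 : E) ^ 3 * ((z : E) ^ 3 - y ^ 3) + 9 * K := by
      have e : 3 * (om - om ^ 2) * (c0 : E) ^ 3 * ((z : E) ^ 3 - y ^ 3) + 9 * K =
        3 * ((om - om ^ 2) * (c0 : E) ^ 3 * ((z : E) ^ 3 - y ^ 3) + 3 * K) := by ring
      rw [e]; exact hl3.mul_right _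
    have h2 : lam ∣ (c0 : E) ^ 6 := by
      have := dvd_sub hd h1
      have e : (c0 : E) ^ 6 + 3 * (om - om ^ 2) * (c0 : E) ^ 3 * ((z : E) ^ 3 - y ^ 3) + 9 * K -
        (3 * (om - om ^ 2) * (c0 : E) ^ 3 * ((z : E) ^ 3 - y ^ 3) + 9 * K) = (c0 : E) ^ 6 := by ring
      rwa [e] at this
    have h4 := prime_lam.dvd_of_dvd_pow h2
    rw [lam_dvd_iff] at h4
    simp at h4
    exact hc3 h4
  have hQprim : Prim (q * star q ^ 2) := by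
    rw [pow_two]; exact h.hq.prim.mul (h.hq.star.prim.mul h.hq.star.prim)
  have hQl : ¬ lam ∣ q * star q ^ 2 := hQprim.not_lam
  have hp1 : (p : E) - 1 ≠ 0 := by
    rw [hu']
    have : u ≠ 0 := by rintro rfl; exact hu3 (dvd_zero _)
    have h1 : (3 : E) * u ≠ 0 := mul_ne_zero three_ne_zero' (by exact_mod_cast this)
    intro h0; apply h1; linear_combination h0
  have hG : ((p : E) - 1) ^ i ≠ 0 := pow_ne_zero _ hp1
  have hXeq : nrm A * (((p : E) - 1) ^ i) ^ 3 = (f * κ) ^ 3 * (q * star q ^ 2) := by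
    have h1 := congrArg nrm hf
    rw [hB, nrm_mul, nrm_pow, nrm_mul, nrm_pow, nrm_sig, ht, nrm_tt, nrm_mul, nrm_C, hn] at h1
    have e : (((p : E) - 1) ^ i) ^ 3 = (((p : E) - 1) ^ 2 * ((p : E) - 1)) ^ i := by
      rw [← pow_succ, ← pow_mul, ← pow_mul, mul_comm i]
    rw [e, h1]; ring
  have hf0 : f ≠ 0 := by
    rintro rfl
    have h1 : nrm A * (((p : E) - 1) ^ i) ^ 3 = 0 := by rw [hXeq]; ring
    rcases mul_eq_zero.mp h1 with h2 | h2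
    · exact hXl (h2 ▸ dvd_zero _)
    · exact pow_ne_zero 3 hG h2
  have hQ1 := nine_dvd_of_c_three h.hq h3
  have hc6 : (9 : E) ∣ (c0 : E) ^ 6 - 1 := by
    obtain ⟨k, hk⟩ := c6_mod9 hc3
    exact ⟨k, by exact_mod_cast congrArg (Int.cast (R := E)) hk⟩
  rcases cube_mod hG (mul_ne_zero hf0 hκ) hXl hQl hXeq with h9 | h9
  · have h10 : (9 : E) ∣ ((3 * c0 ^ 3 * (z ^ 3 - y ^ 3) : ℤ) : E) * (1 + 2 * om) := by
      obtain ⟨k1, hk1⟩ := h9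
      obtain ⟨k2, hk2⟩ := hQ1
      obtain ⟨k3, hk3⟩ := hc6
      rw [hNA] at hk1
      refine ⟨k1 + k2 - k3 - K, ?_⟩
      push_cast
      have hom := om_rel'
      linear_combination hk1 + hk2 - hk3 + 3 * (c0 : E) ^ 3 * ((z : E) ^ 3 - y ^ 3) * hom
    have h11 := ((nine_dvd_iff _).mp h10).1
    have h12 : (((3 * c0 ^ 3 * (z ^ 3 - y ^ 3) : ℤ) : E) * (1 + 2 * om)).re =
        3 * c0 ^ 3 * (z ^ 3 - y ^ 3) := by
      have e : (1 + 2 * om : E) = ⟨1, 2⟩ := by ext <;> simp [om]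
      rw [e, QuadraticAlgebra.re_mul]
      simp only [QuadraticAlgebra.re_intCast, QuadraticAlgebra.im_intCast, Int.cast_id]; ring
    rw [h12] at h11
    have h13 : (3 : ℤ) ∣ c0 ^ 3 * (z ^ 3 - y ^ 3) := by
      obtain ⟨k, hk⟩ := h11
      exact ⟨k, by
        have : 3 * (c0 ^ 3 * (z ^ 3 - y ^ 3)) = 3 * (3 * k) := by linear_combination hk
        linarith⟩
    have h14 : (3 : ℤ) ∣ z ^ 3 - y ^ 3 := by
      rcases Int.prime_three.dvd_or_dvd h13 with h15 | h15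
      · exact absurd (Int.prime_three.dvd_of_dvd_pow h15) hc3
      · exact h15
    have h16 := three_dvd_cube_sub z
    have h17 := three_dvd_cube_sub y
    omega
  · exfalso
    have h10 : (3 : E) ∣ ((c0 ^ 6 + 1 : ℤ) : E) := by
      obtain ⟨k1, hk1⟩ := h9
      obtain ⟨k2, hk2⟩ := hQ1
      rw [hNA] at hk1
      refine ⟨3 * k1 - 3 * k2 - 3 * K - (om - om ^ 2) * (c0 : E) ^ 3 * ((z : E) ^ 3 - y ^ 3), ?_⟩
      push_cast
      linear_combination hk1 - hk2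
    rw [three_dvd_iff] at h10
    have h11 := h10.1
    have h12 := c6_mod9 hc3
    simp only [QuadraticAlgebra.re_intCast, Int.cast_id] at h11
    omega

end

end Pool.Agent.LibEis
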