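import Pool.Agent.LibEis.Basic

/-! Eisenstein integers: units, the prime `1 - ω`, congruences mod 3 and 9. -/

namespace Pool.Agent.LibEis

open scoped QuadraticAlgebra

lemma int_dvd_iff (n : ℤ) (z : E) : (n : E) ∣ z ↔ n ∣ z.re ∧ n ∣ z.im := by
  constructor
  · rintro ⟨c, rfl⟩
    constructor
    · refine ⟨c.re, ?_⟩
      simp only [QuadraticAlgebra.re_mul, QuadraticAlgebra.re_intCast, QuadraticAlgebra.im_intCast,
        Int.cast_id]; ring
    · refine ⟨c.im, ?_⟩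
      simp only [QuadraticAlgebra.im_mul, QuadraticAlgebra.re_intCast, QuadraticAlgebra.im_intCast,
        Int.cast_id]; ring
  · rintro ⟨⟨a, ha⟩, ⟨b, hb⟩⟩
    refine ⟨⟨a, b⟩, ?_⟩
    ext
    · simp only [QuadraticAlgebra.re_mul, QuadraticAlgebra.re_intCast, QuadraticAlgebra.im_intCast,
        Int.cast_id, ha]; ring
    · simp only [QuadraticAlgebra.im_mul, QuadraticAlgebra.re_intCast, QuadraticAlgebra.im_intCast,
        Int.cast_id, hb]; ring

lemma isUnit_iff_nm {z : E} : IsUnit z ↔ nm z = 1 := by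
  constructor
  · intro h
    obtain ⟨y, hy⟩ := h.exists_right_inv
    have h1 : nm z * nm y = 1 := by rw [← nm_mul, hy, nm_one]
    have h2 := nm_nonneg z
    have h3 := Int.eq_one_or_neg_one_of_mul_eq_one h1
    omega
  · intro h
    refine IsUnit.of_mul_eq_one (star z) ?_
    rw [mul_star_eq, h]; simp

lemma nm_eq_one_iff {z : E} : nm z = 1 ↔
    z = 1 ∨ z = -1 ∨ z = om ∨ z = -om ∨ z = om ^ 2 ∨ z = -om ^ 2 := by
  constructor
  · intro h
    have h4 := four_nm z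
    rw [h] at h4
    have h1 : z.im ^ 2 ≤ 1 := by nlinarith [sq_nonneg (2 * z.re - z.im)]
    have h2 : -1 ≤ z.im ∧ z.im ≤ 1 := by constructor <;> nlinarith
    have h5 : (2 * z.re - z.im) ^ 2 ≤ 4 := by nlinarith [sq_nonneg z.im]
    have h6 : -2 ≤ 2 * z.re - z.im ∧ 2 * z.re - z.im ≤ 2 := by constructor <;> nlinarith
    have h7 : z.im = -1 ∨ z.im = 0 ∨ z.im = 1 := by omega
    have h8 : z.re = -1 ∨ z.re = 0 ∨ z.re = 1 := by omega
    have e1 : om ^ 2 = ⟨-1, -1⟩ := by rw [om_sq]; ext <;> simp [om]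
    rw [e1]
    rcases h7 with h7 | h7 | h7 <;> rcases h8 with h8 | h8 | h8 <;>
      simp only [nm, h7, h8] at h <;> norm_num at h <;>
      simp only [QuadraticAlgebra.ext_iff, h7, h8, om, QuadraticAlgebra.re_neg,
        QuadraticAlgebra.im_neg, QuadraticAlgebra.re_one, QuadraticAlgebra.im_one] <;> norm_num
  · have e1 : om ^ 2 = ⟨-1, -1⟩ := by rw [om_sq]; ext <;> simp [om]
    rw [e1]
    rintro (rfl | rfl | rfl | rfl | rfl | rfl) <;> simp [nm, om]

lemma nm_om : nm om = 1 := by simp [nm, om]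

lemma isUnit_om : IsUnit om := isUnit_iff_nm.mpr nm_om

lemma nm_lam : nm lam = 3 := by simp [nm, lam]

lemma lam_eq : lam = 1 - om := by ext <;> simp [lam, om]

lemma three_eq : (3 : E) = -om ^ 2 * lam ^ 2 := by
  rw [lam_eq]
  have := om_sq; have h3 := om_cube
  linear_combination this - 2 * h3 + om * h3

lemma lam_dvd_iff (z : E) : lam ∣ z ↔ (3 : ℤ) ∣ z.re + z.im := by
  constructor
  · rintro ⟨c, rfl⟩
    refine ⟨c.im, ?_⟩
    simp only [QuadraticAlgebra.re_mul, QuadraticAlgebra.im_mul, lam]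
    ring
  · rintro ⟨k, hk⟩
    refine ⟨⟨z.re - k, k⟩, ?_⟩
    ext
    · simp only [QuadraticAlgebra.re_mul, lam]; ring
    · simp only [QuadraticAlgebra.im_mul, lam]; linarith

lemma lam_ne_zero : lam ≠ 0 := by
  intro h; have := nm_lam; rw [h, nm_zero] at this; norm_num at this

lemma prime_lam : Prime lam := by
  refine ⟨lam_ne_zero, ?_, ?_⟩
  · intro h; have := isUnit_iff_nm.mp h; rw [nm_lam] at this; norm_num at this
  · intro a b hab
    rw [lam_dvd_iff] at hab ⊢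
    rw [lam_dvd_iff]
    have h1 : (3 : ℤ) ∣ (a.re + a.im) * (b.re + b.im) := by
      have : (a.re + a.im) * (b.re + b.im) = (a * b).re + (a * b).im + 3 * (a.im * b.im) := by
        simp only [QuadraticAlgebra.re_mul, QuadraticAlgebra.im_mul]; ring
      rw [this]
      exact dvd_add hab (dvd_mul_right _ _)
    exact Int.Prime.dvd_mul' (by norm_num) (by exact_mod_cast h1)

/-- A unit of `E` in the form `± ω ^ j`. -/
lemma unit_form {u : E} (hu : IsUnit u) : ∃ (s : E) (j : ℕ), (s = 1 ∨ s = -1) ∧ j < 3 ∧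
    u = s * om ^ j := by
  rcases nm_eq_one_iff.mp (isUnit_iff_nm.mp hu) with h | h | h | h | h | h
  · exact ⟨1, 0, Or.inl rfl, by norm_num, by rw [h]; ring⟩
  · exact ⟨-1, 0, Or.inr rfl, by norm_num, by rw [h]; ring⟩
  · exact ⟨1, 1, Or.inl rfl, by norm_num, by rw [h]; ring⟩
  · exact ⟨-1, 1, Or.inr rfl, by norm_num, by rw [h]; ring⟩
  · exact ⟨1, 2, Or.inl rfl, by norm_num, by rw [h]; ring⟩
  · exact ⟨-1, 2, Or.inr rfl, by norm_num, by rw [h]; ring⟩

lemma om_pow_eq (j : ℕ) : om ^ j = om ^ (j % 3) := by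
  conv_lhs => rw [← Nat.div_add_mod j 3]
  rw [pow_add, pow_mul, om_cube, one_pow, one_mul]

lemma om2_eq : om ^ 2 = (⟨-1, -1⟩ : E) := by rw [om_sq]; ext <;> simp [om]

/-- `z ≡ 1 mod 3`. -/
def Prim (z : E) : Prop := (3 : E) ∣ z - 1

lemma three_dvd_iff (z : E) : (3 : E) ∣ z ↔ (3 : ℤ) ∣ z.re ∧ (3 : ℤ) ∣ z.im := by
  have := int_dvd_iff 3 z
  simpa using this

lemma nine_dvd_iff (z : E) : (9 : E) ∣ z ↔ (9 : ℤ) ∣ z.re ∧ (9 : ℤ) ∣ z.im := by
  have := int_dvd_iff 9 z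
  simpa using this

lemma prim_iff (z : E) : Prim z ↔ (3 : ℤ) ∣ z.re - 1 ∧ (3 : ℤ) ∣ z.im := by
  rw [Prim, three_dvd_iff]; simp

lemma Prim.mul {a b : E} (ha : Prim a) (hb : Prim b) : Prim (a * b) := by
  obtain ⟨x, hx⟩ := ha; obtain ⟨y, hy⟩ := hb
  exact ⟨a * y + x, by linear_combination a * hy + hx⟩

lemma prim_one : Prim 1 := ⟨0, by ring⟩

/-- every element prime to `1 - ω` is, mod 3, one of the six units -/
lemma exists_unit_mod_three {z : E} (h : ¬ lam ∣ z) : ∃ (s : E) (j : ℕ), (s = 1 ∨ s = -1) ∧ j < 3 ∧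
    Prim (s * om ^ j * z) := by
  rw [lam_dvd_iff] at h
  have h1 : z.re % 3 = 0 ∨ z.re % 3 = 1 ∨ z.re % 3 = 2 := by omega
  have h2 : z.im % 3 = 0 ∨ z.im % 3 = 1 ∨ z.im % 3 = 2 := by omega
  have e0 : ∀ s : E, s * om ^ 0 * z = s * z := by intro s; ring
  have e1 : ∀ s : E, s * om ^ 1 * z = s * (om * z) := by intro s; ring
  have e2 : ∀ s : E, s * om ^ 2 * z = s * (om ^ 2 * z) := by intro s; ring
  have f1 : om * z = ⟨-z.im, z.re - z.im⟩ := by
    ext <;> simp only [QuadraticAlgebra.re_mul, QuadraticAlgebra.im_mul, om] <;> ring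
  have f2 : om ^ 2 * z = ⟨-z.re + z.im, -z.re⟩ := by
    rw [om2_eq]
    ext <;> simp only [QuadraticAlgebra.re_mul, QuadraticAlgebra.im_mul] <;> ring
  rcases h1 with h1 | h1 | h1 <;> rcases h2 with h2 | h2 | h2
  · omega
  · -- (0,1)
    refine ⟨1, 2, Or.inl rfl, by norm_num, ?_⟩
    rw [e2, f2, one_mul, prim_iff]; constructor <;> simp only <;> omega
  · -- (0,2) : z ≡ -ω
    refine ⟨-1, 2, Or.inr rfl, by norm_num, ?_⟩
    rw [e2, f2, prim_iff]
    simp only [neg_mul, one_mul, QuadraticAlgebra.re_neg, QuadraticAlgebra.im_neg]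
    constructor <;> omega
  · refine ⟨1, 0, Or.inl rfl, by norm_num, ?_⟩
    rw [e0, one_mul, prim_iff]; constructor <;> omega
  · -- (1,1) = -ω²
    refine ⟨-1, 1, Or.inr rfl, by norm_num, ?_⟩
    rw [e1, f1, prim_iff]
    simp only [neg_mul, one_mul, QuadraticAlgebra.re_neg, QuadraticAlgebra.im_neg]
    constructor <;> omega
  · omega
  · refine ⟨-1, 0, Or.inr rfl, by norm_num, ?_⟩
    rw [e0, prim_iff]
    simp only [neg_mul, one_mul, QuadraticAlgebra.re_neg, QuadraticAlgebra.im_neg]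
    constructor <;> omega
  · omega
  · refine ⟨1, 1, Or.inl rfl, by norm_num, ?_⟩
    rw [e1, f1, one_mul, prim_iff]; constructor <;> simp only <;> omega

lemma prim_unit {u : E} (hu : IsUnit u) (h : Prim u) : u = 1 := by
  rw [prim_iff] at h
  rcases nm_eq_one_iff.mp (isUnit_iff_nm.mp hu) with h' | h' | h' | h' | h' | h' <;>
    first
    | exact h'
    | (exfalso; rw [h'] at h; try rw [om2_eq] at h
       simp [om] at h; try omega)

lemma Prim.not_lam {z : E} (h : Prim z) : ¬ lam ∣ z := by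
  rw [prim_iff] at h; rw [lam_dvd_iff]; omega

lemma lam_dvd_three : lam ∣ (3 : E) := ⟨-om ^ 2 * lam, by rw [three_eq]; ring⟩

/-- cubes of elements `≡ 1 mod 3` are `≡ 1 mod 9` -/
lemma Prim.cube {z : E} (h : Prim z) : (9 : E) ∣ z ^ 3 - 1 := by
  obtain ⟨k, hk⟩ := h
  have : z = 1 + 3 * k := by linear_combination hk
  exact ⟨k + 3 * k ^ 2 + 3 * k ^ 3, by rw [this]; ring⟩

lemma cube_mod_nine {z : E} (h : ¬ lam ∣ z) : (9 : E) ∣ z ^ 3 - 1 ∨ (9 : E) ∣ z ^ 3 + 1 := by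
  obtain ⟨s, j, hs, hj, hp⟩ := exists_unit_mod_three h
  have h1 := hp.cube
  have h2 : (s * om ^ j * z) ^ 3 = s ^ 3 * z ^ 3 := by
    have : (om ^ j) ^ 3 = 1 := by rw [← pow_mul, mul_comm, pow_mul, om_cube, one_pow]
    linear_combination (s ^ 3 * z ^ 3) * this
  rw [h2] at h1
  rcases hs with rfl | rfl
  · left; simpa using h1
  · right
    have : (z : E) ^ 3 + 1 = -((-1) ^ 3 * z ^ 3 - 1) := by ring
    rw [this]; exact (dvd_neg).mpr h1

end Pool.Agent.LibEis
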